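import Pool.Agent.Lib.MP_1c0d65_gt.C.Fam

/-! Invariance under affine maps, bounds for densities, a diagonal lemma. -/

set_option autoImplicit false

namespace Pool.Agent.Lib.MP_1c0d65_gt.C

open MeasureTheory Filter Metric Set Topology
open scoped ENNReal

variable {E : Type} [NormedAddCommGroup E] [NormedSpace ℝ E]

theorem em_apply (u : ℂ → E) (S : Set ℂ) : em u S = ∫⁻ z in S, ‖fderiv ℝ u z‖ₑ ^ 2 :=
  withDensity_apply' _ _

theorem em_ac (u : ℂ → E) : em u ≪ volume := withDensity_absolutelyContinuous _ _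

theorem dist_aff (x : ℂ) {δ : ℝ} (h : 0 < δ) (y y' : ℂ) :
    dist (aff x δ y) (aff x δ y') = δ * dist y y' := by
  rw [aff, aff, dist_add_left, dist_smul₀, Real.norm_of_nonneg h.le]

@[simp] theorem aff_zero (x : ℂ) (δ : ℝ) : aff x δ 0 = x := by simp [aff]

theorem dist_aff_self (x : ℂ) {δ : ℝ} (h : 0 < δ) (y : ℂ) : dist (aff x δ y) x = δ * ‖y‖ := by
  rw [← dist_zero_right, ← dist_aff x h, aff_zero]

theorem aff_surj (x : ℂ) {δ : ℝ} (h : 0 < δ) : Function.Surjective (aff x δ) := fun z =>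
  ⟨δ⁻¹ • (z - x), by rw [aff, smul_inv_smul₀ h.ne', add_sub_cancel]⟩

theorem continuous_aff (x : ℂ) (δ : ℝ) : Continuous (aff x δ) := by unfold aff; fun_prop

theorem pre_ball (x : ℂ) {δ : ℝ} (h : 0 < δ) (c : ℂ) (r : ℝ) :
    aff x δ ⁻¹' ball (aff x δ c) (δ * r) = ball c r := by
  ext y
  rw [mem_preimage, mem_ball, mem_ball, dist_aff x h, mul_lt_mul_iff_right₀ h]

theorem pre_ball0 (x : ℂ) {δ : ℝ} (h : 0 < δ) (r : ℝ) :
    aff x δ ⁻¹' ball x (δ * r) = ball 0 r := by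
  rw [← pre_ball x h 0 r, aff_zero]

theorem aff_emb (x : ℂ) {δ : ℝ} (h : 0 < δ) : MeasurableEmbedding (aff x δ) :=
  (measurableEmbedding_addLeft x).comp (measurableEmbedding_const_smul₀ h.ne')

theorem map_aff (x : ℂ) {δ : ℝ} (h : 0 < δ) :
    Measure.map (aff x δ) volume = ENNReal.ofReal (δ ^ 2)⁻¹ • (volume : Measure ℂ) := by
  have e : aff x δ = (fun z => x + z) ∘ fun y => δ • y := rfl
  rw [e, ← Measure.map_map (by fun_prop) (by fun_prop), Measure.map_addHaar_smul _ h.ne',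
    Measure.map_smul, map_add_left_eq_self, Complex.finrank_real_complex,
    abs_of_pos (by positivity)]

theorem fderiv_aff (u : ℂ → E) (x : ℂ) (δ : ℝ) (y : ℂ) :
    fderiv ℝ (u ∘ aff x δ) y = δ • fderiv ℝ u (aff x δ y) := by
  have h := fderiv_comp_smul (𝕜 := ℝ) (f := fun z => u (x + z)) (x := y) δ
  rw [fderiv_comp_add_left] at h
  exact h

theorem em_aff (u : ℂ → E) (x : ℂ) {δ : ℝ} (h : 0 < δ) (S : Set ℂ) :
    em (u ∘ aff x δ) (aff x δ ⁻¹' S) = em u S := by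
  have e : ∀ y, ‖fderiv ℝ (u ∘ aff x δ) y‖ₑ ^ 2 =
      ENNReal.ofReal (δ ^ 2) * ‖fderiv ℝ u (aff x δ y)‖ₑ ^ 2 := fun y => by
    rw [fderiv_aff, enorm_smul, mul_pow, Real.enorm_of_nonneg h.le, ENNReal.ofReal_pow h.le]
  rw [em_apply, em_apply]
  simp only [e]
  rw [lintegral_const_mul' _ _ ENNReal.ofReal_ne_top,
    ← (aff_emb x h).lintegral_map (fun z => ‖fderiv ℝ u z‖ₑ ^ 2), ← (aff_emb x h).restrict_map,
    map_aff x h, Measure.restrict_smul, lintegral_smul_measure, smul_eq_mul, ← mul_assoc,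
    ← ENNReal.ofReal_mul (by positivity), mul_inv_cancel₀ (by positivity), ENNReal.ofReal_one,
    one_mul]

variable {K : Set E} {g : E → (ℂ →L[ℝ] E) → ℝ}

theorem int_aff (hg : Dens K g) (u : ℂ → E) (x : ℂ) {δ : ℝ} (h : 0 < δ) (S : Set ℂ) :
    ∫ z in aff x δ ⁻¹' S, den g (u ∘ aff x δ) z = ∫ z in S, den g u z := by
  have e : ∀ y, den g (u ∘ aff x δ) y = δ ^ 2 * den g u (aff x δ y) := fun y => by
    rw [den, fderiv_aff, hg.hom _ _ _ h]; rfl
  simp only [e]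
  rw [integral_const_mul, ← (aff_emb x h).setIntegral_map (den g u), map_aff x h,
    Measure.restrict_smul, integral_smul_measure, ENNReal.toReal_ofReal (by positivity),
    smul_eq_mul, ← mul_assoc, mul_inv_cancel₀ (by positivity), one_mul]

theorem continuousAt_den (hg : Dens K g) {u : ℂ → E} {z : ℂ} (h : ContDiffAt ℝ 1 u z) :
    ContinuousAt (den g u) z :=
  hg.cont.continuousAt.comp (h.continuousAt.prodMk (h.continuousAt_fderiv one_ne_zero))

theorem lint_den_le {C : ℝ} (hC : 0 ≤ C) (hb : ∀ e ∈ K, ∀ A, |g e A| ≤ C * ‖A‖ ^ 2) {u : ℂ → E}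
    {S : Set ℂ} (hS : MeasurableSet S) (h : ∀ z ∈ S, u z ∈ K) :
    ∫⁻ z in S, ‖den g u z‖ₑ ≤ ENNReal.ofReal C * em u S := by
  rw [em_apply, ← lintegral_const_mul' _ _ ENNReal.ofReal_ne_top]
  refine setLIntegral_mono' hS fun z hz => ?_
  rw [← ofReal_norm, ← ofReal_norm, ← ENNReal.ofReal_pow (norm_nonneg _),
    ← ENNReal.ofReal_mul hC]
  exact ENNReal.ofReal_le_ofReal (hb _ (h z hz) _)

theorem abs_int_le {C : ℝ} (hC : 0 ≤ C) (hb : ∀ e ∈ K, ∀ A, |g e A| ≤ C * ‖A‖ ^ 2) {u : ℂ → E}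
    {S : Set ℂ} (hS : MeasurableSet S) (h : ∀ z ∈ S, u z ∈ K) {η : ℝ} (hη : 0 ≤ η)
    (he : em u S ≤ ENNReal.ofReal η) : |∫ z in S, den g u z| ≤ C * η := by
  rw [← ENNReal.ofReal_le_ofReal_iff (mul_nonneg hC hη), ENNReal.ofReal_mul hC, ← Real.norm_eq_abs,
    ofReal_norm]
  exact (enorm_integral_le_lintegral_enorm _).trans
    ((lint_den_le hC hb hS h).trans (mul_le_mul_right he _))

variable {Λ : Type} [TopologicalSpace Λ] {F : Fam Λ E}

theorem Fam.integrableOn (hg : Dens F.K g) {l : Λ} {u : ℂ → E} {S : Set ℂ} (hS : MeasurableSet S)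
    (h : ∀ z ∈ S, F.At l u z) (he : em u S ≠ ⊤) : IntegrableOn (den g u) S := by
  obtain ⟨C, hC, hb⟩ := hg.bd
  refine ⟨ContinuousOn.aestronglyMeasurable
    (fun z hz => (continuousAt_den hg (F.c1 (h z hz))).continuousWithinAt) hS, ?_⟩
  exact (lint_den_le hC hb hS fun z hz => F.mem (h z hz)).trans_lt
    (ENNReal.mul_lt_top ENNReal.ofReal_lt_top he.lt_top)

variable {𝒰 : Filter ℕ} {l : Λ} {u : ℕ → ℂ → E} {D : ℕ → Set ℂ}

theorem Res.of_aff {x : ℕ → ℂ} {δ : ℕ → ℝ} (hδ : ∀ᶠ n in 𝒰, 0 < δ n) {D' : ℕ → Set ℂ}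
    (hD : ∀ᶠ n in 𝒰, D' n = aff (x n) (δ n) ⁻¹' D n)
    (h : Res F 𝒰 l (fun n => u n ∘ aff (x n) (δ n)) D') : Res F 𝒰 l u D := by
  obtain ⟨ι, _, v, h⟩ := h
  refine ⟨ι, _, v, h.sol, h.fin, fun g hg => (h.int g hg).congr' ?_, fun η hη => ?_,
    fun a y η hη => ?_⟩
  · filter_upwards [hδ, hD] with n hn e
    rw [e, int_aff hg _ _ hn]
  · filter_upwards [hδ, hD, h.near η hη] with n hn e h z hz
    obtain ⟨y, rfl⟩ := aff_surj (x n) hn z
    exact h y (by rw [e]; exact hz)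
  · filter_upwards [hD, h.hit a y η hη] with n e ⟨z, hz, h⟩
    exact ⟨_, by rwa [e] at hz, h⟩

/-- Diagonal lemma. -/
theorem exists_diag (h𝒰 : 𝒰 ≤ atTop) {P : ℕ → ℕ → Prop} (h : ∀ k, ∀ᶠ n in 𝒰, P k n) :
    ∃ κ : ℕ → ℕ, Tendsto κ 𝒰 atTop ∧ ∀ᶠ n in 𝒰, P (κ n) n := by
  classical
  refine ⟨fun n => Nat.findGreatest (fun k => P k n) n, tendsto_atTop.2 fun k => ?_, ?_⟩
  · filter_upwards [h k, h𝒰 (eventually_ge_atTop k)] with n hn hk
    exact Nat.le_findGreatest hk hn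
  · filter_upwards [h 0] with n hn
    exact Nat.findGreatest_spec (P := fun k => P k n) (Nat.zero_le n) hn

/-- Comparison of energies from a pointwise bound. -/
theorem em_le_of {f f' : ℂ → E} {S A : Set ℂ} (hA : MeasurableSet A) (hAS : A ⊆ S) {η : ℝ}
    (hη : 0 ≤ η) (h : ∀ z ∈ S, ‖fderiv ℝ f z‖ ^ 2 ≤ ‖fderiv ℝ f' z‖ ^ 2 + η) :
    em f A ≤ em f' A + ENNReal.ofReal η * volume S := by
  rw [em_apply, em_apply]
  calc ∫⁻ z in A, ‖fderiv ℝ f z‖ₑ ^ 2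
      ≤ ∫⁻ z in A, ‖fderiv ℝ f' z‖ₑ ^ 2 + ENNReal.ofReal η := setLIntegral_mono' hA fun z hz => by
        rw [← ofReal_norm, ← ofReal_norm, ← ENNReal.ofReal_pow (norm_nonneg _),
          ← ENNReal.ofReal_pow (norm_nonneg _), ← ENNReal.ofReal_add (by positivity) hη]
        exact ENNReal.ofReal_le_ofReal (h z (hAS hz))
    _ ≤ _ := by
        rw [lintegral_add_right _ measurable_const, setLIntegral_const]
        exact add_le_add_right (mul_le_mul_right (measure_mono hAS) _) _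

end Pool.Agent.Lib.MP_1c0d65_gt.C
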