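import Mathlib

/-! Compactness along an ultrafilter from equicontinuity of the derivative. -/

set_option autoImplicit false

namespace Pool.Agent.Lib.MP_1c0d65_gt.C

open Filter Metric Set Topology

/-- Pointwise convergence and equicontinuity give uniform convergence. -/
theorem unif_of_equi {ι X Y : Type*} [PseudoMetricSpace X] [PseudoMetricSpace Y] {l : Filter ι}
    [l.NeBot] {f : ι → X → Y} {g : X → Y} {s : Set X} (hs : TotallyBounded s)
    (hp : ∀ x ∈ s, Tendsto (fun n => f n x) l (𝓝 (g x)))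
    (he : ∀ η > 0, ∃ δ > 0, ∀ᶠ n in l, ∀ x ∈ s, ∀ y ∈ s, dist y x < δ → dist (f n y) (f n x) ≤ η) :
    TendstoUniformlyOn f g l s ∧ ContinuousOn g s := by
  have hg : ∀ η δ, (∀ᶠ n in l, ∀ x ∈ s, ∀ y ∈ s, dist y x < δ → dist (f n y) (f n x) ≤ η) →
      ∀ x ∈ s, ∀ y ∈ s, dist y x < δ → dist (g y) (g x) ≤ η := fun η δ h x hx y hy hd =>
    le_of_tendsto ((hp y hy).dist (hp x hx)) (h.mono fun n hn => hn x hx y hy hd)
  refine ⟨Metric.tendstoUniformlyOn_iff.2 fun η hη => ?_, Metric.continuousOn_iff.2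
    fun x hx η hη => ?_⟩
  · obtain ⟨δ, hδ, h⟩ := he (η / 3) (by positivity)
    obtain ⟨t, hts, ht, hc⟩ := finite_approx_of_totallyBounded hs δ hδ
    filter_upwards [h, (eventually_all_finite ht).2 fun x hx =>
      Metric.tendsto_nhds.1 (hp x (hts hx)) (η / 3) (by positivity)] with n h1 h2 y hy
    obtain ⟨x, hx, hxy⟩ := mem_iUnion₂.1 (hc hy)
    have h3 := hg _ _ h x (hts hx) y hy hxy
    have h4 := h1 x (hts hx) y hy hxy
    have h5 := h2 x hx
    have h6 := dist_triangle4 (g y) (g x) (f n x) (f n y)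
    rw [dist_comm (g x), dist_comm (f n x) (f n y)] at h6
    linarith
  · obtain ⟨δ, hδ, h⟩ := he (η / 2) (by positivity)
    exact ⟨δ, hδ, fun y hy hd => (hg _ _ h x hx y hy hd).trans_lt (half_lt_self hη)⟩

theorem exists_ultralim {ι X Y : Type*} [TopologicalSpace Y] [Nonempty Y] (𝒰 : Ultrafilter ι)
    {f : ι → X → Y} {s : Set X} {K : Set Y} (hK : IsCompact K)
    (h : ∀ x ∈ s, ∀ᶠ n in 𝒰, f n x ∈ K) :
    ∃ g : X → Y, ∀ x ∈ s, Tendsto (fun n => f n x) 𝒰 (𝓝 (g x)) := by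
  choose! g hg using fun x hx => hK.ultrafilter_le_nhds' (𝒰.map fun n => f n x) (h x hx)
  exact ⟨g, fun x hx => (hg x hx).2⟩

variable {E : Type} [NormedAddCommGroup E] [NormedSpace ℝ E] {Λ : Type} [TopologicalSpace Λ]

/-- The field `cpt` from equicontinuity of the derivative and closedness of the equation. -/
theorem cpt_of_equi [FiniteDimensional ℝ E] {At : Λ → (ℂ → E) → ℂ → Prop} {K : Set E}
    (cK : IsCompact K)
    (mem : ∀ {l u z}, At l u z → u z ∈ K) (c1 : ∀ {l u z}, At l u z → ContDiffAt ℝ 1 u z)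
    (eq : ∀ (r L η : ℝ), 0 < r → 0 < η → ∃ δ > 0, ∀ l u x,
      (∀ z ∈ ball x r, At l u z ∧ ‖fderiv ℝ u z‖ ≤ L) →
      ∀ y ∈ ball x δ, ‖fderiv ℝ u y - fderiv ℝ u x‖ ≤ η)
    (cl : ∀ (𝒰 : Ultrafilter ℕ) (lam : ℕ → Λ) (l : Λ) (u : ℕ → ℂ → E) (v : ℂ → E) (x : ℂ),
      Tendsto lam 𝒰 (𝓝 l) → (∀ᶠ n in 𝒰, At (lam n) (u n) x) → ContDiffAt ℝ 1 v x →
      Tendsto (fun n => u n x) 𝒰 (𝓝 (v x)) →
      Tendsto (fun n => fderiv ℝ (u n) x) 𝒰 (𝓝 (fderiv ℝ v x)) → At l v x)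
    (𝒰 : Ultrafilter ℕ) (lam : ℕ → Λ) (l : Λ) (u : ℕ → ℂ → E) (x : ℂ) (r L : ℝ) (hr : 0 < r)
    (hl : Tendsto lam 𝒰 (𝓝 l))
    (h : ∀ᶠ n in 𝒰, ∀ z ∈ ball x r, At (lam n) (u n) z ∧ ‖fderiv ℝ (u n) z‖ ≤ L) :
    ∃ ρ > 0, ∃ v : ℂ → E, (∀ z ∈ ball x ρ, At l v z) ∧ TendstoUniformlyOn u v 𝒰 (ball x ρ) ∧
      TendstoUniformlyOn (fun n => fderiv ℝ (u n)) (fderiv ℝ v) 𝒰 (ball x ρ) := by
  have hs : ball x (r / 2) ⊆ ball x r := ball_subset_ball (by linarith)
  have : ProperSpace (ℂ →L[ℝ] E) := FiniteDimensional.proper_real _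
  obtain ⟨v, hv⟩ := exists_ultralim 𝒰 (f := u) (s := ball x (r / 2)) cK
    fun z hz => h.mono fun n hn => mem (hn z (hs hz)).1
  obtain ⟨D, hD⟩ := exists_ultralim 𝒰 (f := fun n => fderiv ℝ (u n)) (s := ball x (r / 2))
    (isCompact_closedBall 0 L) fun z hz => h.mono fun n hn =>
      mem_closedBall_zero_iff.2 (hn z (hs hz)).2
  have htb : TotallyBounded (ball x (r / 2)) :=
    (isCompact_closedBall x (r / 2)).totallyBounded.subset ball_subset_closedBall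
  obtain ⟨h1, -⟩ := unif_of_equi htb hv fun η hη => ⟨η / (|L| + 1), by positivity,
    h.mono fun n hn y hy z hz hd => by
      rw [dist_eq_norm] at hd ⊢
      refine ((convex_ball x r).norm_image_sub_le_of_norm_fderiv_le (𝕜 := ℝ)
        (fun w hw => (c1 (hn w hw).1).differentiableAt one_ne_zero)
        (fun w hw => (hn w hw).2.trans ((le_abs_self L).trans (le_add_of_nonneg_right zero_le_one)))
        (hs hy) (hs hz)).trans ?_
      exact ((lt_div_iff₀' (by positivity)).1 hd).le⟩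
  obtain ⟨h2, h3⟩ := unif_of_equi htb hD fun η hη => by
    obtain ⟨δ, hδ, H⟩ := eq (r / 2) L η (half_pos hr) hη
    refine ⟨δ, hδ, h.mono fun n hn y hy z _ hd => ?_⟩
    rw [dist_eq_norm]
    exact H _ _ y (fun w hw => hn w (ball_subset_ball' (by
      linarith [mem_ball.1 hy]) hw)) z hd
  have h4 : ∀ z ∈ ball x (r / 2), HasFDerivAt v (D z) z := fun z hz =>
    hasFDerivAt_of_tendstoUniformlyOnFilter (l := 𝒰) (f := u) (f' := fun n => fderiv ℝ (u n))
      (h2.tendstoUniformlyOnFilter.mono_right (le_principal_iff.2 (isOpen_ball.mem_nhds hz)))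
      ((h.prod_mk (isOpen_ball.eventually_mem hz)).mono fun p hp =>
        ((c1 (hp.1 _ (hs hp.2)).1).differentiableAt one_ne_zero).hasFDerivAt)
      ((isOpen_ball.eventually_mem hz).mono hv)
  refine ⟨r / 2, half_pos hr, v, fun z hz => cl 𝒰 lam l u v z hl (h.mono fun n hn =>
    (hn z (hs hz)).1) (contDiffAt_one_iff.2 ⟨D, _, isOpen_ball.mem_nhds hz, h3, h4⟩) (hv z hz)
    ((h4 z hz).fderiv ▸ hD z hz), h1, h2.congr_right fun z hz => (h4 z hz).fderiv.symm⟩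

end Pool.Agent.Lib.MP_1c0d65_gt.C
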