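import Mathlib

/-! Gromov compactness in genus zero, abstract form: the local analytic input (`Fam`) and the
output (`Res`). All limits are taken along an ultrafilter on `ℕ` that is finer than `atTop`. -/

set_option autoImplicit false

namespace Pool.Agent.Lib.MP_1c0d65_gt.C

open MeasureTheory Filter Metric Set Topology
open scoped ENNReal

variable {E : Type} [NormedAddCommGroup E] [NormedSpace ℝ E]

/-- The energy measure of a map. -/
noncomputable def em (u : ℂ → E) : Measure ℂ := volume.withDensity fun z => ‖fderiv ℝ u z‖ₑ ^ 2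

/-- The affine map `y ↦ x + δ y`. -/
noncomputable def aff (x : ℂ) (δ : ℝ) (y : ℂ) : ℂ := x + δ • y

/-- The local analytic facts on a family of first order equations, `At l u z` meaning that `u`
solves the equation with parameter `l` at `z`. -/
structure Fam (Λ E : Type) [TopologicalSpace Λ] [NormedAddCommGroup E] [NormedSpace ℝ E] where
  At : Λ → (ℂ → E) → ℂ → Prop
  K : Set E
  cK : IsCompact K
  hb : ℝ
  hb_pos : 0 < hb
  mem : ∀ {l u z}, At l u z → u z ∈ K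
  c1 : ∀ {l u z}, At l u z → ContDiffAt ℝ 1 u z
  congr : ∀ {l u v z}, At l u z → u =ᶠ[𝓝 z] v → At l v z
  aff : ∀ {l u x δ y}, 0 < δ → At l u (aff x δ y) → At l (u ∘ aff x δ) y
  mv : ∃ C : ℝ, ∀ l u x r, 0 < r → (∀ z ∈ ball x r, At l u z) →
    em u (ball x r) ≤ ENNReal.ofReal hb → r * ‖fderiv ℝ u x‖ ≤ C
  cpt : ∀ (𝒰 : Ultrafilter ℕ) (lam : ℕ → Λ) (l : Λ) (u : ℕ → ℂ → E) (x : ℂ) (r L : ℝ), 0 < r →
    Tendsto lam 𝒰 (𝓝 l) →
    (∀ᶠ n in 𝒰, ∀ z ∈ ball x r, At (lam n) (u n) z ∧ ‖fderiv ℝ (u n) z‖ ≤ L) →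
    ∃ ρ > 0, ∃ v : ℂ → E, (∀ z ∈ ball x ρ, At l v z) ∧ TendstoUniformlyOn u v 𝒰 (ball x ρ) ∧
      TendstoUniformlyOn (fun n => fderiv ℝ (u n)) (fderiv ℝ v) 𝒰 (ball x ρ)
  ann : ∀ η > 0, ∃ T ≥ (1 : ℝ), ∀ l u x a b, 0 < a → (∀ z ∈ ball x b \ closedBall x a, At l u z) →
    em u (ball x b \ closedBall x a) ≤ ENNReal.ofReal hb →
    em u (closedBall x (b / T) \ ball x (T * a)) ≤ ENNReal.ofReal η ∧
      ∀ y ∈ closedBall x (b / T) \ ball x (T * a), ∀ y' ∈ closedBall x (b / T) \ ball x (T * a),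
        dist (u y) (u y') ≤ η
  rem : ∀ l u x r, 0 < r → (∀ z ∈ ball x r \ {x}, At l u z) → em u (ball x r) ≠ ⊤ →
    ∃ p, At l (Function.update u x p) x

/-- Densities: continuous functions of the one-jet that are homogeneous of degree two. -/
structure Dens (K : Set E) (g : E → (ℂ →L[ℝ] E) → ℝ) : Prop where
  cont : Continuous fun p : E × (ℂ →L[ℝ] E) => g p.1 p.2
  hom : ∀ e A (t : ℝ), 0 < t → g e (t • A) = t ^ 2 * g e A
  bd : ∃ C : ℝ, 0 ≤ C ∧ ∀ e ∈ K, ∀ A, |g e A| ≤ C * ‖A‖ ^ 2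

/-- The density along a map. -/
noncomputable def den (g : E → (ℂ →L[ℝ] E) → ℝ) (u : ℂ → E) (z : ℂ) : ℝ := g (u z) (fderiv ℝ u z)

variable {Λ : Type} [TopologicalSpace Λ]

/-- The finite family `v` of entire solutions is the limit of the maps `u n` on the sets `D n`. -/
structure Lim (F : Fam Λ E) (𝒰 : Filter ℕ) (l : Λ) (u : ℕ → ℂ → E) (D : ℕ → Set ℂ) {ι : Type}
    [Fintype ι] (v : ι → ℂ → E) : Prop where
  sol : ∀ a z, F.At l (v a) z
  fin : ∀ a, em (v a) univ ≠ ⊤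
  int : ∀ g, Dens F.K g →
    Tendsto (fun n => ∫ z in D n, den g (u n) z) 𝒰 (𝓝 (∑ a, ∫ z, den g (v a) z))
  near : ∀ η > 0, ∀ᶠ n in 𝒰, ∀ z ∈ D n, ∃ a y, dist (u n z) (v a y) < η
  hit : ∀ a y, ∀ η > 0, ∀ᶠ n in 𝒰, ∃ z ∈ D n, dist (u n z) (v a y) < η

/-- There is a limit family. -/
def Res (F : Fam Λ E) (𝒰 : Filter ℕ) (l : Λ) (u : ℕ → ℂ → E) (D : ℕ → Set ℂ) : Prop :=
  ∃ (ι : Type) (_ : Fintype ι) (v : ι → ℂ → E), Lim F 𝒰 l u D v

end Pool.Agent.Lib.MP_1c0d65_gt.C
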