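import Pool.Agent.Lib.MP_1c0d65_gt.Df.Tg
import Pool.Agent.Lib.MP_1c0d65_gt.A.Fr

/-! Frames for a target with local holomorphic coordinates. -/

set_option autoImplicit false

open scoped ContDiff Topology
open Set Filter Metric
open Complex (I)

namespace Pool.Agent.Lib.MP_1c0d65_gt

open A

/-- The complexification of a finite dimensional real space. -/
abbrev Cx (F : Type) [NormedAddCommGroup F] [NormedSpace ℝ F] : Type :=
  Fin (Module.finrank ℝ F) → ℂ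

/-- The inclusion into the complexification. -/
noncomputable def cx (F : Type) [NormedAddCommGroup F] [NormedSpace ℝ F] [FiniteDimensional ℝ F] :
    F →L[ℝ] Cx F :=
  ContinuousLinearMap.pi fun i => Complex.ofRealCLM.comp
    (LinearMap.toContinuousLinearMap ((Module.finBasis ℝ F).coord i))

variable {V F : Type} [NormedAddCommGroup V] [NormedSpace ℝ V] [FiniteDimensional ℝ V]
  [NormedAddCommGroup F] [NormedSpace ℝ F] [FiniteDimensional ℝ F]

theorem cx_sub_eq_zero {a b : F} (h : cx F a - I • cx F b = 0) : a = 0 :=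
  (Module.finBasis ℝ F).ext_elem fun i => by
    simpa [cx] using congrArg Complex.re (congrFun h i)

theorem A.Fr.mono_C {E G : Type*} [NormedAddCommGroup E] [NormedSpace ℝ E] [NormedAddCommGroup G]
    [NormedSpace ℂ G] {C C' : ℝ} {U : Set E} {Ψ : E → E →L[ℝ] G} (h : Fr C U Ψ) (hC : C ≤ C') :
    Fr C' U Ψ :=
  ⟨h.smooth, fun e he => (h.le e he).trans hC,
    fun e he v => (h.ge e he v).trans (mul_le_mul_of_nonneg_right hC (norm_nonneg _)),
    fun e he e' he' => (h.lip e he e' he').trans (mul_le_mul_of_nonneg_right hC (norm_nonneg _))⟩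

/-- A smooth frame that is injective at a point has bounds near the point. -/
theorem exists_fr {G : Type*} [NormedAddCommGroup G] [NormedSpace ℂ G] {Ψ : V → V →L[ℝ] G}
    {O : Set V} (hO : IsOpen O) (hΨ : ContDiffOn ℝ ∞ Ψ O) {e : V} (he : e ∈ O)
    (hi : ∀ v, Ψ e v = 0 → v = 0) : ∃ C ρ, 0 < ρ ∧ ball e ρ ⊆ O ∧ Fr C (ball e ρ) Ψ := by
  have h1 := hΨ.contDiffAt (hO.mem_nhds he)
  obtain ⟨L, t, ht, hL⟩ := (h1.of_le (m := 1) (by exact_mod_cast le_top)).exists_lipschitzOnWith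
  obtain ⟨K, hK0, hK⟩ := LinearMap.exists_antilipschitzWith (Ψ e).toLinearMap
    (LinearMap.ker_eq_bot'.2 hi)
  have hK0' : (0 : ℝ) < K := hK0
  obtain ⟨ρ, hρ, hb⟩ := Metric.eventually_nhds_iff_ball.1 (((hO.eventually_mem he).and ht).and
    (Metric.tendsto_nhds.1 h1.continuousAt (1 / (2 * K)) (by positivity)))
  refine ⟨max (‖Ψ e‖ + 1 / (2 * K)) (max (2 * K) L), ρ, hρ, fun y hy => (hb y hy).1.1,
    hΨ.mono fun y hy => (hb y hy).1.1, fun y hy => le_trans ?_ (le_max_left _ _), fun y hy v =>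
    le_trans ?_ (mul_le_mul_of_nonneg_right ((le_max_left _ _).trans (le_max_right _ _))
      (norm_nonneg _)), fun y hy y' hy' => le_trans ?_ (mul_le_mul_of_nonneg_right
        ((le_max_right _ _).trans (le_max_right _ _)) (norm_nonneg _))⟩
  · have := (hb y hy).2
    rw [dist_eq_norm] at this
    linarith [norm_sub_norm_le (Ψ y) (Ψ e)]
  · have h2 := (hb y hy).2
    rw [dist_eq_norm, lt_div_iff₀ (by positivity)] at h2
    have h3 : ‖v‖ ≤ K * ‖Ψ e v‖ := by simpa using hK.le_mul_dist v 0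
    have h4 : ‖Ψ y v - Ψ e v‖ ≤ ‖Ψ y - Ψ e‖ * ‖v‖ := (Ψ y - Ψ e).le_opNorm v
    have h5 := norm_sub_norm_le (Ψ e v) (Ψ y v)
    rw [norm_sub_rev] at h5
    nlinarith [mul_le_mul_of_nonneg_right h2.le (norm_nonneg v)]
  · simpa [dist_eq_norm] using hL.dist_le_mul y (hb y hy).1.2 y' (hb y' hy').1.2

namespace Tg

variable (T : Tg V F)

/-- The frame of the chart `k`. -/
noncomputable def fr (k : T.ι) (e : V) : V →L[ℝ] Cx F × Cx V :=
  ((cx F - I • (cx F).comp (T.J k (T.g k e))).comp (fderiv ℝ (T.g k) e)).prod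
    ((cx V).comp (ContinuousLinearMap.id ℝ V - fderiv ℝ (T.h k ∘ T.g k) e))

omit [FiniteDimensional ℝ V] [FiniteDimensional ℝ F] in
theorem g_at {k : T.ι} {e : V} (he : e ∈ T.O k) : ContDiffAt ℝ ∞ (T.g k) e :=
  (T.smg k).contDiffAt ((T.opO k).mem_nhds he)

omit [FiniteDimensional ℝ V] [FiniteDimensional ℝ F] in
theorem h_at {k : T.ι} {e : V} (he : e ∈ T.O k) : ContDiffAt ℝ ∞ (T.h k) (T.g k e) :=
  (T.smh k).contDiffAt ((T.opW k).mem_nhds (T.maps k e he))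

omit [FiniteDimensional ℝ V] [FiniteDimensional ℝ F] in
theorem J_at {k : T.ι} {e : V} (he : e ∈ T.O k) : ContDiffAt ℝ ∞ (T.J k) (T.g k e) :=
  (T.smJ k).contDiffAt ((T.opW k).mem_nhds (T.maps k e he))

theorem fr_smooth (k : T.ι) : ContDiffOn ℝ ∞ (T.fr k) (T.O k) := by
  refine contDiffOn_clm_apply.2 fun v e he => ?_
  have h1 := T.g_at he
  have h2 := ((T.h_at he).comp e h1).fderiv_right (m := ∞) le_rfl
  have h3 := (T.J_at he).comp e h1
  have h4 : ContDiffAt ℝ ∞ (fun e => ((cx F - I • (cx F).comp (T.J k (T.g k e))).comp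
      (fderiv ℝ (T.g k) e))) e :=
    (contDiffAt_const.sub ((contDiffAt_const.clm_comp h3).const_smul I)).clm_comp
      (h1.fderiv_right (m := ∞) le_rfl)
  have h5 : ContDiffAt ℝ ∞ (fun e => (cx V).comp (ContinuousLinearMap.id ℝ V -
      fderiv ℝ (T.h k ∘ T.g k) e)) e := contDiffAt_const.clm_comp (contDiffAt_const.sub h2)
  exact ((h4.clm_apply contDiffAt_const).prodMk (h5.clm_apply contDiffAt_const)).contDiffWithinAt

theorem fr_inj {k : T.ι} {e : V} (he : e ∈ T.O k) (v : V) (h : T.fr k e v = 0) : v = 0 := by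
  have h1 : fderiv ℝ (T.g k) e v = 0 := cx_sub_eq_zero (congrArg Prod.fst h)
  have h2 : v - fderiv ℝ (T.h k ∘ T.g k) e v = 0 := cx_sub_eq_zero (b := 0) (by
    simpa [fr] using congrArg Prod.snd h)
  rwa [fderiv_comp e ((T.h_at he).differentiableAt (by simp))
    ((T.g_at he).differentiableAt (by simp)), ContinuousLinearMap.comp_apply, h1, map_zero,
    sub_zero] at h2

/-- The equation on one-jets. -/
def Q (e : V) (A : ℂ →L[ℝ] V) : Prop := e ∈ T.K ∧ ∀ k, e ∈ T.O k →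
  fderiv ℝ (T.g k) e (A I) = T.J k (T.g k e) (fderiv ℝ (T.g k) e (A 1))

omit [FiniteDimensional ℝ V] [FiniteDimensional ℝ F] in
theorem hol_iff {w : ℂ → V} {z : ℂ} :
    T.Hol w z ↔ ContDiffAt ℝ 1 w z ∧ T.Q (w z) (fderiv ℝ w z) := by
  have e : ContDiffAt ℝ 1 w z → ∀ k, w z ∈ T.O k → (CR (T.J k) (T.g k ∘ w) z ↔
      fderiv ℝ (T.g k) (w z) (fderiv ℝ w z I) =
        T.J k (T.g k (w z)) (fderiv ℝ (T.g k) (w z) (fderiv ℝ w z 1))) := fun h k hk => by
    rw [CR, fderiv_comp z ((T.g_at hk).differentiableAt (by simp))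
      (h.differentiableAt one_ne_zero)]
    rfl
  exact ⟨fun h => ⟨h.2.1, h.1, fun k hk => (e h.2.1 k hk).1 (h.2.2 k hk)⟩,
    fun h => ⟨h.2.1, h.1, fun k hk => (e h.1 k hk).2 (h.2.2 k hk)⟩⟩

omit [FiniteDimensional ℝ V] [FiniteDimensional ℝ F] in
/-- The equation is closed. -/
theorem Q_of_tendsto {ι : Type*} {l : Filter ι} [l.NeBot] {e : ι → V} {A : ι → ℂ →L[ℝ] V} {e₀ : V}
    {A₀ : ℂ →L[ℝ] V} (h : ∀ᶠ i in l, T.Q (e i) (A i)) (he : Tendsto e l (𝓝 e₀))
    (hA : Tendsto A l (𝓝 A₀)) : T.Q e₀ A₀ := by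
  refine ⟨T.cpt.isClosed.mem_of_tendsto he (h.mono fun _ h => h.1), fun k hk => ?_⟩
  have h1 := ((T.g_at hk).fderiv_right (m := 0) (by simp)).continuousAt
  have h2 := (T.J_at hk).continuousAt.comp (T.g_at hk).continuousAt
  have h3 : ∀ ξ : ℂ, ContinuousAt (fun p : V × (ℂ →L[ℝ] V) => fderiv ℝ (T.g k) p.1 (p.2 ξ))
      (e₀, A₀) := fun ξ =>
    (h1.comp_of_eq continuousAt_fst rfl).clm_apply (continuousAt_snd.clm_apply continuousAt_const)
  refine tendsto_nhds_unique_of_eventuallyEq ((h3 I).tendsto.comp (he.prodMk_nhds hA))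
    (((h2.comp_of_eq continuousAt_fst rfl).clm_apply (h3 1)).tendsto.comp (he.prodMk_nhds hA)) ?_
  filter_upwards [h, he.eventually ((T.opO k).eventually_mem hk)] with i h4 h5
  exact h4.2 k h5

theorem holAt {w : ℂ → V} {z : ℂ} (h : ∀ᶠ y in 𝓝 z, T.Hol w y) {k : T.ι} (hk : w z ∈ T.O k) :
    HolAt (T.fr k) w z := by
  obtain ⟨h1, -, h2⟩ := T.hol_iff.1 h.self_of_nhds
  have h3 : (T.h k ∘ T.g k) ∘ w =ᶠ[𝓝 z] w := by
    filter_upwards [h, h1.continuousAt.eventually ((T.opO k).eventually_mem hk)] with y h4 h5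
    exact T.inv k _ h5 h4.1
  have h4 := h3.fderiv_eq (𝕜 := ℝ)
  rw [fderiv_comp z (((T.h_at hk).comp _ (T.g_at hk)).differentiableAt (by simp))
    (h1.differentiableAt one_ne_zero)] at h4
  have h5 : ∀ ξ, fderiv ℝ (T.h k ∘ T.g k) (w z) (fderiv ℝ w z ξ) = fderiv ℝ w z ξ :=
    fun ξ => congrArg (fun L : ℂ →L[ℝ] V => L ξ) h4
  refine Prod.ext ?_ (by simp [fr, h5])
  simp only [fr, ContinuousLinearMap.prod_apply, ContinuousLinearMap.comp_apply, sub_apply,
    smul_apply, Prod.smul_fst, h2 k hk, T.sq k _ (T.maps k _ hk), map_neg, smul_sub, smul_smul,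
    Complex.I_mul_I]
  module

/-- Uniform frames. -/
theorem exists_unif : ∃ C δ, 0 < δ ∧ ∀ e ∈ T.K, ∃ k, ball e δ ⊆ T.O k ∧ Fr C (ball e δ) (T.fr k) := by
  refine T.cpt.induction_on
    (p := fun S => ∃ C δ, 0 < δ ∧ ∀ e ∈ S, ∃ k, ball e δ ⊆ T.O k ∧ Fr C (ball e δ) (T.fr k))
    ⟨0, 1, one_pos, by simp⟩ (fun s t hst ⟨C, δ, h0, h⟩ => ⟨C, δ, h0, fun e he => h e (hst he)⟩)
    (fun s t ⟨C, δ, h0, h⟩ ⟨C', δ', h0', h'⟩ => ⟨max C C', min δ δ', lt_min h0 h0', ?_⟩)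
    fun e he => ?_
  · rintro e (he | he)
    · obtain ⟨k, h1, h2⟩ := h e he
      exact ⟨k, (ball_subset_ball (min_le_left _ _)).trans h1,
        (h2.mono (ball_subset_ball (min_le_left _ _))).mono_C (le_max_left _ _)⟩
    · obtain ⟨k, h1, h2⟩ := h' e he
      exact ⟨k, (ball_subset_ball (min_le_right _ _)).trans h1,
        (h2.mono (ball_subset_ball (min_le_right _ _))).mono_C (le_max_right _ _)⟩
  · obtain ⟨k, hk⟩ := T.cov e he
    obtain ⟨C, ρ, hρ, h1, h2⟩ := exists_fr (T.opO k) (T.fr_smooth k) hk (T.fr_inj hk)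
    refine ⟨ball e (ρ / 2), nhdsWithin_le_nhds (ball_mem_nhds e (half_pos hρ)), C, ρ / 2,
      half_pos hρ, fun y hy => ?_⟩
    have : ball y (ρ / 2) ⊆ ball e ρ := ball_subset_ball' (by linarith [mem_ball.1 hy])
    exact ⟨k, this.trans h1, h2.mono this⟩

theorem exists_locHol : ∃ C δ, 0 < δ ∧ ∀ (O : Set ℂ) (w : ℂ → V), IsOpen O → (∀ z ∈ O, T.Hol w z) →
    LocHol (Cx F × Cx V) C δ O w := by
  obtain ⟨C, δ, h0, h⟩ := T.exists_unif
  refine ⟨C, δ, h0, fun O w hO hw => ⟨fun z hz => (hw z hz).2.1, fun z hz => ?_⟩⟩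
  obtain ⟨k, h1, h2⟩ := h _ (hw z hz).1
  exact ⟨_, h2, fun y hy hb => T.holAt ((hO.eventually_mem hy).mono hw) (h1 hb)⟩

end Tg

end Pool.Agent.Lib.MP_1c0d65_gt
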