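import Pool.Agent.Lib.MP_1c0d65_gt.C.Step

/-! Gromov compactness for spheres, abstract form. -/

set_option autoImplicit false

namespace Pool.Agent.Lib.MP_1c0d65_gt.C

open MeasureTheory Filter Metric Set Topology
open scoped ENNReal

variable {E : Type} [NormedAddCommGroup E] [NormedSpace ℝ E] {Λ : Type} [TopologicalSpace Λ]
  {F : Fam Λ E} {lam : ℕ → Λ} {l : Λ} {u : ℕ → ℂ → E}

/-- An entire solution of small energy is constant. -/
theorem Fam.quantum (F : Fam Λ E) {v : ℂ → E} (hv : ∀ z, F.At l v z)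
    (h : em v univ ≤ ENNReal.ofReal F.hb) (z : ℂ) : v z = v 0 := by
  obtain ⟨C, hC⟩ := F.mv
  refine is_const_of_fderiv_eq_zero (𝕜 := ℝ)
    (fun x => (F.c1 (hv x)).differentiableAt one_ne_zero) (fun x => ?_) z 0
  by_contra e
  have p := norm_pos_iff.2 e
  have := hC l v x ((|C| + 1) / ‖fderiv ℝ v x‖) (by positivity) (fun z _ => hv z)
    ((measure_mono (subset_univ _)).trans h)
  rw [div_mul_cancel₀ _ p.ne'] at this
  linarith [le_abs_self C]

theorem Dens.energy (K : Set E) : Dens K fun _ A => ‖A‖ ^ 2 :=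
  ⟨by fun_prop, fun _ A t ht => by rw [norm_smul, mul_pow, Real.norm_of_nonneg ht.le],
    1, zero_le_one, fun _ _ A => by rw [abs_of_nonneg (sq_nonneg _), one_mul]⟩

theorem int_energy {v : ℂ → E} (hv : ∀ z, ContDiffAt ℝ 1 v z) (S : Set ℂ) :
    ∫ z in S, den (fun _ A => ‖A‖ ^ 2) v z = (em v S).toReal := by
  simp only [den]
  rw [em_apply, integral_eq_lintegral_of_nonneg_ae (Eventually.of_forall fun _ => sq_nonneg _)
    ((continuous_iff_continuousAt.2 fun z => (hv z).continuousAt_fderiv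
      one_ne_zero).norm.fun_pow 2).aestronglyMeasurable]
  simp only [ENNReal.ofReal_pow (norm_nonneg _), ofReal_norm]

theorem den_const {K : Set E} {g : E → (ℂ →L[ℝ] E) → ℝ} (hg : Dens K g) {v : ℂ → E}
    (h : ∀ z, v z = v 0) (z : ℂ) : den g v z = 0 := by
  have e : fderiv ℝ v z = 0 := by rw [show v = fun _ => v 0 from funext h]; simp
  have := hg.hom (v z) 0 2 two_pos
  rw [smul_zero] at this
  rw [den, e]; linarith

theorem exists_tail {v : ℂ → E} (hf : em v univ ≠ ⊤) {p : E} (hp : Tendsto v (cocompact ℂ) (𝓝 p))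
    {η : ℝ} (hη : 0 < η) : ∃ R > 0, Sm v (ball 0 R)ᶜ η := by
  obtain ⟨k, hk⟩ := ((tendsto_em_compl hf ∅).eventually_le_const (ENNReal.ofReal_pos.2 hη)).exists
  obtain ⟨s, hs, h⟩ := mem_cocompact.1 (Metric.tendsto_nhds.1 hp _ (half_pos hη))
  obtain ⟨R, hR, hb⟩ := (hs.union (isCompact_Sk ∅ k)).isBounded.subset_ball_lt 0 0
  have e : ∀ y ∈ (ball (0 : ℂ) R)ᶜ, dist (v y) p < η / 2 := fun y hy => h fun a => hy (hb (Or.inl a))
  refine ⟨R, hR, (measure_mono (compl_subset_compl.2 (subset_union_right.trans hb))).trans hk,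
    fun y hy y' hy' => ?_⟩
  linarith [dist_triangle_right (v y) (v y') p, e y hy, e y' hy']

theorem res_sphere {𝒰 : Ultrafilter ℕ} (h𝒰 : (𝒰 : Filter ℕ) ≤ atTop) (hl : Tendsto lam 𝒰 (𝓝 l))
    (hu : ∀ n z, F.At (lam n) (u n) z) {M : ℝ≥0∞} (hM : M ≠ ⊤) (hE : ∀ n, em (u n) univ ≤ M)
    (hc : ∀ n, ENNReal.ofReal F.hb < em (u n) univ)
    (hi : ∀ n, ∃ p, Tendsto (u n) (cocompact ℂ) (𝓝 p)) : Res F 𝒰 l u fun _ => univ := by
  choose p hp using hi
  choose R hR hS using fun n => exists_tail (ne_top_of_le_ne_top hM (hE n)) (hp n) (ep_pos n)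
  have hδ : ∀ n, 0 < R n / ep n := fun n => div_pos (hR n) (ep_pos n)
  have he : ∀ n, em (u n ∘ aff 0 (R n / ep n)) univ = em (u n) univ := fun n =>
    em_aff (u n) 0 (hδ n) univ
  obtain ⟨k, hk⟩ := ENNReal.exists_nat_mul_gt F.q_ne hM
  refine Res.of_aff (x := fun _ => 0) (Eventually.of_forall hδ) (Eventually.of_forall fun _ => rfl)
    (Conc.res h𝒰 hl k ⟨fun _ => .univ, fun _ => subset_univ _,
      Eventually.of_forall fun n z _ => F.aff (hδ n) (hu n _),
      Eventually.of_forall fun n => (hc n).trans_eq (he n).symm, fun ρ hρ η hη => ?_⟩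
      (Eventually.of_forall fun n => (he n).trans_le ((hE n).trans hk.le)))
  filter_upwards [(tendsto_ep.mono_left h𝒰).eventually_le_const hρ,
    (tendsto_ep.mono_left h𝒰).eventually_le_const hη] with n a b
  have h := ((hS n).aff 0 (hδ n)).mono (S' := univ \ ball 0 ρ) fun y hy e => hy.2 (by
    rw [← pre_ball0 0 (hδ n)]
    refine ball_subset_ball ?_ e
    rw [div_mul_eq_mul_div, le_div_iff₀ (ep_pos n)]
    exact mul_le_mul_of_nonneg_left a (hR n).le)
  exact ⟨h.1.trans (ENNReal.ofReal_le_ofReal b), fun y hy y' hy' => (h.2 y hy y' hy').trans b⟩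

section

variable {𝒰 : Filter ℕ} {D : ℕ → Set ℂ} {ι : Type} [Fintype ι] {v : ι → ℂ → E}

theorem Lim.hit' (h : Lim F 𝒰 l u D v) {p : E} (hp : p ∈ ⋃ a, closure (range (v a))) {η : ℝ}
    (hη : 0 < η) : ∀ᶠ n in 𝒰, ∃ z ∈ D n, dist (u n z) p < η := by
  obtain ⟨a, hp⟩ := mem_iUnion.1 hp
  obtain ⟨_, ⟨y, rfl⟩, hy⟩ := Metric.mem_closure_iff.1 hp _ (half_pos hη)
  filter_upwards [h.hit a y _ (half_pos hη)] with n ⟨z, hz, c⟩
  exact ⟨z, hz, by linarith [dist_triangle_right (u n z) p (v a y)]⟩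

theorem Lim.isCompact (h : Lim F 𝒰 l u D v) : IsCompact (⋃ a, closure (range (v a))) :=
  isCompact_iUnion fun a => F.cK.closure_of_subset (range_subset_iff.2 fun z => F.mem (h.sol a z))

/-- A limit of points on the curves lies on the limit. -/
theorem Lim.mem_of_tendsto [𝒰.NeBot] (h : Lim F 𝒰 l u D v) {x : ℕ → E} {p : E}
    (hx : ∀ᶠ n in 𝒰, x n ∈ u n '' D n) (hp : Tendsto x 𝒰 (𝓝 p)) :
    p ∈ ⋃ a, closure (range (v a)) := by
  rw [← h.isCompact.isClosed.closure_eq, Metric.mem_closure_iff]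
  intro η hη
  obtain ⟨n, ⟨z, hz, e⟩, b, c⟩ := (hx.and ((h.near _ (half_pos hη)).and
    (Metric.tendsto_nhds.1 hp _ (half_pos hη)))).exists
  obtain ⟨a, y, hy⟩ := b z hz
  refine ⟨v a y, mem_iUnion.2 ⟨a, subset_closure (mem_range_self y)⟩, ?_⟩
  rw [e] at hy
  linarith [dist_triangle_left p (v a y) (x n)]

/-- The curves lie in every neighbourhood of the limit. -/
theorem Lim.subset_open (h : Lim F 𝒰 l u D v) {O : Set E} (hO : IsOpen O)
    (hs : (⋃ a, closure (range (v a))) ⊆ O) : ∀ᶠ n in 𝒰, closure (u n '' D n) ⊆ O := by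
  obtain ⟨δ, hδ, hd⟩ := h.isCompact.exists_cthickening_subset_open hO hs
  filter_upwards [h.near δ hδ] with n a
  refine (closure_minimal ?_ isClosed_cthickening).trans hd
  rintro _ ⟨z, hz, rfl⟩
  obtain ⟨b, y, hy⟩ := a z hz
  exact mem_cthickening_of_dist_le _ (v b y) _ _
    (mem_iUnion.2 ⟨b, subset_closure (mem_range_self y)⟩) hy.le

theorem Lim.isPreconnected [𝒰.NeBot] (h : Lim F 𝒰 l u D v)
    (hc : ∀ᶠ n in 𝒰, IsPreconnected (u n '' D n)) :
    IsPreconnected (⋃ a, closure (range (v a))) := by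
  set L := ⋃ a, closure (range (v a))
  refine isPreconnected_iff_subset_of_disjoint_closed.2 fun A B hA hB hs hd => ?_
  by_contra hn
  simp only [not_or, not_subset] at hn
  obtain ⟨⟨p, hp, pA⟩, q, hq, qB⟩ := hn
  have hd' : Disjoint (L ∩ A) (L ∩ B) := disjoint_left.2 fun x a b =>
    (hd.subset ⟨a.1, a.2, b.2⟩ :)
  obtain ⟨δ, hδ, ht⟩ := hd'.exists_thickenings (h.isCompact.inter_right hA)
    (h.isCompact.isClosed.inter hB)
  obtain ⟨n, a, b, ⟨z, hz, c⟩, z', hz', d⟩ := (hc.and ((h.subset_open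
    (isOpen_thickening.union isOpen_thickening) fun x hx => (hs hx).imp
      (fun e => self_subset_thickening hδ (L ∩ A) ⟨hx, e⟩)
      fun e => self_subset_thickening hδ (L ∩ B) ⟨hx, e⟩).and
    ((h.hit' hp hδ).and (h.hit' hq hδ)))).exists
  obtain ⟨x, -, hx⟩ := a _ _ isOpen_thickening isOpen_thickening (subset_closure.trans b)
    ⟨_, mem_image_of_mem _ hz', mem_thickening_iff.2 ⟨q, ⟨hq, (hs hq).resolve_right qB⟩, d⟩⟩
    ⟨_, mem_image_of_mem _ hz, mem_thickening_iff.2 ⟨p, ⟨hp, (hs hp).resolve_left pA⟩, c⟩⟩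
  exact disjoint_left.1 ht hx.1 hx.2

/-- The constant members of a connected limit can be dropped. -/
theorem Lim.drop (h : Lim F 𝒰 l u D v) (hc : IsPreconnected (⋃ a, closure (range (v a))))
    (hn : ∃ a z, v a z ≠ v a 0) :
    ∃ (ι' : Type) (_ : Fintype ι') (v' : ι' → ℂ → E), Lim F 𝒰 l u D v' ∧
      (∀ a, ∃ z, v' a z ≠ v' a 0) ∧ IsConnected (⋃ a, closure (range (v' a))) := by
  classical
  set L' := ⋃ a : {a // ∃ z, v a z ≠ v a 0}, closure (range (v a))
  have hL' : L' ⊆ ⋃ a, closure (range (v a)) := iUnion_subset fun a =>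
    subset_iUnion (fun a => closure (range (v a))) a.1
  obtain ⟨a0, h0⟩ := hn
  have hne : v a0 0 ∈ L' := mem_iUnion.2 ⟨⟨a0, h0⟩, subset_closure (mem_range_self 0)⟩
  have hG : (⋃ a, closure (range (v a))) ⊆ L' ∪ range fun a => v a 0 := iUnion_subset fun a => by
    by_cases e : ∃ z, v a z ≠ v a 0
    · exact (subset_iUnion (fun a : {a // ∃ z, v a z ≠ v a 0} => closure (range (v a)))
        ⟨a, e⟩).trans subset_union_left
    · refine (closure_minimal (range_subset_iff.2 fun z => ?_)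
        (finite_range _).isClosed).trans subset_union_right
      exact ⟨a, by_contra fun h => e ⟨z, Ne.symm h⟩⟩
  have hL : (⋃ a, closure (range (v a))) = L' := by
    refine Subset.antisymm ?_ hL'
    refine (isPreconnected_iff_subset_of_disjoint_closed.1 hc L' ((range fun a => v a 0) \ L')
      (isClosed_iUnion_of_finite fun _ => isClosed_closure)
      ((finite_range _).subset sdiff_subset).isClosed (by rwa [union_sdiff_self])
      (by simp)).resolve_right fun e => (e (hL' hne)).2 hne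
  refine ⟨{a // ∃ z, v a z ≠ v a 0}, inferInstance, fun a => v a, ⟨fun a => h.sol a, fun a => h.fin a,
    fun g hg => ?_, fun η hη => ?_, fun a => h.hit a⟩, fun a => a.2, ⟨_, hne⟩, by rwa [hL] at hc⟩
  · convert h.int g hg using 2
    rw [← Finset.sum_subtype (Finset.univ.filter fun a => ∃ z, v a z ≠ v a 0) (by simp)
      fun a => ∫ z, den g (v a) z]
    refine Finset.sum_filter_of_ne fun a _ e => by_contra fun e' => e ?_
    simp [den_const hg fun z => by_contra fun h => e' ⟨z, h⟩]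
  · filter_upwards [h.near _ (half_pos hη)] with n a z hz
    obtain ⟨b, y, hy⟩ := a z hz
    obtain ⟨b', hb⟩ := mem_iUnion.1 (hL.subset
      (mem_iUnion.2 ⟨b, subset_closure (mem_range_self y)⟩))
    obtain ⟨_, ⟨y', rfl⟩, c⟩ := Metric.mem_closure_iff.1 hb _ (half_pos hη)
    exact ⟨b', y', by linarith [dist_triangle (u n z) (v b y) (v b' y')]⟩

end

/-- Gromov compactness. Spheres are entire solutions with a limit at infinity. -/
theorem gromov (F : Fam Λ E) (𝒰 : Ultrafilter ℕ) (h𝒰 : (𝒰 : Filter ℕ) ≤ atTop) {lam : ℕ → Λ} {l : Λ}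
    (hl : Tendsto lam 𝒰 (𝓝 l)) {u : ℕ → ℂ → E} (hu : ∀ n z, F.At (lam n) (u n) z) {M : ℝ≥0∞}
    (hM : M ≠ ⊤) (hE : ∀ n, em (u n) univ ≤ M) (hc : ∀ n, ∃ z, u n z ≠ u n 0)
    (hi : ∀ n, ∃ p, Tendsto (u n) (cocompact ℂ) (𝓝 p)) :
    ∃ (ι : Type) (_ : Fintype ι) (v : ι → ℂ → E), Lim F 𝒰 l u (fun _ => univ) v ∧
      (∀ a, ∃ z, v a z ≠ v a 0) ∧ IsConnected (⋃ a, closure (range (v a))) := by
  have hq : ∀ n, ENNReal.ofReal F.hb < em (u n) univ := fun n => not_le.1 fun e =>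
    (hc n).elim fun z hz => hz (F.quantum (hu n) e z)
  obtain ⟨ι, _, v, h⟩ := res_sphere h𝒰 hl hu hM hE hq hi
  refine h.drop (h.isPreconnected (Eventually.of_forall fun n => isPreconnected_univ.image _
    fun z _ => (F.c1 (hu n z)).continuousAt.continuousWithinAt)) (by_contra fun e => ?_)
  have h1 := h.int _ (Dens.energy F.K)
  have e' : ∀ a z, v a z = v a 0 := fun a z => by_contra fun h => e ⟨a, z, h⟩
  simp only [den_const (Dens.energy F.K) (e' _), integral_zero, Finset.sum_const_zero,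
    int_energy fun z => F.c1 (hu _ z)] at h1
  obtain ⟨n, hn⟩ := (h1.eventually_lt_const F.hb_pos).exists
  exact hn.not_ge ((ENNReal.ofReal_le_iff_le_toReal (ne_top_of_le_ne_top hM (hE n))).1 (hq n).le)

end Pool.Agent.Lib.MP_1c0d65_gt.C
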