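import Pool.Agent.Lib.MP_1c0d65_gt.C.Aff
import Pool.Agent.Lib.MP_1c0d65_gt.Emb.Sph

/-! Two forms are densities; extension of a finite energy solution over infinity. -/

set_option autoImplicit false

namespace Pool.Agent.Lib.MP_1c0d65_gt.C

open MeasureTheory Filter Metric Set Topology
open scoped ENNReal

variable {E : Type} [NormedAddCommGroup E] [NormedSpace ℝ E]

/-- A two form gives a density. -/
theorem Dens.form [FiniteDimensional ℝ E] {K : Set E} (hK : IsCompact K)
    {α : E → E →L[ℝ] E →L[ℝ] ℝ} (hα : Continuous α) :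
    Dens K fun e A => α e (A 1) (A Complex.I) := by
  refine ⟨by fun_prop, fun e A t _ => ?_, ?_⟩
  · simp only [smul_apply, map_smul, smul_eq_mul]
    ring
  · obtain ⟨C, hC⟩ := hK.exists_bound_of_continuousOn (E := E →L[ℝ] E →L[ℝ] ℝ) (f := α)
      hα.continuousOn
    refine ⟨max C 0, le_max_right _ _, fun e he A => ?_⟩
    have h1 : ‖A 1‖ ≤ ‖A‖ := by simpa using A.le_opNorm 1
    have h2 : ‖A Complex.I‖ ≤ ‖A‖ := by simpa using A.le_opNorm Complex.I
    calc |α e (A 1) (A Complex.I)| ≤ ‖α e‖ * ‖A 1‖ * ‖A Complex.I‖ := (α e).le_opNorm₂ _ _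
      _ ≤ max C 0 * ‖A‖ * ‖A‖ := by gcongr; exact (hC e he).trans (le_max_left _ _)
      _ = _ := by ring

theorem norm_dinv_le (z : ℂ) : ‖Emb.dinv z‖ ≤ ‖z‖⁻¹ ^ 2 :=
  ContinuousLinearMap.opNorm_le_bound _ (by positivity) fun v => by
    rw [Emb.dinv_apply, norm_neg, norm_div, norm_pow, inv_pow, div_eq_inv_mul]

/-- The inversion does not increase the energy. -/
theorem em_inv_le {v : ℂ → E} (hv : Differentiable ℝ v) :
    em (fun y => v y⁻¹) univ ≤ em v univ := by
  have h := lintegral_image_eq_lintegral_abs_det_fderiv_mul volume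
    (measurableSet_singleton (0 : ℂ)).compl
    (fun z hz => (Emb.hasFDerivAt_inv hz).hasFDerivWithinAt) inv_injective.injOn
    fun z => ‖fderiv ℝ v z‖ₑ ^ 2
  rw [Emb.inv_image, Emb.restrict_ne] at h
  rw [em_apply, em_apply, Measure.restrict_univ, h]
  refine lintegral_mono_ae ?_
  filter_upwards [compl_mem_ae_iff.2 (measure_singleton (0 : ℂ))] with z hz
  have e : fderiv ℝ (fun y => v y⁻¹) z = (fderiv ℝ v z⁻¹).comp (Emb.dinv z) :=
    ((hv z⁻¹).hasFDerivAt.comp z (Emb.hasFDerivAt_inv hz)).fderiv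
  rw [e, Emb.det_dinv, ← ofReal_norm, ← ofReal_norm,
    ← ENNReal.ofReal_pow (norm_nonneg _), ← ENNReal.ofReal_pow (norm_nonneg _),
    ← ENNReal.ofReal_mul (by positivity)]
  refine ENNReal.ofReal_le_ofReal ?_
  calc ‖(fderiv ℝ v z⁻¹).comp (Emb.dinv z)‖ ^ 2 ≤ (‖fderiv ℝ v z⁻¹‖ * ‖z‖⁻¹ ^ 2) ^ 2 := by
        gcongr
        exact (ContinuousLinearMap.opNorm_comp_le _ _).trans (by gcongr; exact norm_dinv_le z)
    _ = _ := by ring

variable {Λ : Type} [TopologicalSpace Λ]

/-- Extension over infinity. -/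
theorem ext_inf (F : Fam Λ E)
    (hinv : ∀ {l u z}, z ≠ 0 → F.At l u z⁻¹ → F.At l (fun y => u y⁻¹) z)
    {l : Λ} {v : ℂ → E} (hv : ∀ z, F.At l v z) (hf : em v univ ≠ ⊤) :
    ∃ p, ∀ z, F.At l (Function.update (fun y => v y⁻¹) 0 p) z := by
  have hd : Differentiable ℝ v := fun z => (F.c1 (hv z)).differentiableAt one_ne_zero
  obtain ⟨p, hp⟩ := F.rem l (fun y => v y⁻¹) 0 1 one_pos (fun z hz => hinv hz.2 (hv _))
    (ne_top_of_le_ne_top hf ((measure_mono (subset_univ _)).trans (em_inv_le hd)))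
  refine ⟨p, fun z => ?_⟩
  by_cases hz : z = 0
  · exact hz ▸ hp
  · refine F.congr (hinv hz (hv _)) ?_
    filter_upwards [isOpen_ne.mem_nhds hz] with y hy using
      (Function.update_of_ne hy p fun y => v y⁻¹).symm

omit [NormedSpace ℝ E] in
/-- The limit at infinity of a map whose inversion extends. -/
theorem tendsto_inf {v : ℂ → E} {p : E}
    (h : ContinuousAt (Function.update (fun y => v y⁻¹) 0 p) 0) :
    Tendsto v (cocompact ℂ) (𝓝 p) := by
  have h1 := (continuousAt_update_same.1 h).comp tendsto_inv₀_cobounded'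
  rw [← cobounded_eq_cocompact]
  exact h1.congr fun y => by simp

omit [NormedSpace ℝ E] in
/-- The closure of the image is the image together with the limit at infinity. -/
theorem closure_range_eq {v : ℂ → E} {p : E} (hv : Continuous v)
    (h : Tendsto v (cocompact ℂ) (𝓝 p)) : closure (range v) = insert p (range v) := by
  refine subset_antisymm (closure_minimal (subset_insert _ _)
    (h.isCompact_insert_range_of_cocompact hv).isClosed) (insert_subset ?_ subset_closure)
  exact mem_closure_of_tendsto h (Eventually.of_forall fun y => mem_range_self y)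

end Pool.Agent.Lib.MP_1c0d65_gt.C
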