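import Pool.Agent.Lib.MP_1c0d65_gt.Df.Tg
import Pool.Agent.Lib.MP_1c0d65_gt.A.Fr

/-! Local properties of holomorphic curves in a target: frames, isolated preimages,
composition with analytic maps. -/

open scoped ContDiff Topology
open Set Filter Metric
open Complex (I)

namespace Pool.Agent.Lib.MP_1c0d65_gt

/-- A curve that is holomorphic for a frame is locally constant or takes its value once. -/
theorem A.isol {E F : Type*} [NormedAddCommGroup E] [NormedSpace ℝ E] [NormedAddCommGroup F]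
    [NormedSpace ℂ F] [CompleteSpace F] {Ψ : E → E →L[ℝ] F} {u : ℂ → E} {P : F →L[ℝ] E}
    (hΨ : ContDiffAt ℝ 1 Ψ (u 0)) (hP : ∀ e v, P (Ψ e v) = v)
    (hu : ∀ᶠ y in 𝓝 (0 : ℂ), ContDiffAt ℝ 1 u y ∧ A.HolAt Ψ u y) :
    (∀ᶠ y in 𝓝 (0 : ℂ), u y = u 0) ∨ ∀ᶠ y in 𝓝[≠] (0 : ℂ), u y ≠ u 0 := by
  have c1 : ContDiffAt ℝ 1 (fun y => Ψ (u y)) 0 := hΨ.comp 0 hu.self_of_nhds.1
  set K := ‖fderiv ℝ (fun y => Ψ (u y)) 0‖ + 1
  have c2 : ∀ᶠ y in 𝓝 (0 : ℂ), ‖fderiv ℝ (fun y => Ψ (u y)) y‖ ≤ K :=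
    (c1.continuousAt_fderiv one_ne_zero).norm.eventually_le_const (lt_add_one _)
  rcases A.sim (W := fun y => Ψ (u y) (u y - u 0)) (K := 2 * K * ‖P‖)
    (c1.clm_apply (hu.self_of_nhds.1.sub contDiffAt_const)).continuousAt
    (mem_nhdsWithin_of_mem_nhds (by
      filter_upwards [hu, c1.eventually (by simp), c2] with y a1 a2 a3
      refine ⟨a2.clm_apply (a1.1.sub contDiffAt_const), ?_⟩
      have d := ((a2.differentiableAt one_ne_zero).hasFDerivAt.clm_apply
        ((a1.1.differentiableAt one_ne_zero).hasFDerivAt.sub_const (u 0))).fderiv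
      have n : ∀ v : ℂ, ‖v‖ = 1 → ‖fderiv ℝ (fun y => Ψ (u y)) y v (u y - u 0)‖ ≤
          K * (‖P‖ * ‖Ψ (u y) (u y - u 0)‖) := fun v hv =>
        (ContinuousLinearMap.le_opNorm _ _).trans (mul_le_mul
          ((ContinuousLinearMap.le_of_opNorm_le _ a3 v).trans_eq (by rw [hv, mul_one]))
          ((congrArg norm (hP (u y) _)).symm.trans_le (P.le_opNorm _)) (norm_nonneg _)
          (by positivity))
      have e := a1.2
      rw [A.HolAt] at e
      rw [d]
      simp only [add_apply, ContinuousLinearMap.comp_apply,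
        ContinuousLinearMap.flip_apply, e, smul_add, add_sub_add_left_eq_sub]
      refine (norm_sub_le _ _).trans ?_
      rw [norm_smul, Complex.norm_I, one_mul]
      linarith [n I Complex.norm_I, n 1 norm_one])) with h | ⟨l, b, hb, h⟩
  · left
    filter_upwards [eventually_nhdsWithin_iff.1 h] with y hy
    by_cases y0 : y = 0
    · rw [y0]
    · rw [← sub_eq_zero, ← hP (u y) (u y - u 0), hy y0, map_zero]
  · exact Or.inr ((h.eventually_ne hb).mono fun y hy e => hy (by simp [e]))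

variable {V F : Type} [NormedAddCommGroup V] [NormedSpace ℝ V] [FiniteDimensional ℝ V]
  [NormedAddCommGroup F] [NormedSpace ℝ F] [FiniteDimensional ℝ F]

variable (F) in
/-- The complexification in coordinates. -/
theorem exists_cplx : ∃ (n : ℕ) (ι : F →L[ℝ] (Fin n → ℂ)) (P : (Fin n → ℂ) →L[ℝ] F),
    (∀ v, P (ι v) = v) ∧ ∀ v, P (I • ι v) = 0 := by
  let b := (Module.finBasis ℝ F).equivFun.toContinuousLinearEquiv
  refine ⟨Module.finrank ℝ F, ContinuousLinearMap.pi fun i => Complex.ofRealCLM.comp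
    ((ContinuousLinearMap.proj i).comp b.toContinuousLinearMap), b.symm.toContinuousLinearMap.comp
    (ContinuousLinearMap.pi fun i => Complex.reCLM.comp (ContinuousLinearMap.proj i)),
    fun v => b.injective ?_, fun v => b.injective ?_⟩
  · ext i; simp
  · ext i; simp

omit [FiniteDimensional ℝ V] in
/-- A chart with a frame. -/
theorem Tg.chart (T : Tg V F) {w : ℂ → V} {z : ℂ} (h : ∀ᶠ y in 𝓝 z, T.Hol w y) :
    ∃ (n : ℕ) (Ψ : F → F →L[ℝ] (Fin n → ℂ)) (P : (Fin n → ℂ) →L[ℝ] F) (G : V → F) (H : F → V),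
      ContDiffAt ℝ ∞ Ψ (G (w z)) ∧ (∀ e v, P (Ψ e v) = v) ∧ ContDiffAt ℝ ∞ H (G (w z)) ∧
      ∀ᶠ y in 𝓝 z, ContDiffAt ℝ 1 (G ∘ w) y ∧ A.HolAt Ψ (G ∘ w) y ∧ H (G (w y)) = w y := by
  obtain ⟨n, ι, P, h1, h2⟩ := exists_cplx F
  obtain ⟨k, hk⟩ := T.cov _ h.self_of_nhds.1
  have hW := (T.opW k).mem_nhds (T.maps k _ hk)
  refine ⟨n, fun e => ι - I • ι.comp (T.J k e), P, T.g k, T.h k, contDiffAt_const.sub
    ((contDiffAt_const.clm_comp ((T.smJ k).contDiffAt hW)).const_smul I), fun e v => by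
      simp [h1, h2], (T.smh k).contDiffAt hW, ?_⟩
  filter_upwards [h, h.self_of_nhds.2.1.continuousAt.eventually ((T.opO k).mem_nhds hk)]
    with y a1 a2
  refine ⟨(((T.smg k).contDiffAt ((T.opO k).mem_nhds a2)).of_le (by simp)).comp y a1.2.1, ?_,
    T.inv k _ a2 a1.1⟩
  have e := a1.2.2 k a2
  rw [CR] at e
  rw [A.HolAt, e]
  simp [T.sq k _ (T.maps k _ a2), smul_sub, smul_smul, add_comm]

set_option linter.unusedSectionVars false

theorem Tg.comp (T : Tg V F) {w : ℂ → V} {φ : ℂ → ℂ} {z : ℂ} (hφ : AnalyticAt ℂ φ z)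
    (h : T.Hol w (φ z)) : T.Hol (w ∘ φ) z := by
  refine ⟨h.1, h.2.1.comp z (hφ.contDiffAt.restrict_scalars ℝ), fun k hk => ?_⟩
  have e := h.2.2 k hk
  have d := ((((T.smg k).contDiffAt ((T.opO k).mem_nhds hk)).differentiableAt (by simp)).comp (φ z)
    (h.2.1.differentiableAt one_ne_zero)).hasFDerivAt.comp z
    (hφ.differentiableAt.hasDerivAt.hasFDerivAt.restrictScalars ℝ)
  have l : ∀ c : ℂ, fderiv ℝ (T.g k ∘ w) (φ z) c = c.re • fderiv ℝ (T.g k ∘ w) (φ z) 1 +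
      c.im • fderiv ℝ (T.g k ∘ w) (φ z) I := fun c => by
    rw [← map_smul, ← map_smul, ← map_add]
    congr 1
    apply Complex.ext <;> simp
  rw [CR] at e ⊢
  rw [show T.g k ∘ w ∘ φ = (T.g k ∘ w) ∘ φ from rfl, d.fderiv, ContinuousLinearMap.comp_apply,
    ContinuousLinearMap.comp_apply, l, l (ContinuousLinearMap.restrictScalars _ _ _), e]
  simp [T.sq k _ (T.maps k (w (φ z)) hk), add_comm]

theorem Tg.isolated (T : Tg V F) {w : ℂ → V} {z : ℂ} (h : ∀ᶠ y in 𝓝 z, T.Hol w y) :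
    (∀ᶠ y in 𝓝 z, w y = w z) ∨ ∀ᶠ y in 𝓝[≠] z, w y ≠ w z := by
  wlog z0 : z = 0 generalizing w z
  · have t : Tendsto (fun y => z + y) (𝓝 0) (𝓝 z) := (continuous_const_add z).tendsto' _ _ (by simp)
    have t' : Tendsto (fun y => y - z) (𝓝 z) (𝓝 0) := (continuous_sub_right z).tendsto' _ _ (by simp)
    rcases this (w := w ∘ fun y => z + y) ((t.eventually h).mono fun y hy =>
      T.comp (by fun_prop) hy) rfl with h1 | h1
    · exact Or.inl ((t'.eventually h1).mono fun y hy => by simpa using hy)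
    · refine Or.inr (eventually_nhdsWithin_iff.2 ((t'.eventually
        (eventually_nhdsWithin_iff.1 h1)).mono fun y hy hz => ?_))
      simpa using hy (sub_ne_zero.2 hz)
  subst z0
  obtain ⟨n, Ψ, P, G, H, h1, h2, -, h4⟩ := T.chart h
  rcases A.isol (u := G ∘ w) (h1.of_le (by simp)) h2 (h4.mono fun y hy => ⟨hy.1, hy.2.1⟩)
    with h5 | h5
  · left
    filter_upwards [h4, h5] with y a b
    rw [← a.2.2, ← h4.self_of_nhds.2.2]
    exact congrArg H b
  · exact Or.inr (h5.mono fun y hy e => hy (congrArg G e))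

end Pool.Agent.Lib.MP_1c0d65_gt
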