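import Pool.Agent.Lib.MP_1c0d65_gt.C.ThinA

/-! Thick-thin decomposition for one curve, part B: energy and oscillation on the thin part. -/

set_option autoImplicit false

namespace Pool.Agent.Lib.MP_1c0d65_gt.C

open Set Metric MeasureTheory Filter Topology

theorem exists_lo {ι : Type*} [Finite ι] (P : ι → Prop) (s : ι → ℝ) (hs : ∀ j, 0 < s j) {t η : ℝ}
    (ht : 0 < t) (hη : 0 < η) :
    ∃ r, 0 < r ∧ (∀ j, P j → s j < t → s j ≤ r) ∧
      ((∃ j, P j ∧ s j < t ∧ r = s j) ∨ (r = η * t ∧ ∀ j, P j → t ≤ s j)) := by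
  by_cases h : {j | P j ∧ s j < t}.Nonempty
  · obtain ⟨j, hj, hm⟩ := exists_max_image _ s (toFinite _) h
    exact ⟨s j, hs j, fun k h1 h2 => hm k ⟨h1, h2⟩, Or.inl ⟨j, hj.1, hj.2, rfl⟩⟩
  · exact ⟨η * t, by positivity, fun k h1 h2 => (h ⟨k, h1, h2⟩).elim,
      Or.inr ⟨rfl, fun k h1 => not_lt.1 fun h2 => h ⟨k, h1, h2⟩⟩⟩

theorem exists_hi {ι : Type*} [Finite ι] (P : ι → Prop) (s : ι → ℝ) (hs : ∀ j, 0 < s j) {t η : ℝ}
    (ht : 0 < t) (hη : 0 < η) :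
    ∃ R, 0 < R ∧ (∀ j, P j → t < s j → R ≤ s j) ∧
      ((∃ j, P j ∧ t < s j ∧ R = s j) ∨ (t = η * R ∧ ∀ j, P j → s j ≤ t)) := by
  by_cases h : {j | P j ∧ t < s j}.Nonempty
  · obtain ⟨j, hj, hm⟩ := exists_min_image _ s (toFinite _) h
    exact ⟨s j, hs j, fun k h1 h2 => hm k ⟨h1, h2⟩, Or.inl ⟨j, hj.1, hj.2, rfl⟩⟩
  · exact ⟨t / η, by positivity, fun k h1 h2 => (h ⟨k, h1, h2⟩).elim,
      Or.inr ⟨by field_simp, fun k h1 => not_lt.1 fun h2 => h ⟨k, h1, h2⟩⟩⟩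

/-- The oscillation along a ray. -/
theorem ray_bound {E : Type*} [NormedAddCommGroup E] [NormedSpace ℝ E] {u : ℂ → E}
    {a w : ℂ} (hw : ‖w‖ = 1) {r R C μ t₁ t₂ : ℝ} (hr : 0 < r)
    (hR : 0 < R) (hμ : 0 < μ) (hC : 0 ≤ C) (h1 : 0 < t₁) (h12 : t₁ ≤ t₂)
    (hu : ∀ t, t₁ ≤ t → t ≤ t₂ → DifferentiableAt ℝ u (a + t • w))
    (hb : ∀ t, t₁ ≤ t → t ≤ t₂ →
      t * ‖fderiv ℝ u (a + t • w)‖ ≤ C * ((r / t) ^ μ + (t / R) ^ μ)) :
    ‖u (a + t₂ • w) - u (a + t₁ • w)‖ ≤ C / μ * ((r / t₁) ^ μ + (t₂ / R) ^ μ) := by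
  have hd : ∀ t ∈ Icc t₁ t₂, HasDerivAt (fun t : ℝ => u (a + t • w) - u (a + t₁ • w))
      (fderiv ℝ u (a + t • w) w) t := fun t ht => by
    have h0 : HasDerivAt (fun t : ℝ => a + t • w) w t := by
      simpa using ((hasDerivAt_id t).smul_const w).const_add a
    exact ((hu t ht.1 ht.2).hasFDerivAt.comp_hasDerivAt t h0).sub_const _
  have hB : ∀ t : ℝ, 0 < t → HasDerivAt
      (fun t : ℝ => C / μ * ((t / R) ^ μ - (r / t) ^ μ + (r / t₁) ^ μ))
      (C * ((r / t) ^ μ + (t / R) ^ μ) / t) t := fun t ht => by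
    have e1 := ((hasDerivAt_id t).div_const R).rpow_const (p := μ)
      (Or.inl (div_pos ht hR).ne')
    have e2 : HasDerivAt (fun y : ℝ => (r / y) ^ μ) (r * -(t ^ 2)⁻¹ * μ * (r / t) ^ (μ - 1)) t :=
      ((hasDerivAt_inv ht.ne').const_mul r).rpow_const (p := μ)
        (Or.inl (mul_pos hr (inv_pos.2 ht)).ne')
    refine (((e1.sub e2).add_const ((r / t₁) ^ μ)).const_mul (C / μ)).congr_deriv ?_
    simp only [id]
    rw [Real.rpow_sub_one (div_pos ht hR).ne', Real.rpow_sub_one (div_pos hr ht).ne']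
    field_simp
    ring
  have := image_norm_le_of_norm_deriv_right_le_deriv_boundary' (a := t₁) (b := t₂)
    (fun t ht => (hd t ht).continuousAt.continuousWithinAt)
    (fun t ht => (hd t (Ico_subset_Icc_self ht)).hasDerivWithinAt)
    (B := fun t : ℝ => C / μ * ((t / R) ^ μ - (r / t) ^ μ + (r / t₁) ^ μ))
    (by simp only [sub_self, norm_zero, sub_add_cancel]; positivity)
    (fun t ht => (hB t (h1.trans_le ht.1)).continuousAt.continuousWithinAt)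
    (fun t ht => (hB t (h1.trans_le ht.1)).hasDerivWithinAt) (fun t ht => by
      rw [le_div_iff₀ (h1.trans_le ht.1), mul_comm]
      refine le_trans (mul_le_mul_of_nonneg_left ?_ (h1.trans_le ht.1).le) (hb t ht.1 ht.2.le)
      simpa [hw] using (fderiv ℝ u (a + t • w)).le_opNorm w) (right_mem_Icc.2 h12)
  refine this.trans (mul_le_mul_of_nonneg_left ?_ (by positivity))
  have : 0 ≤ (r / t₂) ^ μ := by have := h1.trans_le h12; positivity
  linarith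

/-- The model density. -/
noncomputable def ph (μ : ℝ) (z : ℂ) : ℝ := (min ‖z‖ ‖z‖⁻¹ ^ μ / ‖z‖) ^ 2

theorem ph_nonneg (μ : ℝ) (z : ℂ) : 0 ≤ ph μ z := sq_nonneg _

theorem integrable_ph {μ : ℝ} (hμ : 0 < μ) : Integrable (ph μ) := by
  have hm : Measurable (ph μ) := by unfold ph; fun_prop
  rw [← integrableOn_univ, ← union_compl_self (ball (0 : ℂ) 1)]
  refine IntegrableOn.union ?_ ?_
  · refine integrableOn_ball_of_norm_le_rpow (by simp) (C := 1) (α := 2 - 2 * μ)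
      (by simp; linarith) (Eventually.of_forall fun z => ?_) hm.aestronglyMeasurable
    rw [Real.norm_of_nonneg (ph_nonneg μ z), one_mul, ph]
    rcases (norm_nonneg z).eq_or_lt with h | h
    · rw [← h, div_zero, zero_pow two_ne_zero]; positivity
    · rw [show -(2 - 2 * μ) = (μ - 1) * (2 : ℕ) by push_cast; ring, Real.rpow_mul_natCast h.le,
        Real.rpow_sub_one h.ne']
      gcongr
      exact min_le_left _ _
  · refine ((integrable_one_add_norm (μ := volume) (E := ℂ) (r := 2 + 2 * μ)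
      (by simp; linarith)).const_mul (2 ^ (2 + 2 * μ))).integrableOn.mono' hm.aestronglyMeasurable
      ((ae_restrict_iff' measurableSet_ball.compl).2 (Eventually.of_forall fun z hz => ?_))
    have h1 : 1 ≤ ‖z‖ := by simpa using hz
    have h : 0 < ‖z‖ := by linarith
    have h2 : ‖z‖⁻¹ ≤ 2 / (1 + ‖z‖) := by
      rw [inv_eq_one_div, div_le_div_iff₀ h (by positivity)]; linarith
    rw [Real.norm_of_nonneg (ph_nonneg μ z), ph, Real.rpow_neg (by positivity), ← div_eq_mul_inv,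
      ← Real.div_rpow (by positivity) (by positivity),
      show 2 + 2 * μ = (μ + 1) * (2 : ℕ) by push_cast; ring, Real.rpow_mul_natCast (by positivity),
      Real.rpow_add_one (by positivity), div_eq_mul_inv]
    gcongr
    exact (min_le_right _ _).trans h2

/-- The tail of the model density. -/
noncomputable def tl (μ L : ℝ) : ℂ → ℝ := indicator {z | L * ‖z‖ ≤ 1 ∨ L ≤ ‖z‖} (ph μ)

theorem tl_meas (L : ℝ) : MeasurableSet {z : ℂ | L * ‖z‖ ≤ 1 ∨ L ≤ ‖z‖} :=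
  (measurableSet_le (measurable_norm.const_mul L) measurable_const).union
    (measurableSet_le measurable_const measurable_norm)

theorem tl_nonneg (μ L : ℝ) (z : ℂ) : 0 ≤ tl μ L z := indicator_nonneg (fun z _ => ph_nonneg μ z) z

theorem tendsto_tl {μ : ℝ} (hμ : 0 < μ) : Tendsto (fun L => ∫ z, tl μ L z) atTop (𝓝 0) := by
  have h := tendsto_setIntegral_of_antitone (μ := volume) (f := ph μ) tl_meas
    (fun L L' h z hz => hz.imp (fun h1 => (mul_le_mul_of_nonneg_right h (norm_nonneg z)).trans h1)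
      h.trans) ⟨0, (integrable_ph hμ).integrableOn⟩
  rw [setIntegral_measure_zero _ (measure_mono_null (t := {0}) (fun z hz => ?_)
    (measure_singleton 0))] at h
  · simpa only [tl, integral_indicator (tl_meas _)] using h
  · by_contra h0
    have h1 : 0 < ‖z‖ := norm_pos_iff.2 h0
    rcases mem_iInter.1 hz (‖z‖ + 2 / ‖z‖) with h2 | h2
    · rw [add_mul, div_mul_cancel₀ _ h1.ne'] at h2
      nlinarith
    · have : 0 < 2 / ‖z‖ := by positivity
      linarith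

/-- The rescaled tail. -/
noncomputable def tls (μ L : ℝ) (a : ℂ) (s : ℝ) (x : ℂ) : ℝ := s⁻¹ ^ 2 * tl μ L (s⁻¹ • (x - a))

theorem tls_nonneg (μ L : ℝ) (a : ℂ) (s : ℝ) (x : ℂ) : 0 ≤ tls μ L a s x :=
  mul_nonneg (sq_nonneg _) (tl_nonneg _ _ _)

theorem integrable_tls {μ : ℝ} (hμ : 0 < μ) (L : ℝ) (a : ℂ) {s : ℝ} (hs : 0 < s) :
    Integrable (tls μ L a s) :=
  ((((integrable_ph hμ).indicator (tl_meas L)).comp_smul (inv_pos.2 hs).ne').comp_sub_right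
    a).const_mul _

theorem integral_tls (μ L : ℝ) (a : ℂ) {s : ℝ} (hs : 0 < s) :
    ∫ x, tls μ L a s x = ∫ z, tl μ L z := by
  unfold tls
  rw [integral_const_mul, integral_sub_right_eq_self (fun x => tl μ L (s⁻¹ • x)),
    Measure.integral_comp_inv_smul_of_nonneg _ _ hs.le]
  simp only [Complex.finrank_real_complex, smul_eq_mul]
  field_simp

theorem tls_eq (μ : ℝ) {L : ℝ} {a x : ℂ} {s : ℝ} (hs : 0 < s)
    (h : L * ‖x - a‖ ≤ s ∨ L * s ≤ ‖x - a‖) :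
    tls μ L a s x = (min (‖x - a‖ / s) (s / ‖x - a‖) ^ μ / ‖x - a‖) ^ 2 := by
  have e : ‖s⁻¹ • (x - a)‖ = ‖x - a‖ / s := by
    rw [norm_smul, Real.norm_of_nonneg (inv_pos.2 hs).le, div_eq_inv_mul]
  rw [tls, tl, indicator_of_mem, ph, e, inv_div, ← mul_pow]
  · congr 1
    rw [div_div_eq_mul_div, ← mul_div_assoc, mul_left_comm, inv_mul_cancel₀ hs.ne', mul_one]
  · rw [mem_ofPred_eq, e, ← mul_div_assoc, div_le_one hs, le_div_iff₀ hs]
    exact h

section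

variable {ι : Type*} {a : ι → ℂ} {s : ι → ℝ} {m : ℂ → ℝ} {ε C μ L : ℝ}

theorem gap [Finite ι] (hs : ∀ j, 0 < s j) (hd : Decay ε C μ m)
    (H : ∀ i x, (∀ j, a j = a i → 4 * ‖x - a i‖ < s j ∨ 4 * s j < ‖x - a i‖) → ‖x - a i‖ * m x ≤ ε)
    (hL : 1 ≤ L) (i : ι) {t η : ℝ} (ht : 0 < t) (hη : 0 < η) (hη' : L * η ≤ 1)
    (h : ∀ j, a j = a i → L * t < s j ∨ L * s j < t) :
    ∃ r R, 0 < r ∧ L * r ≤ t ∧ L * t ≤ R ∧ (∀ j, a j = a i → s j ≤ r ∨ R ≤ s j) ∧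
      (∀ z, 5 * r ≤ ‖z - a i‖ → ‖z - a i‖ ≤ R / 5 →
        ‖z - a i‖ * m z ≤ C * ((5 * r / ‖z - a i‖) ^ μ + (‖z - a i‖ / (R / 5)) ^ μ)) ∧
      ((∃ j, a j = a i ∧ r = s j) ∨ (r = η * t ∧ ∀ j, a j = a i → t ≤ s j)) ∧
      ((∃ j, a j = a i ∧ R = s j) ∨ (t = η * R ∧ ∀ j, a j = a i → s j ≤ t)) := by
  obtain ⟨r, hr, h1, h2⟩ := exists_lo (fun j => a j = a i) s hs ht hη
  obtain ⟨R, hR, h3, h4⟩ := exists_hi (fun j => a j = a i) s hs ht hη
  have h5 : ∀ j, a j = a i → s j ≤ r ∨ R ≤ s j := fun j hj => by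
    have := hs j
    rcases h j hj with h6 | h6
    · exact Or.inr (h3 j hj (by nlinarith))
    · exact Or.inl (h1 j hj (by nlinarith))
  refine ⟨r, R, hr, ?_, ?_, h5, hd _ _ _ (by positivity) fun z h6 h7 => H i z fun j hj => ?_,
    h2.imp (fun ⟨j, e1, _, e2⟩ => ⟨j, e1, e2⟩) id, h4.imp (fun ⟨j, e1, _, e2⟩ => ⟨j, e1, e2⟩) id⟩
  · rcases h2 with ⟨j, e1, e2, rfl⟩ | ⟨rfl, -⟩
    · rcases h j e1 with h6 | h6 <;> nlinarith
    · nlinarith
  · rcases h4 with ⟨j, e1, e2, rfl⟩ | ⟨e, -⟩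
    · have := hs j
      rcases h j e1 with h6 | h6 <;> nlinarith
    · rw [e]; nlinarith
  · rcases h5 j hj with h8 | h8
    · exact Or.inr (by linarith)
    · exact Or.inl (by linarith)

/-- A point of the thin part and its nearest centre. -/
theorem exists_nearest [Finite ι] [Nonempty ι] (hL : 0 ≤ L) {x : ℂ} (hx : x ∉ ⋃ i, Thick a s L i) :
    ∃ i, ∀ j, a j = a i → L * ‖x - a i‖ < s j ∨ L * s j < ‖x - a i‖ := by
  obtain ⟨i, hi⟩ := Finite.exists_min fun i => ‖x - a i‖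
  refine ⟨i, fun j hj => ?_⟩
  by_contra hc
  push Not at hc
  exact hx (mem_iUnion.2 ⟨j, by rw [hj]; exact hc.2,
    fun k => hc.1.trans (mul_le_mul_of_nonneg_left (hi k) hL)⟩)

theorem thin_pointwise [Fintype ι] [Nonempty ι] (hs : ∀ j, 0 < s j) (hd : Decay ε C μ m)
    (h0 : ∀ x, 0 ≤ m x) (hμ : 0 < μ)
    (H : ∀ i x, (∀ j, a j = a i → 4 * ‖x - a i‖ < s j ∨ 4 * s j < ‖x - a i‖) → ‖x - a i‖ * m x ≤ ε)
    (hL : 5 ≤ L) {x : ℂ} (hx : x ∉ ⋃ i, Thick a s L i) (hx' : x ∉ range a) :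
    m x ^ 2 ≤ 4 * (C * 5 ^ μ) ^ 2 * ∑ j, tls μ L (a j) (s j) x := by
  obtain ⟨i, hi⟩ := exists_nearest (by linarith) hx
  have ht : 0 < ‖x - a i‖ := norm_pos_iff.2 (sub_ne_zero.2 fun e => hx' ⟨i, e.symm⟩)
  have hG : 0 ≤ ∑ j, tls μ L (a j) (s j) x := Finset.sum_nonneg fun j _ => tls_nonneg _ _ _ _ _
  have hlim : Tendsto (fun η : ℝ => 4 * (C * 5 ^ μ) ^ 2 *
      (∑ j, tls μ L (a j) (s j) x + (η ^ μ / ‖x - a i‖) ^ 2)) (𝓝[>] 0)
      (𝓝 (4 * (C * 5 ^ μ) ^ 2 * (∑ j, tls μ L (a j) (s j) x + (0 ^ μ / ‖x - a i‖) ^ 2))) :=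
    (((((Real.continuousAt_rpow_const 0 μ (Or.inr hμ.le)).tendsto.div_const _).pow 2).const_add
      _).const_mul _).mono_left nhdsWithin_le_nhds
  rw [Real.zero_rpow hμ.ne', zero_div, zero_pow two_ne_zero, add_zero] at hlim
  refine ge_of_tendsto hlim ?_
  filter_upwards [Ioc_mem_nhdsGT (show 0 < L⁻¹ by positivity)] with η hη
  obtain ⟨r, R, hr, h1, h2, -, h3, h4, h5⟩ := gap hs hd H (by linarith) i ht hη.1 (by
    rw [← le_div_iff₀' (by linarith), one_div]; exact hη.2) hi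
  have hR : 0 < R := by nlinarith
  have h6 := h3 x (by nlinarith) (by nlinarith)
  have key : ∀ j, a j = a i → L * ‖x - a i‖ ≤ s j ∨ L * s j ≤ ‖x - a i‖ →
      (min (‖x - a i‖ / s j) (s j / ‖x - a i‖) ^ μ / ‖x - a i‖) ^ 2 ≤
        ∑ j, tls μ L (a j) (s j) x := fun j hj h => by
    rw [← tls_eq μ (hs j) h, ← hj]
    exact Finset.single_le_sum (f := fun j => tls μ L (a j) (s j) x)
      (fun j _ => tls_nonneg _ _ _ _ _) (Finset.mem_univ j)
  generalize ‖x - a i‖ = t at *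
  have k1 : ((r / t) ^ μ / t) ^ 2 ≤ ∑ j, tls μ L (a j) (s j) x + (η ^ μ / t) ^ 2 := by
    rcases h4 with ⟨j, e1, rfl⟩ | ⟨rfl, -⟩
    · have := key j e1 (Or.inr h1)
      rw [min_eq_right (((div_le_one ht).2 (by nlinarith)).trans
        ((one_le_div hr).2 (by nlinarith)))] at this
      exact this.trans (le_add_of_nonneg_right (sq_nonneg _))
    · rw [mul_div_cancel_right₀ _ ht.ne']
      exact le_add_of_nonneg_left hG
  have k2 : ((t / R) ^ μ / t) ^ 2 ≤ ∑ j, tls μ L (a j) (s j) x + (η ^ μ / t) ^ 2 := by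
    rcases h5 with ⟨j, e1, rfl⟩ | ⟨e, -⟩
    · have := key j e1 (Or.inl h2)
      rw [min_eq_left (((div_le_one hR).2 (by nlinarith)).trans
        ((one_le_div ht).2 (by nlinarith)))] at this
      exact this.trans (le_add_of_nonneg_right (sq_nonneg _))
    · rw [show t / R = η by rw [e, mul_div_cancel_right₀ _ hR.ne']]
      exact le_add_of_nonneg_left hG
  have k3 : m x ≤ C * 5 ^ μ * ((r / t) ^ μ / t + (t / R) ^ μ / t) := by
    rw [← add_div, ← mul_div_assoc, le_div_iff₀' ht]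
    refine h6.trans_eq ?_
    rw [mul_div_assoc, div_div_eq_mul_div, mul_comm t, mul_div_assoc,
      Real.mul_rpow (by norm_num) (by positivity), Real.mul_rpow (by norm_num) (by positivity)]
    ring
  refine (pow_le_pow_left₀ (h0 x) k3 2).trans ?_
  rw [mul_pow, mul_comm 4, mul_assoc]
  refine mul_le_mul_of_nonneg_left ?_ (sq_nonneg _)
  nlinarith [sq_nonneg ((r / t) ^ μ / t - (t / R) ^ μ / t)]

theorem isClosed_thick (a : ι → ℂ) (s : ι → ℝ) (L : ℝ) (i : ι) : IsClosed (Thick a s L i) := by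
  simp only [Thick, ofPred_and, ofPred_forall]
  exact (isClosed_le (by fun_prop) continuous_const).inter
    (isClosed_iInter fun k => isClosed_le continuous_const (by fun_prop))

theorem Thick.mono (hs : ∀ j, 0 < s j) {L L' : ℝ} (h : L ≤ L') (i : ι) :
    Thick a s L i ⊆ Thick a s L' i := fun _ hx =>
  ⟨hx.1.trans (mul_le_mul_of_nonneg_right h (hs i).le),
    fun k => (hx.2 k).trans (mul_le_mul_of_nonneg_right h (norm_nonneg _))⟩

theorem thin_energy [Fintype ι] [Nonempty ι] (hs : ∀ j, 0 < s j) (hd : Decay ε C μ m)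
    (h0 : ∀ x, 0 ≤ m x) (hμ : 0 < μ)
    (H : ∀ i x, (∀ j, a j = a i → 4 * ‖x - a i‖ < s j ∨ 4 * s j < ‖x - a i‖) → ‖x - a i‖ * m x ≤ ε)
    (hL : 5 ≤ L) : ∫ x in (⋃ i, Thick a s L i)ᶜ, m x ^ 2 ≤
      4 * (C * 5 ^ μ) ^ 2 * (Fintype.card ι * ∫ z, tl μ L z) := by
  have hi : Integrable fun x => 4 * (C * 5 ^ μ) ^ 2 * ∑ j, tls μ L (a j) (s j) x :=
    (integrable_finsetSum _ fun j _ => integrable_tls hμ L _ (hs j)).const_mul _
  calc _ ≤ ∫ x in (⋃ i, Thick a s L i)ᶜ, 4 * (C * 5 ^ μ) ^ 2 * ∑ j, tls μ L (a j) (s j) x := by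
        refine integral_mono_of_nonneg (Eventually.of_forall fun x => sq_nonneg _) hi.integrableOn
          ((ae_restrict_iff' (isClosed_iUnion_of_finite
            (isClosed_thick a s L)).measurableSet.compl).2 ?_)
        filter_upwards [compl_mem_ae_iff.2 ((finite_range a).measure_zero volume)] with x h1 h2
        exact thin_pointwise hs hd h0 hμ H hL h2 h1
    _ ≤ _ := setIntegral_le_integral hi (Eventually.of_forall fun x => mul_nonneg (by positivity)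
        (Finset.sum_nonneg fun j _ => tls_nonneg _ _ _ _ _))
    _ = _ := by
        rw [integral_const_mul, integral_finsetSum _ fun j _ => integrable_tls hμ L _ (hs j)]
        simp only [integral_tls μ L _ (hs _), Finset.sum_const, Finset.card_univ, nsmul_eq_mul]

theorem thin_path [Finite ι] [Nonempty ι] {E : Type*} [NormedAddCommGroup E] [NormedSpace ℝ E]
    {u : ℂ → E} (hu : Differentiable ℝ u) (hs : ∀ j, 0 < s j)
    (hd : Decay ε C μ fun z => ‖fderiv ℝ u z‖) (hC : 0 ≤ C) (hμ : 0 < μ)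
    (H : ∀ i x, (∀ j, a j = a i → 4 * ‖x - a i‖ < s j ∨ 4 * s j < ‖x - a i‖) →
      ‖x - a i‖ * ‖fderiv ℝ u x‖ ≤ ε)
    (H' : ∀ i k, a k ≠ a i → ∃ j, a j = a i ∧ s j = ‖a k - a i‖)
    (hL : 5 ≤ L) {x : ℂ} (hx : x ∉ ⋃ i, Thick a s L i) (hx' : x ∉ range a) :
    ∃ j, ∃ y ∈ Thick a s (2 * L) j, ‖u x - u y‖ ≤ C / μ * (2 * (5 / L) ^ μ) := by
  obtain ⟨i, hi⟩ := exists_nearest (by linarith) hx
  have ht : 0 < ‖x - a i‖ := norm_pos_iff.2 (sub_ne_zero.2 fun e => hx' ⟨i, e.symm⟩)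
  have hL0 : 0 < L := by linarith
  obtain ⟨r, R, hr, h1, h2, h7, h3, h4, h5⟩ := gap hs hd H (by linarith) i ht (inv_pos.2 hL0)
    (mul_inv_cancel₀ hL0.ne').le hi
  have hR : 0 < R := by nlinarith
  obtain ⟨w, hw, hxw⟩ : ∃ w : ℂ, ‖w‖ = 1 ∧ x = a i + ‖x - a i‖ • w :=
    ⟨‖x - a i‖⁻¹ • (x - a i), by rw [norm_smul, norm_inv, norm_norm, inv_mul_cancel₀ ht.ne'],
      by rw [smul_inv_smul₀ ht.ne', add_sub_cancel]⟩
  have hn : ∀ τ : ℝ, 0 < τ → ‖a i + τ • w - a i‖ = τ := fun τ h => by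
    rw [add_sub_cancel_left, norm_smul, hw, mul_one, Real.norm_of_nonneg h.le]
  generalize ‖x - a i‖ = t at *
  have hRL : L * (R / L) = R := mul_div_cancel₀ _ hL0.ne'
  have hRL0 : t ≤ R / L := (le_div_iff₀' hL0).2 h2
  have ray : ∀ t₁ t₂, L * r ≤ t₁ → t₁ ≤ t₂ → t₂ ≤ R / L →
      ‖u (a i + t₂ • w) - u (a i + t₁ • w)‖ ≤ C / μ * (2 * (5 / L) ^ μ) := fun t₁ t₂ e1 e2 e3 => by
    have p1 : 0 < t₁ := lt_of_lt_of_le (by positivity) e1
    refine (ray_bound hw (r := 5 * r) (R := R / 5) (by positivity) (by positivity) hμ hC p1 e2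
      (fun _ _ _ => hu _) fun τ e4 e5 => ?_).trans (mul_le_mul_of_nonneg_left ?_ (by positivity))
    · have := h3 (a i + τ • w) (by rw [hn τ (by linarith)]; nlinarith)
        (by rw [hn τ (by linarith)]; nlinarith)
      rwa [hn τ (by linarith)] at this
    · have p2 : 0 < t₂ := by linarith
      have q1 : (5 * r / t₁) ^ μ ≤ (5 / L) ^ μ := Real.rpow_le_rpow (by positivity)
        (by rw [div_le_div_iff₀ p1 hL0]; nlinarith) hμ.le
      have q2 : (t₂ / (R / 5)) ^ μ ≤ (5 / L) ^ μ := Real.rpow_le_rpow (by positivity)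
        (by rw [div_le_div_iff₀ (by positivity) hL0]; nlinarith) hμ.le
      linarith
  have far : ∀ τ, L * r ≤ τ → τ ≤ R / L → ∀ k, τ ≤ 2 * ‖a i + τ • w - a k‖ := fun τ e1 e2 k => by
    have p1 : 0 < τ := lt_of_lt_of_le (by positivity) e1
    by_cases e : a k = a i
    · rw [e, hn τ p1]; linarith
    obtain ⟨j, e3, e4⟩ := H' i k e
    have g1 := norm_sub_le_norm_sub_add_norm_sub (a i + τ • w) (a k) (a i)
    have g2 := norm_sub_le_norm_sub_add_norm_sub (a k) (a i + τ • w) (a i)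
    rw [norm_sub_rev (a k) (a i + τ • w)] at g2
    rw [hn τ p1, ← e4] at g1 g2
    rcases h7 j e3 with g | g <;> nlinarith
  have lo : ∀ j, a j = a i → r = s j →
      ∃ j, ∃ y ∈ Thick a s (2 * L) j, ‖u x - u y‖ ≤ C / μ * (2 * (5 / L) ^ μ) := fun j e1 e2 =>
    ⟨j, a i + (L * r) • w, ⟨by rw [e1, hn _ (by positivity), ← e2]; nlinarith, fun k => by
      have := far _ le_rfl (h1.trans hRL0) k
      rw [← e2]
      nlinarith [norm_nonneg (a i + (L * r) • w - a k)]⟩, hxw ▸ ray _ _ le_rfl h1 hRL0⟩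
  rcases h4 with ⟨j, e1, e2⟩ | ⟨-, e0⟩
  · exact lo j e1 e2
  rcases h5 with ⟨j, e1, e2⟩ | ⟨-, e1⟩
  · refine ⟨j, a i + (R / L) • w, ⟨by rw [e1, hn _ (by positivity), ← e2]; nlinarith, fun k => by
      have := far _ (h1.trans hRL0) le_rfl k
      rw [← e2]
      nlinarith⟩, ?_⟩
    rw [norm_sub_rev]
    exact hxw ▸ ray _ _ h1 hRL0 le_rfl
  · have := le_antisymm (e0 i rfl) (e1 i rfl)
    rcases hi i rfl with g | g <;> nlinarith

end

/-- The thick-thin decomposition, with constants that depend on the energy bound only. -/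
theorem thick_thin {h e ε C μ : ℝ} (E₀ : ℝ) (hh : 0 < h) (he0 : 0 ≤ e) (he : e ≤ 1 / 2)
    (hε : 4 * e ≤ ε) (hC : 0 ≤ C) (hμ : 0 < μ) :
    ∃ (N : ℕ) (τ : ℝ → ℝ), Tendsto τ atTop (𝓝 0) ∧
      ∀ {E : Type} [NormedAddCommGroup E] [NormedSpace ℝ E] (u : ℂ → E), ContDiff ℝ 1 u →
      Integrable (fun x => ‖fderiv ℝ u x‖ ^ 2) → ∫ x, ‖fderiv ℝ u x‖ ^ 2 ≤ E₀ →
      Tendsto (fun z => ‖z‖ * ‖fderiv ℝ u z‖) (cocompact ℂ) (𝓝 0) →
      Quantum h e (fun z => ‖fderiv ℝ u z‖) → Decay ε C μ (fun z => ‖fderiv ℝ u z‖) →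
      ∃ (a : Fin (N + 1) → ℂ) (s : Fin (N + 1) → ℝ), (∀ i, 0 < s i) ∧
        (∀ x r, (∀ i, r ≤ ‖x - a i‖) → r * ‖fderiv ℝ u x‖ ≤ 4) ∧ ∀ L, 5 ≤ L →
          ∫ x in (⋃ i, Thick a s L i)ᶜ, ‖fderiv ℝ u x‖ ^ 2 ≤ τ L ∧
          ∀ x, ∃ j, ∃ y ∈ Thick a s (2 * L) j, ‖u x - u y‖ ≤ τ L := by
  obtain ⟨N, hN⟩ := exists_centres_scales (E := E₀) hh he0 he
  refine ⟨N, fun L => 4 * (C * 5 ^ μ) ^ 2 * ((N + 1 : ℕ) * ∫ z, tl μ L z) +
    (C / μ * (2 * (5 / L) ^ μ) + L⁻¹), ?_, fun u hu hi hE hinf hq hd => ?_⟩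
  · have h1 := ((tendsto_tl hμ).const_mul ((N + 1 : ℕ) : ℝ)).const_mul (4 * (C * 5 ^ μ) ^ 2)
    have h2 := (((Real.continuousAt_rpow_const 0 μ (Or.inr hμ.le)).tendsto.comp
      (tendsto_id.const_div_atTop (5 : ℝ))).const_mul 2).const_mul (C / μ)
    have h3 := h1.add (h2.add (tendsto_inv_atTop_zero (𝕜 := ℝ)))
    simpa [Real.zero_rpow hμ.ne'] using h3
  obtain ⟨a, s, hs, h4, H', H⟩ := hN _ (hu.continuous_fderiv one_ne_zero).norm
    (fun _ => norm_nonneg _) hi hE hinf hq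
  refine ⟨a, s, hs, h4, fun L hL => ?_⟩
  have hL0 : 0 < L := by linarith
  have p1 : 0 ≤ 4 * (C * 5 ^ μ) ^ 2 * ((N + 1 : ℕ) * ∫ z, tl μ L z) :=
    mul_nonneg (by positivity) (mul_nonneg (by positivity) (integral_nonneg (tl_nonneg μ L)))
  have p2 : 0 ≤ C / μ * (2 * (5 / L) ^ μ) := by positivity
  have p3 : 0 < L⁻¹ := by positivity
  refine ⟨?_, fun x => ?_⟩
  · have := thin_energy hs hd (fun _ => norm_nonneg _) hμ (fun i x hx => (H i x hx).trans hε) hL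
    rw [Fintype.card_fin] at this
    linarith
  obtain ⟨x', h1, h2⟩ := ((finite_range a).countable.dense_compl ℝ).exists_mem_open
    (isOpen_ball.preimage hu.continuous) ⟨x, mem_ball_self (x := u x) p3⟩
  have h3 : ‖u x - u x'‖ < L⁻¹ := mem_ball_iff_norm'.1 h2
  by_cases hx : x' ∈ ⋃ i, Thick a s L i
  · obtain ⟨j, hj⟩ := mem_iUnion.1 hx
    exact ⟨j, x', Thick.mono hs (by linarith) j hj, by linarith⟩
  obtain ⟨j, y, hy, h5⟩ := thin_path (hu.differentiable one_ne_zero) hs hd hC hμ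
    (fun i x hx => (H i x hx).trans hε) H' hL hx h1
  exact ⟨j, y, hy, by linarith [norm_sub_le_norm_sub_add_norm_sub (u x) (u x') (u y)]⟩

end Pool.Agent.Lib.MP_1c0d65_gt.C
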