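import Pool.Agent.Lib.MP_1c0d65_gt.C.Fam
import Pool.Agent.Lib.MP_1c0d65_gt.C.ThinB

/-! The energy estimates of `Fam` from the estimates in the supremum norm. -/

set_option autoImplicit false

namespace Pool.Agent.Lib.MP_1c0d65_gt.C

open MeasureTheory Filter Metric Set Topology
open scoped ENNReal

variable {E : Type} [NormedAddCommGroup E] [NormedSpace ℝ E] {Λ : Type}

/-- The estimates in the supremum norm. -/
structure Sup (At : Λ → (ℂ → E) → ℂ → Prop) : Prop where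
  c1 : ∀ {l u z}, At l u z → ContDiffAt ℝ 1 u z
  est : ∀ B : ℝ, ∃ C : ℝ, 0 ≤ C ∧ ∀ l u x r, 0 < r → (∀ z ∈ ball x r, At l u z) →
    (∀ y ∈ ball x r, ‖fderiv ℝ u y‖ ≤ B / r) →
    ∀ y ∈ ball x (r / 2), ‖fderiv ℝ u y - fderiv ℝ u x‖ ≤ C / r * √(‖y - x‖ / r)
  dec : ∃ ε C μ : ℝ, 0 < ε ∧ 0 ≤ C ∧ 0 < μ ∧ ∀ l u a r R O, 0 < r → IsOpen O →
    (∀ z ∈ O, At l u z) → (∀ z, r ≤ ‖z - a‖ → ‖z - a‖ ≤ R → z ∈ O) →
    (∀ z, r ≤ ‖z - a‖ → ‖z - a‖ ≤ R → ‖z - a‖ * ‖fderiv ℝ u z‖ ≤ ε) →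
    ∀ z, r ≤ ‖z - a‖ → ‖z - a‖ ≤ R →
      ‖z - a‖ * ‖fderiv ℝ u z‖ ≤ C * ((r / ‖z - a‖) ^ μ + (‖z - a‖ / R) ^ μ)
  rem : ∃ ε : ℝ, 0 < ε ∧ ∀ l u a r, 0 < r → (∀ z ∈ ball a r \ {a}, At l u z) →
    (∀ z ∈ ball a r \ {a}, ‖z - a‖ * ‖fderiv ℝ u z‖ ≤ ε) → ∃ p, At l (Function.update u a p) a

theorem em_apply' (u : ℂ → E) {s : Set ℂ} (hs : MeasurableSet s) :
    em u s = ∫⁻ z in s, ‖fderiv ℝ u z‖ₑ ^ 2 := withDensity_apply _ hs

theorem enorm_sq_eq {F : Type*} [NormedAddCommGroup F] (A : F) :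
    ‖A‖ₑ ^ 2 = ENNReal.ofReal (‖A‖ ^ 2) := by
  rw [ENNReal.ofReal_pow (norm_nonneg _), ofReal_norm]

variable {At : Λ → (ℂ → E) → ℂ → Prop}

/-- The energy quantum. -/
theorem Sup.quantum (S : Sup At) (B : ℝ) {e : ℝ} (he : 0 < e) :
    ∃ h > 0, ∀ l u x r, 0 < r → (∀ z ∈ ball x r, At l u z) →
      (∀ y ∈ ball x r, r * ‖fderiv ℝ u y‖ ≤ B) → e ≤ r * ‖fderiv ℝ u x‖ →
      ENNReal.ofReal h ≤ em u (ball x r) := by
  obtain ⟨C, hC, H⟩ := S.est B
  obtain ⟨θ, h0, h1, h2⟩ : ∃ θ : ℝ, 0 < θ ∧ θ ≤ 1 / 2 ∧ C * √θ ≤ e / 2 := by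
    refine ⟨min (1 / 2) ((e / (2 * (C + 1))) ^ 2), by positivity, min_le_left _ _, ?_⟩
    have : √(min (1 / 2) ((e / (2 * (C + 1))) ^ 2)) ≤ e / (2 * (C + 1)) :=
      Real.sqrt_le_iff.2 ⟨by positivity, min_le_right _ _⟩
    refine (mul_le_mul_of_nonneg_left this hC).trans ?_
    rw [← mul_div_assoc, div_le_div_iff₀ (by positivity) two_pos]
    nlinarith
  refine ⟨(e / 2) ^ 2 * θ ^ 2, by positivity, fun l u x r hr hA hB hx => ?_⟩
  have h3 : ∀ y ∈ ball x (θ * r), e / (2 * r) ≤ ‖fderiv ℝ u y‖ := fun y hy => by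
    have h4 := H l u x r hr hA (fun y hy => (le_div_iff₀' hr).2 (hB y hy)) y
      (ball_subset_ball (by nlinarith) hy)
    have h5 : √(‖y - x‖ / r) ≤ √θ :=
      Real.sqrt_le_sqrt ((div_le_iff₀ hr).2 (mem_ball_iff_norm.1 hy).le)
    have h6 : C / r * √(‖y - x‖ / r) ≤ e / 2 / r := by
      rw [div_mul_eq_mul_div]
      exact div_le_div_of_nonneg_right ((mul_le_mul_of_nonneg_left h5 hC).trans h2) hr.le
    have h7 : e / r ≤ ‖fderiv ℝ u x‖ := (div_le_iff₀' hr).2 hx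
    have h8 := norm_sub_norm_le (fderiv ℝ u x) (fderiv ℝ u y)
    rw [norm_sub_rev] at h8
    have h9 : e / r = e / 2 / r + e / (2 * r) := by field_simp; ring
    linarith
  calc ENNReal.ofReal ((e / 2) ^ 2 * θ ^ 2)
      = ENNReal.ofReal ((e / (2 * r)) ^ 2) * (ENNReal.ofReal (θ * r) ^ 2 * 1) := by
        rw [mul_one, ← ENNReal.ofReal_pow (by positivity), ← ENNReal.ofReal_mul (by positivity)]
        congr 1; field_simp
    _ ≤ ENNReal.ofReal ((e / (2 * r)) ^ 2) * volume (ball x (θ * r)) := by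
        rw [Complex.volume_ball]
        gcongr
        exact_mod_cast (show (1 : ℝ) ≤ Real.pi by linarith [Real.pi_gt_three])
    _ = ∫⁻ _z in ball x (θ * r), ENNReal.ofReal ((e / (2 * r)) ^ 2) := (setLIntegral_const _ _).symm
    _ ≤ em u (ball x (θ * r)) := by
        rw [em_apply' u measurableSet_ball]
        refine setLIntegral_mono' measurableSet_ball fun y hy => ?_
        rw [enorm_sq_eq]
        exact ENNReal.ofReal_le_ofReal (pow_le_pow_left₀ (by positivity) (h3 y hy) 2)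
    _ ≤ em u (ball x r) := measure_mono (ball_subset_ball (by nlinarith))

/-- The mean value inequality, with a constant as small as we like. -/
theorem Sup.mv (S : Sup At) {e : ℝ} (he : 0 < e) :
    ∃ h > 0, ∀ l u x r, 0 < r → (∀ z ∈ ball x r, At l u z) →
      em u (ball x r) ≤ ENNReal.ofReal h → r * ‖fderiv ℝ u x‖ ≤ e := by
  obtain ⟨h, hh, H⟩ := S.quantum e (show 0 < e / 4 by positivity)
  refine ⟨h / 2, by positivity, fun l u x r hr hA hE => ?_⟩
  by_contra hc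
  have hsub : closedBall x (r / 2) ⊆ ball x r := closedBall_subset_ball (by linarith)
  obtain ⟨y, hy, hm⟩ := (isCompact_closedBall x (r / 2)).exists_isMaxOn
    (f := fun y => (r / 2 - dist y x) * ‖fderiv ℝ u y‖) ⟨x, mem_closedBall_self (by positivity)⟩
    fun y hy => ContinuousAt.continuousWithinAt ((by fun_prop : ContinuousAt
      (fun y => r / 2 - dist y x) y).mul
        ((S.c1 (hA y (hsub hy))).fderiv_right (m := 0) le_rfl).continuousAt.norm)
  have h1 : (r / 2 - dist x x) * ‖fderiv ℝ u x‖ ≤ (r / 2 - dist y x) * ‖fderiv ℝ u y‖ :=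
    hm (mem_closedBall_self (by positivity))
  rw [dist_self, sub_zero] at h1
  have h2 : e / 2 < (r / 2 - dist y x) * ‖fderiv ℝ u y‖ := by linarith [not_le.1 hc]
  have hd : 0 ≤ r / 2 - dist y x := sub_nonneg.2 hy
  have hM : 0 < ‖fderiv ℝ u y‖ := (norm_nonneg _).lt_of_ne fun e0 => by
    rw [← e0] at h2; linarith
  have hρ : 0 < e / 4 / ‖fderiv ℝ u y‖ := by positivity
  have hρ1 : e / 4 / ‖fderiv ℝ u y‖ * ‖fderiv ℝ u y‖ = e / 4 := div_mul_cancel₀ _ hM.ne'
  generalize e / 4 / ‖fderiv ℝ u y‖ = ρ at hρ hρ1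
  have hρ2 : 2 * ρ < r / 2 - dist y x := by
    apply lt_of_mul_lt_mul_right _ hM.le
    linarith
  have hb : ball y ρ ⊆ closedBall x (r / 2) := fun z hz => by
    have := dist_triangle z y x
    rw [mem_ball] at hz
    rw [mem_closedBall]
    linarith
  have h3 := H l u y ρ hρ (fun z hz => hA z (hsub (hb hz))) (fun z hz => by
    have h4 : (r / 2 - dist z x) * ‖fderiv ℝ u z‖ ≤ (r / 2 - dist y x) * ‖fderiv ℝ u y‖ :=
      hm (hb hz)
    have h5 := dist_triangle z y x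
    rw [mem_ball] at hz
    have h6 : (r / 2 - dist y x) / 2 * ‖fderiv ℝ u z‖ ≤ (r / 2 - dist z x) * ‖fderiv ℝ u z‖ :=
      mul_le_mul_of_nonneg_right (by linarith) (norm_nonneg _)
    have h7 : ‖fderiv ℝ u z‖ ≤ 2 * ‖fderiv ℝ u y‖ := by
      apply le_of_mul_le_mul_left _ (show 0 < r / 2 - dist y x by linarith)
      linarith
    nlinarith) hρ1.ge
  have h8 := h3.trans ((measure_mono (hb.trans hsub)).trans hE)
  rw [ENNReal.ofReal_le_ofReal_iff (by positivity)] at h8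
  linarith

/-- Removal of singularities for finite energy. -/
theorem Sup.rem' (S : Sup At) (l : Λ) (u : ℂ → E) (x : ℂ) (r : ℝ) (hr : 0 < r)
    (hA : ∀ z ∈ ball x r \ {x}, At l u z) (hE : em u (ball x r) ≠ ⊤) :
    ∃ p, At l (Function.update u x p) x := by
  obtain ⟨ε, hε, H⟩ := S.rem
  obtain ⟨h, hh, H'⟩ := S.mv (half_pos hε)
  have h1 := tendsto_measure_biInter_gt (μ := em u) (s := fun ρ : ℝ => ball x ρ) (a := 0)
    (fun _ _ => measurableSet_ball.nullMeasurableSet) (fun _ _ _ h => ball_subset_ball h)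
    ⟨r, hr, hE⟩
  rw [measure_mono_null (μ := em u) (t := {x}) (fun z hz => ?_)
    (withDensity_absolutelyContinuous _ _ (measure_singleton x))] at h1
  · obtain ⟨ρ, h2, h3⟩ := ((h1.eventually (ge_mem_nhds (ENNReal.ofReal_pos.2 hh))).and
      (Ioc_mem_nhdsGT hr)).exists
    refine H l u x (ρ / 2) (half_pos h3.1) (fun z hz => hA z
      ⟨ball_subset_ball (by linarith [h3.1, h3.2]) hz.1, hz.2⟩) fun z hz => ?_
    have ht : 0 < ‖z - x‖ := norm_pos_iff.2 (sub_ne_zero.2 hz.2)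
    have h4 : ‖z - x‖ < ρ / 2 := mem_ball_iff_norm.1 hz.1
    have hb : ball z (‖z - x‖ / 2) ⊆ ball x ρ := ball_subset_ball' (by rw [dist_eq_norm]; linarith)
    have := H' l u z _ (half_pos ht) (fun y hy => hA y ⟨ball_subset_ball h3.2 (hb hy), fun e => by
      rw [mem_singleton_iff.1 e, mem_ball_iff_norm'] at hy
      linarith⟩) ((measure_mono hb).trans h2)
    linarith
  · by_contra h0
    exact lt_irrefl _ (mem_ball.1 (mem_iInter₂.1 hz (dist z x) (dist_pos.2 h0)))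

/-- The oscillation on a circle. -/
theorem circle_bound {u : ℂ → E} {a w w' : ℂ} (hw : ‖w‖ = 1) (hw' : ‖w'‖ = 1) {t M : ℝ}
    (ht : 0 < t) (hu : ∀ z, ‖z - a‖ = t → DifferentiableAt ℝ u z ∧ t * ‖fderiv ℝ u z‖ ≤ M) :
    ‖u (a + t • w) - u (a + t • w')‖ ≤ M * (2 * Real.pi) := by
  have hn : ∀ θ : ℝ, ‖a + t • Complex.exp (θ * Complex.I) - a‖ = t := fun θ => by
    rw [add_sub_cancel_left, norm_smul, Complex.norm_exp_ofReal_mul_I, mul_one,
      Real.norm_of_nonneg ht.le]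
  have hd : ∀ θ : ℝ, HasDerivAt (fun θ : ℝ => a + t • Complex.exp (θ * Complex.I))
      (t • (Complex.exp (θ * Complex.I) * Complex.I)) θ := fun θ => by
    have := ((hasDerivAt_id θ).ofReal_comp.mul_const Complex.I).cexp
    simpa using (this.const_smul t).const_add a
  have h1 := Convex.norm_image_sub_le_of_norm_hasDerivWithin_le (C := M)
    (fun θ _ => ((hu _ (hn θ)).1.hasFDerivAt.comp_hasDerivAt θ (hd θ)).hasDerivWithinAt)
    (fun θ _ => ((fderiv ℝ u _).le_opNorm _).trans (by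
      rw [norm_smul, norm_mul, Complex.norm_exp_ofReal_mul_I, Complex.norm_I, mul_one, mul_one,
        Real.norm_of_nonneg ht.le, mul_comm]
      exact (hu _ (hn θ)).2)) convex_univ (mem_univ w'.arg) (mem_univ w.arg)
  have e : ∀ w : ℂ, ‖w‖ = 1 → Complex.exp (w.arg * Complex.I) = w := fun w h => by
    simpa [h] using Complex.norm_mul_exp_arg_mul_I w
  simp only [Function.comp_apply, e w hw, e w' hw'] at h1
  refine h1.trans (mul_le_mul_of_nonneg_left ?_ (le_trans (by positivity) (hu _ (hn 0)).2))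
  rw [Real.norm_eq_abs, abs_le]
  constructor <;> linarith [w.neg_pi_lt_arg, w.arg_le_pi, w'.neg_pi_lt_arg, w'.arg_le_pi]

/-- The annulus lemma. -/
theorem Sup.ann (S : Sup At) : ∃ h > 0, ∀ η > 0, ∃ T ≥ (1 : ℝ), ∀ l u x a b, 0 < a →
    (∀ z ∈ ball x b \ closedBall x a, At l u z) →
    em u (ball x b \ closedBall x a) ≤ ENNReal.ofReal h →
    em u (closedBall x (b / T) \ ball x (T * a)) ≤ ENNReal.ofReal η ∧
      ∀ y ∈ closedBall x (b / T) \ ball x (T * a), ∀ y' ∈ closedBall x (b / T) \ ball x (T * a),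
        dist (u y) (u y') ≤ η := by
  obtain ⟨ε, C, μ, hε, hC, hμ, H⟩ := S.dec
  obtain ⟨h, hh, H'⟩ := S.mv (half_pos hε)
  refine ⟨h, hh, fun η hη => ?_⟩
  have t1 := (tendsto_tl hμ).const_mul (2 * (C * 2 ^ μ) ^ 2 * 2)
  have t2 := ((Real.continuousAt_rpow_const 0 μ (Or.inr hμ.le)).tendsto.comp
    (tendsto_id.const_div_atTop (2 : ℝ))).const_mul (C / μ * 2 + C * 2 * (2 * Real.pi))
  rw [mul_zero] at t1
  rw [Real.zero_rpow hμ.ne', mul_zero] at t2
  obtain ⟨T, ⟨hT1, hT2⟩, hT⟩ := (((t1.eventually (ge_mem_nhds hη)).and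
    (t2.eventually (ge_mem_nhds hη))).and (eventually_ge_atTop (2 : ℝ))).exists
  have hT2 : (C / μ * 2 + C * 2 * (2 * Real.pi)) * (2 / T) ^ μ ≤ η := hT2
  refine ⟨T, by linarith, fun l u x a b ha hA hE => ?_⟩
  have hT0 : 0 < T := by linarith
  have hO : ∀ z, 2 * a ≤ ‖z - x‖ → ‖z - x‖ ≤ b / 2 → z ∈ ball x b \ closedBall x a :=
    fun z h1 h2 => ⟨mem_ball_iff_norm.2 (by linarith), fun e => by
      linarith [mem_closedBall_iff_norm.1 e]⟩
  have hA' : ∀ z, 2 * a ≤ ‖z - x‖ → ‖z - x‖ ≤ b / 2 → At l u z := fun z h1 h2 =>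
    hA z (hO z h1 h2)
  have D := H l u x (2 * a) (b / 2) _ (by positivity) (isOpen_ball.sdiff isClosed_closedBall) hA hO
    fun z h1 h2 => by
    have hb : ball z (‖z - x‖ / 2) ⊆ ball x b \ closedBall x a := fun y hy => by
      have h3 := mem_ball_iff_norm.1 hy
      have h4 := norm_sub_le_norm_sub_add_norm_sub y z x
      have h5 := norm_sub_le_norm_sub_add_norm_sub z y x
      rw [norm_sub_rev z y] at h5
      exact ⟨mem_ball_iff_norm.2 (by linarith), fun e => by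
        linarith [mem_closedBall_iff_norm.1 e]⟩
    have := H' l u z _ (by linarith) (fun y hy => hA y (hb hy)) ((measure_mono hb).trans hE)
    linarith
  have hm : ∀ y ∈ closedBall x (b / T) \ ball x (T * a), T * a ≤ ‖y - x‖ ∧ T * ‖y - x‖ ≤ b :=
    fun y hy => ⟨not_lt.1 fun e => hy.2 (mem_ball_iff_norm.2 e),
      (le_div_iff₀' hT0).1 (mem_closedBall_iff_norm.1 hy.1)⟩
  have hr : ∀ t, T * a ≤ t → T * t ≤ b → 0 < t ∧ 0 < b ∧ 2 * a ≤ t ∧ t ≤ b / 2 ∧
      (2 * a / t) ^ μ ≤ (2 / T) ^ μ ∧ (t / (b / 2)) ^ μ ≤ (2 / T) ^ μ := fun t h1 h2 => by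
    have p1 : 0 < t := lt_of_lt_of_le (by positivity) h1
    have p2 : 0 < b := lt_of_lt_of_le (by positivity) h2
    exact ⟨p1, p2, by nlinarith, by nlinarith, Real.rpow_le_rpow (by positivity)
      (by rw [div_le_div_iff₀ p1 hT0]; nlinarith) hμ.le, Real.rpow_le_rpow (by positivity)
      (by rw [div_le_div_iff₀ (by positivity) hT0]; nlinarith) hμ.le⟩
  constructor
  · rcases (closedBall x (b / T) \ ball x (T * a)).eq_empty_or_nonempty with e | ⟨y₀, hy₀⟩
    · rw [e, measure_empty]; exact zero_le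
    have hb := (hr _ (hm y₀ hy₀).1 (hm y₀ hy₀).2).2.1
    have hi : Integrable fun z => 2 * (C * 2 ^ μ) ^ 2 * (tls μ T x a z + tls μ T x b z) :=
      ((integrable_tls hμ T x ha).add (integrable_tls hμ T x hb)).const_mul _
    rw [em_apply' u (measurableSet_closedBall.diff measurableSet_ball)]
    refine (setLIntegral_mono' (measurableSet_closedBall.diff measurableSet_ball)
      (g := fun z => ENNReal.ofReal (2 * (C * 2 ^ μ) ^ 2 * (tls μ T x a z + tls μ T x b z)))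
      fun y hy => ?_).trans ((setLIntegral_le_lintegral _ _).trans ?_)
    · rw [enorm_sq_eq]
      refine ENNReal.ofReal_le_ofReal ?_
      obtain ⟨h1, h2⟩ := hm y hy
      obtain ⟨p1, -, p3, p4, -⟩ := hr _ h1 h2
      have h6 := D y p3 p4
      rw [tls_eq μ ha (Or.inr h1), tls_eq μ hb (Or.inl h2)]
      generalize ‖y - x‖ = t at *
      rw [min_eq_right (((div_le_one p1).2 (by linarith)).trans ((one_le_div ha).2 (by linarith))),
        min_eq_left (((div_le_one hb).2 (by linarith)).trans ((one_le_div p1).2 (by linarith)))]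
      have k3 : ‖fderiv ℝ u y‖ ≤ C * 2 ^ μ * ((a / t) ^ μ / t + (t / b) ^ μ / t) := by
        rw [← add_div, ← mul_div_assoc, le_div_iff₀' p1]
        refine h6.trans_eq ?_
        rw [mul_div_assoc, div_div_eq_mul_div, mul_comm t, mul_div_assoc,
          Real.mul_rpow (by norm_num) (by positivity), Real.mul_rpow (by norm_num) (by positivity)]
        ring
      refine (pow_le_pow_left₀ (norm_nonneg _) k3 2).trans ?_
      rw [mul_pow, mul_comm 2, mul_assoc]
      refine mul_le_mul_of_nonneg_left ?_ (sq_nonneg _)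
      nlinarith [sq_nonneg ((a / t) ^ μ / t - (t / b) ^ μ / t)]
    · rw [← ofReal_integral_eq_lintegral_ofReal hi (Eventually.of_forall fun z => mul_nonneg
        (by positivity) (add_nonneg (tls_nonneg _ _ _ _ _) (tls_nonneg _ _ _ _ _))),
        integral_const_mul, integral_add (integrable_tls hμ T x ha) (integrable_tls hμ T x hb),
        integral_tls μ T x ha, integral_tls μ T x hb]
      exact ENNReal.ofReal_le_ofReal (by linarith)
  have key : ∀ y ∈ closedBall x (b / T) \ ball x (T * a),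
      ∀ y' ∈ closedBall x (b / T) \ ball x (T * a), ‖y' - x‖ ≤ ‖y - x‖ → dist (u y) (u y') ≤ η := by
    intro y hy y' hy' hle
    obtain ⟨h1, h2⟩ := hm y hy
    obtain ⟨h1', h2'⟩ := hm y' hy'
    obtain ⟨p1, hb, p3, p4, -, p6⟩ := hr _ h1 h2
    obtain ⟨q1, -, q3, q4, q5, q6⟩ := hr _ h1' h2'
    have pol : ∀ y : ℂ, 0 < ‖y - x‖ → ∃ w : ℂ, ‖w‖ = 1 ∧ y = x + ‖y - x‖ • w := fun y ht =>
      ⟨‖y - x‖⁻¹ • (y - x), by rw [norm_smul, norm_inv, norm_norm, inv_mul_cancel₀ ht.ne'],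
        by rw [smul_inv_smul₀ ht.ne', add_sub_cancel]⟩
    obtain ⟨w, hw, e⟩ := pol y p1
    obtain ⟨w', hw', e'⟩ := pol y' q1
    have hn : ∀ τ : ℝ, 0 < τ → ‖x + τ • w - x‖ = τ := fun τ h => by
      rw [add_sub_cancel_left, norm_smul, hw, mul_one, Real.norm_of_nonneg h.le]
    generalize ‖y - x‖ = t at *
    generalize ‖y' - x‖ = t' at *
    have k1 := ray_bound (u := u) (a := x) hw (r := 2 * a) (R := b / 2) (by positivity)
      (by positivity) hμ hC q1 hle (fun τ e1 e2 => (S.c1 (hA' _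
        (by rw [hn τ (by linarith)]; linarith)
        (by rw [hn τ (by linarith)]; linarith))).differentiableAt one_ne_zero) fun τ e1 e2 => by
      have := D (x + τ • w) (by rw [hn τ (by linarith)]; linarith)
        (by rw [hn τ (by linarith)]; linarith)
      rwa [hn τ (by linarith)] at this
    have k2 := circle_bound (u := u) (a := x) hw hw' (M := C * (2 * (2 / T) ^ μ)) q1 fun z hz =>
      ⟨(S.c1 (hA' z (hz ▸ q3) (hz ▸ q4))).differentiableAt one_ne_zero, by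
        have := D z (hz ▸ q3) (hz ▸ q4)
        rw [hz] at this
        exact this.trans (mul_le_mul_of_nonneg_left (by linarith) hC)⟩
    have k3 : C / μ * ((2 * a / t') ^ μ + (t / (b / 2)) ^ μ) ≤ C / μ * (2 * (2 / T) ^ μ) :=
      mul_le_mul_of_nonneg_left (by linarith) (by positivity)
    rw [e, e', dist_eq_norm]
    linarith [norm_sub_le_norm_sub_add_norm_sub (u (x + t • w)) (u (x + t' • w)) (u (x + t' • w'))]
  intro y hy y' hy'
  rcases le_total ‖y' - x‖ ‖y - x‖ with h1 | h1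
  · exact key y hy y' hy' h1
  · rw [dist_comm]; exact key y' hy' y hy h1

/-- One constant for the mean value inequality and the annulus lemma. -/
theorem Sup.mv_ann (S : Sup At) : ∃ h > 0,
    (∃ C : ℝ, ∀ l u x r, 0 < r → (∀ z ∈ ball x r, At l u z) →
      em u (ball x r) ≤ ENNReal.ofReal h → r * ‖fderiv ℝ u x‖ ≤ C) ∧
    ∀ η > 0, ∃ T ≥ (1 : ℝ), ∀ l u x a b, 0 < a → (∀ z ∈ ball x b \ closedBall x a, At l u z) →
      em u (ball x b \ closedBall x a) ≤ ENNReal.ofReal h →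
      em u (closedBall x (b / T) \ ball x (T * a)) ≤ ENNReal.ofReal η ∧
        ∀ y ∈ closedBall x (b / T) \ ball x (T * a),
          ∀ y' ∈ closedBall x (b / T) \ ball x (T * a), dist (u y) (u y') ≤ η := by
  obtain ⟨h, hh, H⟩ := S.mv one_pos
  obtain ⟨h', hh', H'⟩ := S.ann
  refine ⟨min h h', lt_min hh hh', ⟨1, fun l u x r hr hA hE => H l u x r hr hA
    (hE.trans (ENNReal.ofReal_le_ofReal (min_le_left _ _)))⟩, fun η hη => ?_⟩
  obtain ⟨T, hT, H''⟩ := H' η hη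
  exact ⟨T, hT, fun l u x a b ha hA hE => H'' l u x a b ha hA
    (hE.trans (ENNReal.ofReal_le_ofReal (min_le_right _ _)))⟩

/-- Equicontinuity of the derivative. -/
theorem Sup.equi (S : Sup At) (r L η : ℝ) (hr : 0 < r) (hη : 0 < η) :
    ∃ δ > 0, ∀ l u x, (∀ z ∈ ball x r, At l u z ∧ ‖fderiv ℝ u z‖ ≤ L) →
      ∀ y ∈ ball x δ, ‖fderiv ℝ u y - fderiv ℝ u x‖ ≤ η := by
  obtain ⟨C, hC, H⟩ := S.est (L * r)
  refine ⟨min (r / 2) (r * (η * r / (C + 1)) ^ 2), by positivity, fun l u x hA y hy => ?_⟩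
  have h1 := mem_ball_iff_norm.1 hy
  refine (H l u x r hr (fun z hz => (hA z hz).1) (fun z hz => by
    rw [mul_div_cancel_right₀ _ hr.ne']; exact (hA z hz).2) y
    (ball_subset_ball (min_le_left _ _) hy)).trans ?_
  have h2 : √(‖y - x‖ / r) ≤ η * r / (C + 1) := Real.sqrt_le_iff.2 ⟨by positivity,
    (div_le_iff₀' hr).2 (h1.le.trans (min_le_right _ _))⟩
  refine (mul_le_mul_of_nonneg_left h2 (by positivity)).trans ?_
  rw [div_mul_div_comm, div_le_iff₀ (by positivity)]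
  nlinarith [mul_pos hη hr]

end Pool.Agent.Lib.MP_1c0d65_gt.C
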