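import Pool.Agent.Lib.MP_1c0d65_gt.C.Frm
import Pool.Agent.Lib.MP_1c0d65_gt.C.LocA
import Pool.Agent.Lib.MP_1c0d65_gt.C.OfEst
import Pool.Agent.Lib.MP_1c0d65_gt.C.Equi
import Pool.Agent.Lib.MP_1c0d65_gt.A.Est
import Pool.Agent.Lib.MP_1c0d65_gt.A.Rem2

/-! The local analytic facts for a target with local holomorphic coordinates. -/

set_option autoImplicit false

open scoped ContDiff Topology
open Set Filter Metric

namespace Pool.Agent.Lib.MP_1c0d65_gt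

variable {V F : Type} [NormedAddCommGroup V] [NormedSpace ℝ V] [FiniteDimensional ℝ V]
  [NormedAddCommGroup F] [NormedSpace ℝ F] [FiniteDimensional ℝ F]

omit [FiniteDimensional ℝ V] [FiniteDimensional ℝ F] in
theorem Tg.Hol.congr {T : Tg V F} {u v : ℂ → V} {z : ℂ} (h : T.Hol u z) (e : u =ᶠ[𝓝 z] v) :
    T.Hol v z := by
  rw [T.hol_iff] at h ⊢
  exact ⟨h.1.congr_of_eventuallyEq e.symm, e.eq_of_nhds ▸ e.fderiv_eq (𝕜 := ℝ) ▸ h.2⟩

omit [FiniteDimensional ℝ V] [FiniteDimensional ℝ F] in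
/-- The equation holds at a point if it holds near the point. -/
theorem Tg.hol_of_punct (T : Tg V F) {v : ℂ → V} {a : ℂ} (hv : ContDiffAt ℝ 1 v a)
    (h : ∀ᶠ z in 𝓝[≠] a, T.Hol v z) : T.Hol v a :=
  T.hol_iff.2 ⟨hv, T.Q_of_tendsto (h.mono fun _ hz => (T.hol_iff.1 hz).2)
    (hv.continuousAt.tendsto.mono_left nhdsWithin_le_nhds)
    ((hv.continuousAt_fderiv one_ne_zero).tendsto.mono_left nhdsWithin_le_nhds)⟩

theorem Tg.sup (T : Tg V F) : C.Sup fun (_ : Unit) w z => T.Hol w z := by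
  obtain ⟨C, δ, hδ, H⟩ := T.exists_locHol
  refine ⟨fun h => h.2.1, fun B => ?_, ?_, ?_⟩
  · obtain ⟨C', h0, h⟩ := A.est V (Cx F × Cx V) C B hδ
    exact ⟨C', h0, fun _ u x r hr hu hB y hy => h _ u x r hr (H _ u isOpen_ball hu) Subset.rfl hB y
      hy x (mem_ball_self (half_pos hr))⟩
  · obtain ⟨ε, C', h0, h1, h⟩ := A.dec V (Cx F × Cx V) C hδ (μ := 1 / 2) one_half_pos one_half_lt_one
    exact ⟨ε, C' * ε, 1 / 2, h0, mul_nonneg h1 h0.le, one_half_pos, fun _ u a r R O hr hO hu hs =>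
      h O u a r R ε hr le_rfl (H O u hO hu) fun z hz => hs z hz.1 hz.2⟩
  · obtain ⟨ε, h0, h⟩ := A.rem' V (Cx F × Cx V) C hδ
    refine ⟨ε, h0, fun _ u a r hr hu hm => ?_⟩
    obtain ⟨p, hp⟩ := h u a r hr (H _ u (isOpen_ball.sdiff isClosed_singleton) hu) hm
    refine ⟨p, T.hol_of_punct hp ?_⟩
    filter_upwards [nhdsWithin_le_nhds (ball_mem_nhds a hr), self_mem_nhdsWithin] with z h1 h2
    exact (hu z ⟨h1, h2⟩).congr (A.update_ev u p h2).symm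

theorem Tg.exists_fam (T : Tg V F) :
    ∃ Φ : C.Fam Unit V, Φ.K = T.K ∧ ∀ l w z, Φ.At l w z ↔ T.Hol w z := by
  obtain ⟨h, hh, h1, h2⟩ := T.sup.mv_ann
  refine ⟨⟨fun _ w z => T.Hol w z, T.K, T.cpt, h, hh, fun h => h.1, fun h => h.2.1,
    fun h e => h.congr e, fun {_ u x δ y} _ h => T.comp ?_ h, h1,
    C.cpt_of_equi T.cpt (fun h => h.1) (fun h => h.2.1) T.sup.equi
      fun _ _ _ _ _ _ _ h hv h3 h4 => T.hol_iff.2
        ⟨hv, T.Q_of_tendsto (h.mono fun _ hz => (T.hol_iff.1 hz).2) h3 h4⟩,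
    h2, T.sup.rem'⟩, rfl, fun _ _ _ => Iff.rfl⟩
  exact analyticAt_const.add (analyticAt_const.mul analyticAt_id :
    AnalyticAt ℂ (fun y : ℂ => (δ : ℂ) * y) y)

end Pool.Agent.Lib.MP_1c0d65_gt
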