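import Pool.Agent.Lib.MP_1c0d65_gt.C.LocA
import Pool.Agent.Lib.MP_1c0d65_gt.A.Reg

/-! Holomorphic curves in a target are smooth. -/

open scoped ContDiff Topology
open Set Filter Metric

namespace Pool.Agent.Lib.MP_1c0d65_gt

variable {V F : Type} [NormedAddCommGroup V] [NormedSpace ℝ V] [FiniteDimensional ℝ V]
  [NormedAddCommGroup F] [NormedSpace ℝ F] [FiniteDimensional ℝ F]

set_option linter.unusedSectionVars false

theorem Tg.smooth (T : Tg V F) {w : ℂ → V} {z : ℂ} (h : ∀ᶠ y in 𝓝 z, T.Hol w y) :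
    ContDiffAt ℝ ∞ w z := by
  obtain ⟨n, Ψ, P, G, H, h1, h2, h3, h4⟩ := T.chart h
  exact (ContDiffAt.comp z (f := G ∘ w) h3 (A.reg (u := G ∘ w) h1
    (Function.LeftInverse.injective (h2 _)) h4.self_of_nhds.1
    (h4.mono fun y hy => hy.2.1))).congr_of_eventuallyEq (h4.mono fun y hy => hy.2.2.symm)

end Pool.Agent.Lib.MP_1c0d65_gt
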