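import Pool.Agent.Lib.MP_1c0d65_gt.C.Aff

/-! The outer limit of a sequence of bounded energy, off finitely many points. -/

set_option autoImplicit false

namespace Pool.Agent.Lib.MP_1c0d65_gt.C

open MeasureTheory Filter Metric Set Topology
open scoped ENNReal

variable {E : Type} [NormedAddCommGroup E] [NormedSpace ℝ E]

/-- The scale `1 / (k + 1)`. -/
noncomputable def ep (k : ℕ) : ℝ := 1 / ((k : ℝ) + 1)

theorem ep_pos (k : ℕ) : 0 < ep k := Nat.one_div_pos_of_nat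

theorem ep_le_one (k : ℕ) : ep k ≤ 1 := by
  rw [ep, div_le_one (by positivity)]; linarith [Nat.cast_nonneg (α := ℝ) k]

theorem ep_anti : Antitone ep := fun _ _ h => Nat.one_div_le_one_div h

theorem tendsto_ep : Tendsto ep atTop (𝓝 0) := tendsto_one_div_add_atTop_nhds_zero_nat

theorem ep_sq_le (k : ℕ) : ep k ^ 2 ≤ ep k := by nlinarith [ep_pos k, ep_le_one k]

theorem ev_sep (T : Finset ℂ) :
    ∀ᶠ k in atTop, ∀ z ∈ T, ∀ z' ∈ T, z ≠ z' → ep k + ep k ≤ dist z z' :=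
  (eventually_all_finset T).2 fun z _ => (eventually_all_finset T).2 fun z' _ => by
    by_cases e : z = z'
    · exact Eventually.of_forall fun _ h => (h e).elim
    · exact ((tendsto_ep.add tendsto_ep).eventually_le_const
        (by rw [add_zero]; exact dist_pos.2 e)).mono fun _ h _ => h

/-- An exhaustion of the complement of `Z` by compact sets. -/
def Sk (Z : Finset ℂ) (k : ℕ) : Set ℂ := closedBall 0 k \ ⋃ z ∈ Z, ball z (ep k ^ 2)

theorem mem_Sk {Z : Finset ℂ} {k : ℕ} {y : ℂ} :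
    y ∈ Sk Z k ↔ ‖y‖ ≤ k ∧ ∀ z ∈ Z, ep k ^ 2 ≤ dist y z := by
  simp [Sk]

theorem isCompact_Sk (Z : Finset ℂ) (k : ℕ) : IsCompact (Sk Z k) :=
  (isCompact_closedBall _ _).diff (isOpen_biUnion fun _ _ => isOpen_ball)

theorem Sk_sub (Z : Finset ℂ) (k : ℕ) : Sk Z k ⊆ (Z : Set ℂ)ᶜ := fun y hy hz => by
  have := (mem_Sk.1 hy).2 y hz
  rw [dist_self] at this
  exact this.not_gt (pow_pos (ep_pos k) 2)

theorem Sk_mono (Z : Finset ℂ) : Monotone (Sk Z) := fun k k' h y hy => by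
  rw [mem_Sk] at hy ⊢
  exact ⟨hy.1.trans (by exact_mod_cast h), fun z hz =>
    (pow_le_pow_left₀ (ep_pos _).le (ep_anti h) 2).trans (hy.2 z hz)⟩

theorem iUnion_Sk (Z : Finset ℂ) : ⋃ k, Sk Z k = (Z : Set ℂ)ᶜ := by
  refine (iUnion_subset (Sk_sub Z)).antisymm fun y hy => ?_
  have h1 : ∀ᶠ k : ℕ in atTop, ∀ z ∈ Z, ep k ^ 2 ≤ dist y z :=
    (eventually_all_finset Z).2 fun z hz =>
      (tendsto_ep.eventually_le_const (dist_pos.2 fun e : y = z => hy (e ▸ hz))).mono fun k hk =>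
        (ep_sq_le k).trans hk
  obtain ⟨k, hk⟩ := ((tendsto_natCast_atTop_atTop.eventually_ge_atTop ‖y‖).and h1).exists
  exact mem_iUnion.2 ⟨k, mem_Sk.2 hk⟩

theorem em_finset (v : ℂ → E) (Z : Finset ℂ) : em v Z = 0 := em_ac v (Z.finite_toSet.measure_zero _)

theorem tendsto_em_compl {v : ℂ → E} (h : em v univ ≠ ⊤) (Z : Finset ℂ) :
    Tendsto (fun k => em v (Sk Z k)ᶜ) atTop (𝓝 0) := by
  have := tendsto_measure_iInter_atTop (μ := em v) (s := fun k => (Sk Z k)ᶜ)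
    (fun k => (isCompact_Sk Z k).measurableSet.compl.nullMeasurableSet)
    (fun _ _ h => compl_subset_compl.2 (Sk_mono Z h))
    ⟨0, ne_top_of_le_ne_top h (measure_mono (subset_univ _))⟩
  rwa [← compl_iUnion, iUnion_Sk, compl_compl, em_finset] at this

theorem den_unif {𝒰 : Filter ℕ} {w : ℕ → ℂ → E} {v : ℂ → E} {S : Set ℂ} (hS : IsCompact S)
    (hv : ∀ z ∈ S, ContDiffAt ℝ 1 v z) (h0 : TendstoUniformlyOn w v 𝒰 S)
    (h1 : TendstoUniformlyOn (fun n => fderiv ℝ (w n)) (fderiv ℝ v) 𝒰 S)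
    {g : E → (ℂ →L[ℝ] E) → ℝ} (hg : Continuous fun p : E × (ℂ →L[ℝ] E) => g p.1 p.2) :
    TendstoUniformlyOn (fun n => den g (w n)) (den g v) 𝒰 S := by
  intro r hr
  have hc : ContinuousOn (fun z => (v z, fderiv ℝ v z)) S := fun z hz =>
    ((hv z hz).continuousAt.prodMk ((hv z hz).continuousAt_fderiv one_ne_zero)).continuousWithinAt
  have h := (hS.image_of_continuousOn hc).uniformContinuousAt_of_continuousAt _
    (fun _ _ => hg.continuousAt) hr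
  obtain ⟨ε, hε, h⟩ := mem_uniformity_dist.1 h
  filter_upwards [tendstoUniformlyOn_iff.1 h0 ε hε, tendstoUniformlyOn_iff.1 h1 ε hε]
    with n a b z hz
  exact h (a := (v z, fderiv ℝ v z)) (b := (w n z, fderiv ℝ (w n) z))
    (by rw [Prod.dist_eq]; exact max_lt (a z hz) (b z hz)) (mem_image_of_mem _ hz)

theorem em_close {𝒰 : Filter ℕ} {w : ℕ → ℂ → E} {v : ℂ → E} {S : Set ℂ} (hS : IsCompact S)
    (hv : ∀ z ∈ S, ContDiffAt ℝ 1 v z) (h0 : TendstoUniformlyOn w v 𝒰 S)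
    (h1 : TendstoUniformlyOn (fun n => fderiv ℝ (w n)) (fderiv ℝ v) 𝒰 S) {η : ℝ≥0∞} (hη : 0 < η) :
    ∀ᶠ n in 𝒰, ∀ A ⊆ S, MeasurableSet A → em (w n) A ≤ em v A + η ∧ em v A ≤ em (w n) A + η := by
  obtain ⟨ε, hε, he⟩ : ∃ ε > (0 : ℝ), ENNReal.ofReal ε * volume S ≤ η := by
    obtain ⟨ε, hε, he⟩ := ENNReal.exists_nnreal_pos_mul_lt (a := volume S) hS.measure_lt_top.ne hη.ne'
    exact ⟨ε, hε, by rw [ENNReal.ofReal_coe_nnreal]; exact he.le⟩
  have h := den_unif hS hv h0 h1 (g := fun _ A => ‖A‖ ^ 2) (by fun_prop)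
  filter_upwards [tendstoUniformlyOn_iff.1 h ε hε] with n hn A hA hm
  have h' : ∀ z ∈ S, |‖fderiv ℝ v z‖ ^ 2 - ‖fderiv ℝ (w n) z‖ ^ 2| < ε := hn
  exact ⟨(em_le_of hm hA hε.le fun z hz => by linarith [abs_lt.1 (h' z hz)]).trans
      (add_le_add_right he _),
    (em_le_of hm hA hε.le fun z hz => by linarith [abs_lt.1 (h' z hz)]).trans
      (add_le_add_right he _)⟩

variable {Λ : Type} [TopologicalSpace Λ]

/-- A sequence of solutions of bounded energy on domains that exhaust the plane. -/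
structure Seq (F : Fam Λ E) (𝒰 : Filter ℕ) (lam : ℕ → Λ) (w : ℕ → ℂ → E) (D : ℕ → Set ℂ) :
    Prop where
  meas : ∀ n, MeasurableSet (D n)
  big : ∀ R, ∀ᶠ n in 𝒰, ball 0 R ⊆ D n
  sol : ∀ᶠ n in 𝒰, ∀ z ∈ D n, F.At (lam n) (w n) z
  bd : ∃ M, M ≠ ⊤ ∧ ∀ᶠ n in 𝒰, em (w n) (D n) ≤ M

/-- The outer limit `v`, with the points `Z` of concentration. -/
structure Out (F : Fam Λ E) (𝒰 : Filter ℕ) (l : Λ) (w : ℕ → ℂ → E) (Z : Finset ℂ) (v : ℂ → E) :
    Prop where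
  sol : ∀ z, F.At l v z
  fin : em v univ ≠ ⊤
  u0 : ∀ S, IsCompact S → S ⊆ (Z : Set ℂ)ᶜ → TendstoUniformlyOn w v 𝒰 S
  u1 : ∀ S, IsCompact S → S ⊆ (Z : Set ℂ)ᶜ →
    TendstoUniformlyOn (fun n => fderiv ℝ (w n)) (fderiv ℝ v) 𝒰 S
  heavy : ∀ z ∈ Z, ∀ r > 0, ∀ᶠ n in 𝒰, ENNReal.ofReal F.hb < em (w n) (ball z r)

variable {F : Fam Λ E} {𝒰 : Ultrafilter ℕ} {lam : ℕ → Λ} {l : Λ} {w : ℕ → ℂ → E} {D : ℕ → Set ℂ}

theorem Seq.ball_sub {𝒰 : Filter ℕ} (h : Seq F 𝒰 lam w D) (x : ℂ) (r : ℝ) :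
    ∀ᶠ n in 𝒰, ball x r ⊆ D n :=
  (h.big (‖x‖ + r)).mono fun _ hn => (ball_subset_ball' (by rw [dist_zero_right, add_comm])).trans hn

theorem Seq.finite (h : Seq F 𝒰 lam w D) :
    {z | ∀ r > 0, ∀ᶠ n in 𝒰, ENNReal.ofReal F.hb < em (w n) (ball z r)}.Finite := by
  by_contra hi
  obtain ⟨M, hM, hb⟩ := h.bd
  obtain ⟨N, hN⟩ := ENNReal.exists_nat_mul_gt (ENNReal.ofReal_pos.2 F.hb_pos).ne' hM
  obtain ⟨T, hT, hc⟩ := Set.Infinite.exists_subset_card_eq hi N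
  obtain ⟨r, hr, hd⟩ : ∃ r > 0, (T : Set ℂ).PairwiseDisjoint fun z => ball z r := by
    obtain ⟨k, hk⟩ := (ev_sep T).exists
    exact ⟨_, ep_pos k, fun z hz z' hz' e => ball_disjoint_ball (hk z hz z' hz' e)⟩
  have h1 : ∀ᶠ n in 𝒰, ∀ z ∈ T, ENNReal.ofReal F.hb < em (w n) (ball z r) ∧ ball z r ⊆ D n :=
    (eventually_all_finset T).2 fun z hz => (hT hz r hr).and (h.ball_sub z r)
  obtain ⟨n, h1, h2⟩ := (h1.and hb).exists
  refine hN.not_ge (le_trans ?_ ((measure_mono (iUnion₂_subset fun z hz => (h1 z hz).2)).trans h2))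
  rw [measure_biUnion_finset hd fun _ _ => measurableSet_ball, ← hc, ← nsmul_eq_mul]
  exact Finset.card_nsmul_le_sum _ _ _ fun z hz => (h1 z hz).1.le

theorem Seq.local (h : Seq F 𝒰 lam w D) (hl : Tendsto lam 𝒰 (𝓝 l)) {x : ℂ}
    (hx : ¬ ∀ r > 0, ∀ᶠ n in 𝒰, ENNReal.ofReal F.hb < em (w n) (ball x r)) :
    ∃ ρ > 0, (∀ z ∈ ball x ρ, F.At l (fun y => limUnder 𝒰 fun n => w n y) z) ∧
      TendstoUniformlyOn w (fun y => limUnder 𝒰 fun n => w n y) 𝒰 (ball x ρ) ∧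
      TendstoUniformlyOn (fun n => fderiv ℝ (w n))
        (fderiv ℝ fun y => limUnder 𝒰 fun n => w n y) 𝒰 (ball x ρ) := by
  simp only [not_forall, ← Ultrafilter.eventually_not, not_lt] at hx
  obtain ⟨r, hr, hx⟩ := hx
  obtain ⟨C, hC⟩ := F.mv
  obtain ⟨ρ, hρ, v, hv, h0, h1⟩ := F.cpt 𝒰 lam l w x (r / 2) (C / (r / 2)) (half_pos hr) hl (by
    filter_upwards [hx, h.ball_sub x r, h.sol] with n a b c z hz
    have hs : ball z (r / 2) ⊆ ball x r := ball_subset_ball' (by linarith [mem_ball.1 hz])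
    refine ⟨c z (b (ball_subset_ball (half_le_self hr.le) hz)), ?_⟩
    rw [le_div_iff₀' (half_pos hr)]
    exact hC _ _ z _ (half_pos hr) (fun y hy => c y (b (hs hy))) ((measure_mono hs).trans a))
  have e : EqOn v (fun y => limUnder 𝒰 fun n => w n y) (ball x ρ) := fun y hy =>
    (h0.tendsto_at hy).limUnder_eq.symm
  have e' : ∀ z ∈ ball x ρ, v =ᶠ[𝓝 z] fun y => limUnder 𝒰 fun n => w n y := fun z hz =>
    e.eventuallyEq_of_mem (isOpen_ball.mem_nhds hz)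
  exact ⟨ρ, hρ, fun z hz => F.congr (hv z hz) (e' z hz), h0.congr_right e,
    h1.congr_right fun z hz => (e' z hz).fderiv_eq⟩

theorem unif_of_local {X : Type} [PseudoMetricSpace X] {𝒰 : Filter ℕ} {f : ℕ → ℂ → X} {f' : ℂ → X}
    {S : Set ℂ} (hS : IsCompact S) (h : ∀ x ∈ S, ∃ ρ > 0, TendstoUniformlyOn f f' 𝒰 (ball x ρ)) :
    TendstoUniformlyOn f f' 𝒰 S :=
  (tendstoLocallyUniformlyOn_iff_tendstoUniformlyOn_of_compact hS).1 fun u hu x hx => by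
    obtain ⟨ρ, hρ, h⟩ := h x hx
    exact ⟨_, mem_nhdsWithin_of_mem_nhds (ball_mem_nhds x hρ), h u hu⟩

theorem Seq.exists_out (h : Seq F 𝒰 lam w D) (hl : Tendsto lam 𝒰 (𝓝 l)) :
    ∃ Z v, Out F 𝒰 l w Z v := by
  classical
  obtain ⟨Z, hZ⟩ := h.finite.exists_finset_coe
  set v0 : ℂ → E := fun y => limUnder 𝒰 fun n => w n y
  have hloc := fun x (hx : x ∈ (Z : Set ℂ)ᶜ) => h.local hl (x := x) (by rwa [hZ] at hx)
  have hs : ∀ x ∈ (Z : Set ℂ)ᶜ, F.At l v0 x := fun x hx => by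
    obtain ⟨ρ, hρ, h, -⟩ := hloc x hx
    exact h x (mem_ball_self hρ)
  have h0 : ∀ S, IsCompact S → S ⊆ (Z : Set ℂ)ᶜ → TendstoUniformlyOn w v0 𝒰 S := fun S hS hZ =>
    unif_of_local hS fun x hx => (hloc x (hZ hx)).imp fun _ h => ⟨h.1, h.2.2.1⟩
  have h1 : ∀ S, IsCompact S → S ⊆ (Z : Set ℂ)ᶜ →
      TendstoUniformlyOn (fun n => fderiv ℝ (w n)) (fderiv ℝ v0) 𝒰 S := fun S hS hZ =>
    unif_of_local hS fun x hx => (hloc x (hZ hx)).imp fun _ h => ⟨h.1, h.2.2.2⟩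
  have hf : em v0 univ ≠ ⊤ := by
    obtain ⟨M, hM, hb⟩ := h.bd
    have : em v0 (Z : Set ℂ)ᶜ ≤ M + 1 := by
      rw [← iUnion_Sk]
      refine le_of_tendsto' (tendsto_measure_iUnion_atTop (Sk_mono Z)) fun k => ?_
      obtain ⟨n, a, b, c⟩ := ((em_close (isCompact_Sk Z k) (fun z hz => F.c1 (hs z (Sk_sub Z k hz)))
        (h0 _ (isCompact_Sk Z k) (Sk_sub Z k)) (h1 _ (isCompact_Sk Z k) (Sk_sub Z k))
        one_pos).and (hb.and (h.big (k + 1)))).exists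
      refine (a _ Subset.rfl (isCompact_Sk Z k).measurableSet).2.trans (add_le_add_left
        ((measure_mono (sdiff_subset.trans ((closedBall_subset_ball ?_).trans c))).trans b) _)
      exact lt_add_one _
    rw [← union_compl_self (Z : Set ℂ)]
    refine ne_top_of_le_ne_top ?_ ((measure_union_le _ _).trans (add_le_add_right this _))
    rw [em_finset, zero_add]
    exact ENNReal.add_ne_top.2 ⟨hM, ENNReal.one_ne_top⟩
  have hn : ∀ z, ((Z : Set ℂ) \ {z})ᶜ ∈ 𝓝 z := fun z =>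
    (Z.finite_toSet.subset sdiff_subset).isClosed.isOpen_compl.mem_nhds fun h => h.2 rfl
  have hp : ∀ z, ∃ p, F.At l (Function.update v0 z p) z := fun z => by
    obtain ⟨r, hr, hb⟩ := Metric.mem_nhds_iff.1 (hn z)
    exact F.rem l v0 z r hr (fun y hy => hs y fun hZ => hb hy.1 ⟨hZ, hy.2⟩)
      (ne_top_of_le_ne_top hf (measure_mono (subset_univ _)))
  choose p hp using hp
  have e : ∀ z ∈ (Z : Set ℂ)ᶜ, v0 =ᶠ[𝓝 z] fun y => if y ∈ Z then p y else v0 y := fun z hz => by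
    filter_upwards [Z.finite_toSet.isClosed.isOpen_compl.mem_nhds hz] with y hy
    exact (if_neg hy).symm
  refine ⟨Z, fun y => if y ∈ Z then p y else v0 y, fun z => ?_, ?_, fun S hS hZ => ?_,
    fun S hS hZ => ?_, fun z hz => ?_⟩
  · by_cases hz : z ∈ Z
    · refine F.congr (hp z) ?_
      filter_upwards [hn z] with y hy
      by_cases e : y = z
      · rw [e, Function.update_self, if_pos hz]
      · rw [Function.update_of_ne e, if_neg fun h : y ∈ Z => hy ⟨h, e⟩]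
    · exact F.congr (hs z hz) (e z hz)
  · refine ne_of_eq_of_ne ?_ hf
    rw [em_apply, em_apply, Measure.restrict_univ]
    refine lintegral_congr_ae ?_
    filter_upwards [compl_mem_ae_iff.2 (Z.finite_toSet.measure_zero volume)] with z hz
    rw [(e z hz).fderiv_eq]
  · exact (h0 S hS hZ).congr_right fun z hz => (e z (hZ hz)).eq_of_nhds
  · exact (h1 S hS hZ).congr_right fun z hz => (e z (hZ hz)).fderiv_eq
  · have : z ∈ (Z : Set ℂ) := hz
    rwa [hZ] at this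

end Pool.Agent.Lib.MP_1c0d65_gt.C
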