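import Pool.Agent.Lib.MP_1c0d65_gt.C.Out

/-! Soft rescaling: a sequence whose energy concentrates at the origin is rescaled so that no energy
is lost in the neck and every disc of radius `1 / 2` misses a quantum of energy. -/

set_option autoImplicit false

namespace Pool.Agent.Lib.MP_1c0d65_gt.C

open MeasureTheory Filter Metric Set Topology
open scoped ENNReal

variable {E : Type} [NormedAddCommGroup E] [NormedSpace ℝ E]

/-- Small energy and small oscillation on a set. -/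
def Sm (u : ℂ → E) (S : Set ℂ) (η : ℝ) : Prop :=
  em u S ≤ ENNReal.ofReal η ∧ ∀ y ∈ S, ∀ y' ∈ S, dist (u y) (u y') ≤ η

theorem Sm.mono {u : ℂ → E} {S S' : Set ℂ} {η : ℝ} (h : Sm u S η) (hS : S' ⊆ S) : Sm u S' η :=
  ⟨(measure_mono hS).trans h.1, fun y hy y' hy' => h.2 y (hS hy) y' (hS hy')⟩

theorem Sm.union {u : ℂ → E} {S S' : Set ℂ} {η : ℝ} (h : Sm u S η) (h' : Sm u S' η) {c : ℂ}
    (hc : c ∈ S) (hc' : c ∈ S') : Sm u (S ∪ S') (η + η) := by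
  have h0 : 0 ≤ η := dist_nonneg.trans (h.2 c hc c hc)
  have e : ∀ y ∈ S ∪ S', dist (u y) (u c) ≤ η := fun y hy =>
    hy.elim (fun hy => h.2 y hy c hc) fun hy => h'.2 y hy c hc'
  refine ⟨(measure_union_le _ _).trans ?_, fun y hy y' hy' =>
    (dist_triangle_right _ _ _).trans (add_le_add (e y hy) (e y' hy'))⟩
  rw [ENNReal.ofReal_add h0 h0]
  exact add_le_add h.1 h'.1

theorem Sm.aff {u : ℂ → E} {S : Set ℂ} {η : ℝ} (h : Sm u S η) (x : ℂ) {δ : ℝ} (hδ : 0 < δ) :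
    Sm (u ∘ aff x δ) (aff x δ ⁻¹' S) η :=
  ⟨(em_aff u x hδ S).trans_le h.1, fun _ hy _ hy' => h.2 _ hy _ hy'⟩

/-- A nearly smallest disc that holds all the energy but `h`. -/
theorem exists_heavy {u : ℂ → E} {D : Set ℂ} (hf : em u D ≠ ⊤) {h : ℝ≥0∞} (h0 : h ≠ 0)
    (h2 : h + h < em u D) (hn : ∃ ρ > 0, em u (D \ ball 0 ρ) ≤ h) :
    ∃ x, ∃ δ > 0, em u (D \ ball x δ) ≤ h ∧ ∀ x', ∀ δ' > 0, em u (D \ ball x' δ') ≤ h →
      δ < 2 * δ' := by
  obtain ⟨d, hd, hs⟩ := exists_pos_setLIntegral_lt_of_measure_lt (μ := volume.restrict D)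
    (by rwa [em_apply] at hf) h0
  obtain ⟨c, hc, hcd⟩ := ENNReal.exists_nnreal_pos_mul_lt (a := NNReal.pi) ENNReal.coe_ne_top hd.ne'
  have hlow : ∀ δ ∈ {δ : ℝ | 0 < δ ∧ ∃ x, em u (D \ ball x δ) ≤ h}, min 1 (c : ℝ) ≤ δ := by
    rintro δ ⟨hδ, x, hx⟩
    by_contra hlt
    obtain ⟨h1, hc'⟩ := lt_min_iff.1 (not_le.1 hlt)
    have hv : volume.restrict D (ball x δ) < d := by
      refine (Measure.restrict_apply_le _ _).trans_lt (lt_of_le_of_lt ?_ hcd)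
      rw [Complex.volume_ball, ← ENNReal.ofReal_pow hδ.le, ← ENNReal.ofReal_coe_nnreal (p := c)]
      exact mul_le_mul_left (ENNReal.ofReal_le_ofReal (by nlinarith)) _
    have := hs _ hv
    rw [Measure.restrict_restrict measurableSet_ball, ← em_apply, inter_comm] at this
    refine h2.not_ge ?_
    rw [← measure_inter_add_sdiff D (measurableSet_ball (x := x) (ε := δ))]
    exact add_le_add this.le hx
  obtain ⟨ρ, hρ, hn⟩ := hn
  have hne : {δ : ℝ | 0 < δ ∧ ∃ x, em u (D \ ball x δ) ≤ h}.Nonempty := ⟨ρ, hρ, 0, hn⟩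
  have hp : 0 < sInf {δ : ℝ | 0 < δ ∧ ∃ x, em u (D \ ball x δ) ≤ h} :=
    (lt_min one_pos (NNReal.coe_pos.2 hc)).trans_le (le_csInf hne hlow)
  obtain ⟨δ, ⟨hδ, x, hx⟩, hlt⟩ := exists_lt_of_csInf_lt hne (lt_two_mul_self hp)
  exact ⟨x, δ, hδ, hx, fun x' δ' h1 h2 => hlt.trans_le
    (mul_le_mul_of_nonneg_left (csInf_le ⟨_, hlow⟩ ⟨h1, x', h2⟩) zero_le_two)⟩

variable {Λ : Type} [TopologicalSpace Λ]

/-- No energy and no oscillation escapes to infinity. -/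
structure Tight (F : Fam Λ E) (𝒰 : Filter ℕ) (lam : ℕ → Λ) (w : ℕ → ℂ → E) (D : ℕ → Set ℂ) :
    Prop extends Seq F 𝒰 lam w D where
  tight : ∀ η > 0, ∃ R, ∀ᶠ n in 𝒰, Sm (w n) (D n \ ball 0 R) η

/-- The energy concentrates at the origin. -/
structure Conc (F : Fam Λ E) (𝒰 : Filter ℕ) (lam : ℕ → Λ) (u : ℕ → ℂ → E) (D : ℕ → Set ℂ) :
    Prop where
  meas : ∀ n, MeasurableSet (D n)
  big : ∀ n, ball 0 1 ⊆ D n
  sol : ∀ᶠ n in 𝒰, ∀ z ∈ D n, F.At (lam n) (u n) z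
  mass : ∀ᶠ n in 𝒰, ENNReal.ofReal F.hb < em (u n) (D n)
  out : ∀ ρ > 0, ∀ η > 0, ∀ᶠ n in 𝒰, Sm (u n) (D n \ ball 0 ρ) η

/-- The quantum of energy. -/
noncomputable def Fam.q (F : Fam Λ E) : ℝ≥0∞ := ENNReal.ofReal (F.hb / 2)

variable {F : Fam Λ E} {𝒰 : Filter ℕ} {lam : ℕ → Λ} {u : ℕ → ℂ → E} {D : ℕ → Set ℂ}

theorem Fam.q_add (F : Fam Λ E) : F.q + F.q = ENNReal.ofReal F.hb := by
  rw [Fam.q, ← ENNReal.ofReal_add (half_pos F.hb_pos).le (half_pos F.hb_pos).le, add_halves]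

theorem Fam.q_ne (F : Fam Λ E) : F.q ≠ 0 := (ENNReal.ofReal_pos.2 (half_pos F.hb_pos)).ne'

theorem Conc.soft (h : Conc F 𝒰 lam u D) {k : ℕ}
    (hk : ∀ᶠ n in 𝒰, em (u n) (D n) ≤ (k + 1 : ℕ) * F.q) :
    ∃ (x : ℕ → ℂ) (δ : ℕ → ℝ), (∀ᶠ n in 𝒰, 0 < δ n) ∧
      Tight F 𝒰 lam (fun n => u n ∘ aff (x n) (δ n)) (fun n => aff (x n) (δ n) ⁻¹' D n) ∧
      ∀ᶠ n in 𝒰, ∀ c, em (u n ∘ aff (x n) (δ n)) (aff (x n) (δ n) ⁻¹' D n ∩ ball c (1 / 2)) ≤
        k * F.q := by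
  have hM : ((k + 1 : ℕ) : ℝ≥0∞) * F.q ≠ ⊤ :=
    ENNReal.mul_ne_top (ENNReal.natCast_ne_top _) ENNReal.ofReal_ne_top
  have hh := fun n (a : em (u n) (D n) ≤ (k + 1 : ℕ) * F.q ∧ ENNReal.ofReal F.hb < em (u n) (D n) ∧
      Sm (u n) (D n \ ball 0 1) (F.hb / 2)) =>
    exists_heavy (ne_top_of_le_ne_top hM a.1) F.q_ne (F.q_add ▸ a.2.1) ⟨1, one_pos, a.2.2.1⟩
  choose! x δ hδ h1 h2 using hh
  have hg := hk.and (h.mass.and (h.out 1 one_pos _ (half_pos F.hb_pos)))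
  have hs : ∀ ρ > 0, ∀ᶠ n in 𝒰, δ n < 2 * ρ ∧ ‖x n‖ < 3 * ρ := fun ρ hρ => by
    filter_upwards [hg, h.out ρ hρ _ (half_pos F.hb_pos)] with n a b
    have c := h2 n a 0 ρ hρ b.1
    refine ⟨c, not_le.1 fun e => a.2.1.not_ge ?_⟩
    have hd : Disjoint (ball (x n) (δ n)) (ball 0 ρ) :=
      ball_disjoint_ball (by rw [dist_zero_right]; linarith)
    have : D n ⊆ D n \ ball (x n) (δ n) ∪ D n \ ball 0 ρ := fun z hz => by
      by_cases e : z ∈ ball (x n) (δ n)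
      exacts [Or.inr ⟨hz, disjoint_left.1 hd e⟩, Or.inl ⟨hz, e⟩]
    rw [← F.q_add]
    exact (measure_mono this).trans ((measure_union_le _ _).trans (add_le_add (h1 n a) b.1))
  refine ⟨x, δ, hg.mono hδ, ⟨⟨fun n => (continuous_aff _ _).measurable (h.meas n), fun R => ?_, ?_,
    _, hM, ?_⟩, fun η hη => ?_⟩, ?_⟩
  · have hR : 0 < 3 + 2 * |R| := by positivity
    filter_upwards [hg, hs _ (inv_pos.2 hR)] with n a b y hy
    refine h.big n (mem_ball_zero_iff.2 ?_)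
    have e1 := dist_aff_self (x n) (hδ n a) y
    have e2 : ‖y‖ ≤ |R| := (mem_ball_zero_iff.1 hy).le.trans (le_abs_self R)
    have e3 := norm_le_norm_add_norm_sub' (aff (x n) (δ n) y) (x n)
    rw [← dist_eq_norm, e1] at e3
    have e4 : δ n * ‖y‖ ≤ 2 * (3 + 2 * |R|)⁻¹ * |R| :=
      mul_le_mul b.1.le e2 (norm_nonneg _) (by positivity)
    have e5 := mul_inv_cancel₀ hR.ne'
    linarith [b.2]
  · filter_upwards [hg, h.sol] with n a b y hy
    exact F.aff (hδ n a) (b _ hy)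
  · filter_upwards [hg] with n a
    rw [em_aff _ _ (hδ n a)]
    exact a.1
  · obtain ⟨T, hT, hA⟩ := F.ann (η / 2) (half_pos hη)
    have hT0 : 0 < T := one_pos.trans_le hT
    have hi : 0 < T⁻¹ := inv_pos.2 hT0
    have hi1 : T⁻¹ ≤ 1 := inv_le_one_of_one_le₀ hT
    refine ⟨T, ?_⟩
    filter_upwards [hg, h.sol, hs (T⁻¹ * T⁻¹ / 12) (by positivity),
      h.out (T⁻¹ / 4) (by positivity) _ (half_pos hη)] with n a b c d
    have hx : ‖x n‖ < T⁻¹ / 4 := by nlinarith [c.2]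
    have hb : ∀ z, dist z (x n) ≤ 1 / 2 → z ∈ D n := fun z hz => h.big n (mem_ball_zero_iff.2 (by
      have := norm_le_norm_add_norm_sub' z (x n)
      rw [← dist_eq_norm] at this
      linarith))
    have hA' : Sm (u n) (closedBall (x n) (1 / 2 / T) \ ball (x n) (T * δ n)) (η / 2) :=
      hA _ _ (x n) (δ n) (1 / 2) (hδ n a) (fun z hz => b z (hb z (mem_ball.1 hz.1).le))
        ((measure_mono fun z hz => mem_sdiff_of_mem (hb z (mem_ball.1 hz.1).le)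
          fun e => hz.2 (ball_subset_closedBall e)).trans ((h1 n a).trans (F.q_add ▸ le_self_add)))
    have e0 : 1 / 2 / T = T⁻¹ / 2 := by ring
    have hfar : ∀ z, T⁻¹ / 2 ≤ dist z (x n) → z ∉ ball (0 : ℂ) (T⁻¹ / 4) := fun z hz e => by
      have := dist_triangle z 0 (x n)
      rw [dist_zero_left] at this
      linarith [mem_ball.1 e]
    have hc : dist (x n + (T⁻¹ / 2 : ℝ)) (x n) = T⁻¹ / 2 := by
      rw [dist_self_add_left, Complex.norm_real, Real.norm_of_nonneg (by positivity)]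
    have hU := hA'.union d (c := x n + (T⁻¹ / 2 : ℝ))
      ⟨by rw [mem_closedBall, hc, e0], by
        rw [mem_ball, hc, not_lt]
        have := mul_inv_cancel₀ hT0.ne'
        nlinarith [c.1]⟩ ⟨hb _ (by rw [hc]; linarith), hfar _ hc.ge⟩
    rw [add_halves] at hU
    refine (hU.aff (x n) (hδ n a)).mono fun y hy => ?_
    by_cases e : dist (aff (x n) (δ n) y) (x n) ≤ T⁻¹ / 2
    · refine Or.inl ⟨by rwa [mem_closedBall, e0], fun e' => hy.2 ?_⟩
      rwa [← pre_ball0 (x n) (hδ n a), mul_comm]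
    · exact Or.inr ⟨hy.1, hfar _ (not_le.1 e).le⟩
  · filter_upwards [hg] with n a c
    rw [← pre_ball (x n) (hδ n a), ← preimage_inter, em_aff _ _ (hδ n a)]
    have h3 : F.q ≤ em (u n) (D n \ ball (aff (x n) (δ n) c) (δ n * (1 / 2))) := by
      by_contra e
      have := h2 n a _ _ (by have := hδ n a; positivity) (not_le.1 e).le
      linarith
    refine ENNReal.le_of_add_le_add_right (a := F.q) ENNReal.ofReal_ne_top ?_
    refine (add_le_add_right h3 _).trans ?_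
    rw [measure_inter_add_sdiff _ measurableSet_ball, ← add_one_mul, ← Nat.cast_succ]
    exact a.1

end Pool.Agent.Lib.MP_1c0d65_gt.C
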