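import Pool.Agent.Lib.MP_1c0d65_gt.C.Soft

/-! The induction on the energy. -/

set_option autoImplicit false

namespace Pool.Agent.Lib.MP_1c0d65_gt.C

open MeasureTheory Filter Metric Set Topology
open scoped ENNReal

variable {E : Type} [NormedAddCommGroup E] [NormedSpace ℝ E] {Λ : Type} [TopologicalSpace Λ]
  {F : Fam Λ E} {𝒰 : Filter ℕ} {lam : ℕ → Λ} {l : Λ} {w : ℕ → ℂ → E} {D : ℕ → Set ℂ}
  {Z : Finset ℂ} {v : ℂ → E}

/-- A slowly growing scale up to which the outer limit describes the sequence. -/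
structure Slow (F : Fam Λ E) (𝒰 : Filter ℕ) (w : ℕ → ℂ → E) (Z : Finset ℂ) (v : ℂ → E)
    (κ : ℕ → ℕ) : Prop where
  top : Tendsto κ 𝒰 atTop
  en : ∀ᶠ n in 𝒰, ∀ A ⊆ Sk Z (κ n), MeasurableSet A →
    em (w n) A ≤ em v A + ENNReal.ofReal (ep (κ n))
  ds : ∀ᶠ n in 𝒰, ∀ y ∈ Sk Z (κ n), dist (v y) (w n y) < ep (κ n)
  heavy : ∀ᶠ n in 𝒰, ∀ z ∈ Z, ENNReal.ofReal F.hb < em (w n) (ball z (ep (κ n)))

theorem Out.exists_slow (h : Out F 𝒰 l w Z v) (h𝒰 : 𝒰 ≤ atTop) : ∃ κ, Slow F 𝒰 w Z v κ := by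
  obtain ⟨κ, h1, h2⟩ := exists_diag h𝒰 (P := fun k n => (∀ A ⊆ Sk Z k, MeasurableSet A →
      em (w n) A ≤ em v A + ENNReal.ofReal (ep k)) ∧ (∀ y ∈ Sk Z k, dist (v y) (w n y) < ep k) ∧
      ∀ z ∈ Z, ENNReal.ofReal F.hb < em (w n) (ball z (ep k))) fun k => by
    have a := h.u0 _ (isCompact_Sk Z k) (Sk_sub Z k)
    have b := h.u1 _ (isCompact_Sk Z k) (Sk_sub Z k)
    exact ((em_close (isCompact_Sk Z k) (fun z _ => F.c1 (h.sol z)) a b
      (ENNReal.ofReal_pos.2 (ep_pos k))).mono fun n hn A hA hm => (hn A hA hm).1).and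
      ((tendstoUniformlyOn_iff.1 a _ (ep_pos k)).and
        ((eventually_all_finset Z).2 fun z hz => h.heavy z hz _ (ep_pos k)))
  exact ⟨κ, h1, h2.mono fun _ h => h.1, h2.mono fun _ h => h.2.1, h2.mono fun _ h => h.2.2⟩

variable {κ : ℕ → ℕ}

theorem Slow.ep_le (h : Slow F 𝒰 w Z v κ) {η : ℝ} (hη : 0 < η) : ∀ᶠ n in 𝒰, ep (κ n) ≤ η :=
  (tendsto_ep.comp h.top).eventually_le_const hη

theorem Slow.le (h : Slow F 𝒰 w Z v κ) (R : ℝ) : ∀ᶠ n in 𝒰, R ≤ κ n :=
  (tendsto_natCast_atTop_atTop.comp h.top).eventually_ge_atTop R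

theorem Out.small (h : Out F 𝒰 l w Z v) {η : ℝ} (hη : 0 < η) :
    ∃ j, em v (Sk Z j)ᶜ ≤ ENNReal.ofReal η :=
  ((tendsto_em_compl h.fin Z).eventually_le_const (ENNReal.ofReal_pos.2 hη)).exists

theorem ball_sub_compl {z : ℂ} (hz : z ∈ Z) {j : ℕ} {r : ℝ} (hr : r ≤ ep j ^ 2) :
    ball z r ⊆ (Sk Z j)ᶜ := fun _ hy h => ((mem_Sk.1 h).2 z hz).not_gt (lt_of_lt_of_le hy hr)

theorem Slow.conc (hs : Slow F 𝒰 w Z v κ) (ho : Out F 𝒰 l w Z v) (h : Seq F 𝒰 lam w D) {z : ℂ}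
    (hz : z ∈ Z) : Conc F 𝒰 lam (fun n => w n ∘ aff z (ep (κ n))) fun _ => ball 0 1 := by
  refine ⟨fun _ => measurableSet_ball, fun _ => Subset.rfl, ?_, ?_, fun ρ hρ η hη => ?_⟩
  · filter_upwards [h.sol, h.ball_sub z 1] with n a b y hy
    refine F.aff (ep_pos _) (a _ (b ?_))
    rw [mem_ball, dist_aff_self _ (ep_pos _)]
    exact mul_lt_one_of_nonneg_of_lt_one_right (ep_le_one _) (norm_nonneg _) (mem_ball_zero_iff.1 hy)
  · filter_upwards [hs.heavy] with n a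
    rw [← pre_ball0 z (ep_pos (κ n)), em_aff _ _ (ep_pos _), mul_one]
    exact a z hz
  · obtain ⟨j, hj⟩ := ho.small (half_pos hη)
    obtain ⟨r, hr, hc⟩ := Metric.continuousAt_iff.1 (F.c1 (ho.sol z)).continuousAt (η / 4)
      (by positivity)
    filter_upwards [hs.en, hs.ds, hs.ep_le hρ, hs.ep_le hr, hs.ep_le (pow_pos (ep_pos j) 2),
      hs.ep_le (η := η / 4) (by positivity), hs.le (‖z‖ + 1), hs.top.eventually (ev_sep Z)]
      with n a b c d e f g i
    have p := ep_pos (κ n)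
    have hA : ball z (ep (κ n) * 1) \ ball z (ep (κ n) * ρ) ⊆ Sk Z (κ n) := fun y hy => by
      have y1 : dist y z < ep (κ n) := by simpa using hy.1
      have y2 : ep (κ n) * ρ ≤ dist y z := not_lt.1 hy.2
      refine mem_Sk.2 ⟨?_, fun z' hz' => ?_⟩
      · have := norm_le_norm_add_norm_sub' y z
        rw [← dist_eq_norm] at this
        linarith [ep_le_one (κ n)]
      · by_cases e : z = z'
        · rw [← e]; nlinarith
        · linarith [i z hz z' hz' e, dist_triangle_left z z' y, ep_sq_le (κ n)]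
    rw [← pre_ball0 z p 1, ← pre_ball0 z p ρ, ← preimage_sdiff]
    refine Sm.aff ⟨(a _ hA (measurableSet_ball.diff measurableSet_ball)).trans ?_,
      fun y hy y' hy' => ?_⟩ z p
    · rw [← add_halves η, ENNReal.ofReal_add (half_pos hη).le (half_pos hη).le]
      exact add_le_add ((measure_mono (sdiff_subset.trans (ball_sub_compl hz
        (by rwa [mul_one])))).trans hj) (ENNReal.ofReal_le_ofReal (by linarith))
    · have y1 : dist y z < r := lt_of_lt_of_le hy.1 (by rwa [mul_one])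
      have y2 : dist y' z < r := lt_of_lt_of_le hy'.1 (by rwa [mul_one])
      linarith [b y (hA hy), b y' (hA hy'), hc y1, hc y2, dist_triangle_left (w n y) (w n y') (v y),
        dist_triangle (v y) (v y') (w n y'), dist_triangle_right (v y) (v y') (v z)]

theorem tendsto_int_of_unif {f : ℕ → ℂ → ℝ} {f' : ℂ → ℝ} {S : Set ℂ} (hS : volume S < ⊤)
    (h : TendstoUniformlyOn f f' 𝒰 S) (hi : ∀ᶠ n in 𝒰, IntegrableOn (f n) S)
    (hi' : IntegrableOn f' S) : Tendsto (fun n => ∫ z in S, f n z) 𝒰 (𝓝 (∫ z in S, f' z)) := by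
  refine Metric.tendsto_nhds.2 fun ε hε => ?_
  obtain ⟨η, hη, he⟩ := exists_pos_mul_lt hε (volume.real S)
  filter_upwards [tendstoUniformlyOn_iff.1 h η hη, hi] with n a b
  rw [dist_comm, dist_eq_norm, ← integral_sub hi' b]
  exact (norm_setIntegral_le_of_norm_le_const hS fun z hz =>
    (show ‖f' z - f n z‖ < η from a z hz).le).trans_lt (mul_comm η _ ▸ he)

theorem Slow.int_out (hs : Slow F 𝒰 w Z v κ) (ho : Out F 𝒰 l w Z v) (h : Tight F 𝒰 lam w D)
    {g : E → (ℂ →L[ℝ] E) → ℝ} (hg : Dens F.K g) :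
    Tendsto (fun n => ∫ y in D n \ ⋃ z ∈ Z, ball z (ep (κ n)), den g (w n) y) 𝒰
      (𝓝 (∫ y, den g v y)) := by
  obtain ⟨C, hC, hb⟩ := hg.bd
  obtain ⟨M, hM, hE⟩ := h.bd
  refine Metric.tendsto_nhds.2 fun ε hε => ?_
  obtain ⟨η, hη, he⟩ := exists_pos_mul_lt hε (4 * C + 1)
  obtain ⟨R, hR⟩ := h.tight η hη
  obtain ⟨j, hj⟩ := ho.small hη
  have hc := isCompact_Sk Z j
  have hv : IntegrableOn (den g v) univ := Fam.integrableOn hg .univ (fun z _ => ho.sol z) ho.fin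
  have hSD : ∀ᶠ n in 𝒰, Sk Z j ⊆ D n := (h.big (j + 1)).mono fun n a =>
    sdiff_subset.trans ((closedBall_subset_ball (lt_add_one _)).trans a)
  have hD : ∀ᶠ n in 𝒰, IntegrableOn (den g (w n)) (D n) := by
    filter_upwards [h.sol, hE] with n a b
    exact Fam.integrableOn hg (h.meas n) a (ne_top_of_le_ne_top hM b)
  have h1 := tendsto_int_of_unif hc.measure_lt_top (den_unif hc (fun z _ => F.c1 (ho.sol z))
    (ho.u0 _ hc (Sk_sub Z j)) (ho.u1 _ hc (Sk_sub Z j)) hg.cont)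
    ((hD.and hSD).mono fun n a => a.1.mono_set a.2) (hv.mono_set (subset_univ _))
  have h2 := abs_int_le hC hb hc.measurableSet.compl (fun z _ => F.mem (ho.sol z)) hη.le hj
  have h3 := integral_add_compl hc.measurableSet (integrableOn_univ.1 hv)
  filter_upwards [Metric.tendsto_nhds.1 h1 η hη, hD, hSD, hR, hs.en, h.sol, hs.ep_le hη,
    hs.ep_le (pow_pos (ep_pos j) 2), hs.le R] with n a b c d e f i k m
  set U := ⋃ z ∈ Z, ball z (ep (κ n))
  have hU : MeasurableSet U := (isOpen_biUnion fun _ _ => isOpen_ball).measurableSet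
  have hsub : Sk Z j ⊆ D n \ U := fun y hy => ⟨c hy, fun hu => by
    obtain ⟨z, hz, hu⟩ := mem_iUnion₂.1 hu
    exact ball_sub_compl hz k hu hy⟩
  have hA : (ball 0 R \ U) \ Sk Z j ⊆ Sk Z (κ n) := fun y hy => mem_Sk.2
    ⟨(mem_ball_zero_iff.1 hy.1.1).le.trans m, fun z hz => (ep_sq_le _).trans
      (not_lt.1 fun e => hy.1.2 (mem_iUnion₂.2 ⟨z, hz, e⟩))⟩
  have h4 : em (w n) ((D n \ U) \ Sk Z j) ≤ ENNReal.ofReal (η + (η + η)) := by
    have : (D n \ U) \ Sk Z j ⊆ D n \ ball 0 R ∪ (ball 0 R \ U) \ Sk Z j := fun y hy => by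
      by_cases e : y ∈ ball (0 : ℂ) R
      exacts [Or.inr ⟨⟨e, hy.1.2⟩, hy.2⟩, Or.inl ⟨hy.1.1, e⟩]
    rw [ENNReal.ofReal_add hη.le (by positivity), ENNReal.ofReal_add hη.le hη.le]
    refine (measure_mono this).trans ((measure_union_le _ _).trans (add_le_add d.1
      ((e _ hA ((measurableSet_ball.diff hU).diff hc.measurableSet)).trans ?_)))
    exact add_le_add ((measure_mono fun y hy => hy.2).trans hj) (ENNReal.ofReal_le_ofReal i)
  have h5 := abs_int_le hC hb (((h.meas n).diff hU).diff hc.measurableSet)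
    (fun z hz => F.mem (f z hz.1.1)) (by positivity) h4
  rw [setIntegral_sdiff hc.measurableSet (b.mono_set sdiff_subset) hsub] at h5
  rw [Real.dist_eq] at a ⊢
  rw [abs_lt] at a ⊢
  rw [abs_le] at h2 h5
  constructor <;> linarith [a.1, a.2, h2.1, h2.2, h5.1, h5.2]

theorem Out.at (ho : Out F 𝒰 l w Z v) {y : ℂ} (hy : y ∉ Z) {η : ℝ} (hη : 0 < η) :
    ∀ᶠ n in 𝒰, dist (w n y) (v y) < η :=
  Metric.tendsto_nhds.1 ((ho.u0 {y} isCompact_singleton (singleton_subset_iff.2 hy)).tendsto_at rfl)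
    η hη

theorem Slow.glue (hs : Slow F 𝒰 w Z v κ) (ho : Out F 𝒰 l w Z v) (h : Tight F 𝒰 lam w D)
    (hr : ∀ z ∈ Z, Res F 𝒰 l w fun n => ball z (ep (κ n))) : Res F 𝒰 l w D := by
  have hr' : ∀ z : Z, Res F 𝒰 l w fun n => ball z (ep (κ n)) := fun z => hr z z.2
  choose ι inst V hV using hr'
  have hb : ∀ᶠ n in 𝒰, ∀ z ∈ Z, ball z (ep (κ n)) ⊆ D n := (eventually_all_finset Z).2 fun z _ =>
    (h.ball_sub z 1).mono fun n a => (ball_subset_ball (ep_le_one _)).trans a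
  refine ⟨Option (Σ z : Z, ι z), inferInstance, fun a => a.elim v fun p => V p.1 p.2, ?_, ?_,
    fun g hg => ?_, fun η hη => ?_, ?_⟩
  · rintro (_ | a)
    exacts [ho.sol, (hV a.1).sol a.2]
  · rintro (_ | a)
    exacts [ho.fin, (hV a.1).fin a.2]
  · rw [Fintype.sum_option, Fintype.sum_sigma]
    refine ((hs.int_out ho h hg).add
      (tendsto_finsetSum _ fun z _ => (hV z).int g hg)).congr' ?_
    obtain ⟨M, hM, hE⟩ := h.bd
    filter_upwards [h.sol, hE, hb, hs.top.eventually (ev_sep Z)] with n a b c d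
    have hi := Fam.integrableOn hg (h.meas n) a (ne_top_of_le_ne_top hM b)
    have hU : MeasurableSet (⋃ z ∈ Z, ball z (ep (κ n))) :=
      (isOpen_biUnion fun _ _ => isOpen_ball).measurableSet
    rw [setIntegral_sdiff hU hi (iUnion₂_subset c), integral_biUnion_finset Z (fun _ _ => measurableSet_ball)
      (fun z hz z' hz' e => ball_disjoint_ball (d z hz z' hz' e)) fun z hz => hi.mono_set (c z hz),
      Finset.sum_coe_sort Z fun z => ∫ y in ball z (ep (κ n)), den g (w n) y, sub_add_cancel]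
  · obtain ⟨R, hR⟩ := h.tight _ (half_pos hη)
    obtain ⟨B, hB⟩ := (Z.finite_toSet.isBounded.union
      (isBounded_ball (x := (0 : ℂ)) (r := R))).exists_norm_le
    obtain ⟨y0, hy0⟩ := NormedSpace.exists_lt_norm ℝ ℂ B
    have h0 : y0 ∉ (Z : Set ℂ) ∪ ball 0 R := fun e => (hB _ e).not_gt hy0
    filter_upwards [eventually_all.2 fun z => (hV z).near η hη, hR, hs.ds, hs.ep_le hη, hs.le R,
      ho.at (fun e => h0 (Or.inl e)) (half_pos hη), h.big (‖y0‖ + 1)] with n a b c d e f i y hy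
    by_cases h1 : ∃ z ∈ Z, y ∈ ball z (ep (κ n))
    · obtain ⟨z, hz, h1⟩ := h1
      obtain ⟨p, y', h2⟩ := a ⟨z, hz⟩ y h1
      exact ⟨some ⟨_, p⟩, y', h2⟩
    by_cases h2 : y ∈ ball (0 : ℂ) R
    · refine ⟨none, y, (dist_comm _ _).trans_lt ((c y (mem_Sk.2 ⟨?_, fun z hz => ?_⟩)).trans_le d)⟩
      · exact (mem_ball_zero_iff.1 h2).le.trans e
      · exact (ep_sq_le _).trans (not_lt.1 fun e => h1 ⟨z, hz, e⟩)
    · refine ⟨none, y0, (dist_triangle _ (w n y0) _).trans_lt ?_⟩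
      have := b.2 y ⟨hy, h2⟩ y0 ⟨i (mem_ball_zero_iff.2 (lt_add_one _)), fun e => h0 (Or.inr e)⟩
      change _ + dist _ (v y0) < _
      linarith
  · rintro (_ | a) y η hη
    · obtain ⟨y', h1, h2⟩ := (Z.finite_toSet.countable.dense_compl ℝ).inter_nhds_nonempty
        (Metric.tendsto_nhds.1 (F.c1 (ho.sol y)).continuousAt _ (half_pos hη))
      filter_upwards [ho.at h1 (half_pos hη), h.big (‖y'‖ + 1)] with n a b
      refine ⟨y', b (mem_ball_zero_iff.2 (lt_add_one _)), (dist_triangle _ (v y') _).trans_lt ?_⟩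
      have h3 : dist (v y') (v y) < η / 2 := h2
      change _ + dist _ (v y) < _
      linarith
    · filter_upwards [(hV a.1).hit a.2 y η hη, hb] with n ⟨z, hz, c⟩ b
      exact ⟨z, b _ a.1.2 hz, c⟩

/-- The limit of a sequence whose energy concentrates at the origin. -/
theorem Conc.res {𝒰 : Ultrafilter ℕ} (h𝒰 : (𝒰 : Filter ℕ) ≤ atTop) (hl : Tendsto lam 𝒰 (𝓝 l))
    (k : ℕ) : ∀ {u : ℕ → ℂ → E} {D : ℕ → Set ℂ}, Conc F 𝒰 lam u D →
      (∀ᶠ n in 𝒰, em (u n) (D n) ≤ k * F.q) → Res F 𝒰 l u D := by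
  induction k with
  | zero =>
    intro u D h hk
    obtain ⟨n, a, b⟩ := (h.mass.and hk).exists
    simpa using a.trans_le b
  | succ k ih =>
    intro u D h hk
    obtain ⟨x, δ, hδ, ht, hc⟩ := h.soft hk
    obtain ⟨Z, v, ho⟩ := ht.toSeq.exists_out hl
    obtain ⟨κ, hs⟩ := ho.exists_slow h𝒰
    refine Res.of_aff hδ (Eventually.of_forall fun _ => rfl) (hs.glue ho ht fun z hz => ?_)
    refine Res.of_aff (x := fun _ => z) (Eventually.of_forall fun n => ep_pos (κ n))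
      (Eventually.of_forall fun n => ?_) (ih (hs.conc ho ht.toSeq hz) ?_)
    · rw [← pre_ball0 z (ep_pos (κ n)), mul_one]
    · filter_upwards [hc, ht.ball_sub z 1, hs.ep_le one_half_pos] with n a b c
      rw [← pre_ball0 z (ep_pos (κ n)), em_aff _ _ (ep_pos _), mul_one]
      exact (measure_mono (subset_inter ((ball_subset_ball (ep_le_one _)).trans b)
        (ball_subset_ball c))).trans (a z)

end Pool.Agent.Lib.MP_1c0d65_gt.C
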