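import Mathlib

/-! Thick-thin decomposition for one curve, part A: centres and scales. -/

set_option autoImplicit false

namespace Pool.Agent.Lib.MP_1c0d65_gt.C

open Set Metric MeasureTheory Filter Topology

/-- Energy quantum for the function `m` (the norm of the derivative). -/
def Quantum (h e : ℝ) (m : ℂ → ℝ) : Prop :=
  ∀ x r, 0 < r → (∀ y ∈ ball x r, r * m y ≤ 2) → e ≤ r * m x → h ≤ ∫ y in ball x r, m y ^ 2

/-- Decay on annuli. -/
def Decay (ε C μ : ℝ) (m : ℂ → ℝ) : Prop :=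
  ∀ a r R, 0 < r → (∀ z, r ≤ ‖z - a‖ → ‖z - a‖ ≤ R → ‖z - a‖ * m z ≤ ε) →
    ∀ z, r ≤ ‖z - a‖ → ‖z - a‖ ≤ R →
      ‖z - a‖ * m z ≤ C * ((r / ‖z - a‖) ^ μ + (‖z - a‖ / R) ^ μ)

/-- The thick part of index `i`. -/
def Thick {ι : Type*} (a : ι → ℂ) (s : ι → ℝ) (L : ℝ) (i : ι) : Set ℂ :=
  {x | ‖x - a i‖ ≤ L * s i ∧ ∀ k, s i ≤ L * ‖x - a k‖}

/-- A maximal family of disjoint discs with energy at least `h`. -/
theorem exists_max_family {f : ℂ → ℝ} (hf : Integrable f) (h0 : ∀ x, 0 ≤ f x) {h E : ℝ}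
    (hh : 0 < h) (hE : ∫ x, f x ≤ E) (G : Set (ℂ × ℝ))
    (hG : ∀ p ∈ G, h ≤ ∫ y in ball p.1 p.2, f y) :
    ∃ F : Finset (ℂ × ℝ), (F.card : ℝ) ≤ E / h ∧ (∀ p ∈ F, p ∈ G) ∧
      ∀ p ∈ G, ∃ q ∈ F, ¬Disjoint (ball p.1 p.2) (ball q.1 q.2) := by
  classical
  let P : Finset (ℂ × ℝ) → Prop := fun F => (∀ p ∈ F, p ∈ G) ∧
    (F : Set (ℂ × ℝ)).Pairwise (Function.onFun Disjoint fun p => ball p.1 p.2)
  have hb : ∀ F, P F → (F.card : ℝ) ≤ E / h := fun F hF => by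
    rw [le_div_iff₀ hh]
    calc (F.card : ℝ) * h = ∑ _p ∈ F, h := by simp
      _ ≤ ∑ p ∈ F, ∫ y in ball p.1 p.2, f y := Finset.sum_le_sum fun p hp => hG p (hF.1 p hp)
      _ = ∫ y in ⋃ p ∈ F, ball p.1 p.2, f y :=
        (integral_biUnion_finset F (fun _ _ => measurableSet_ball) hF.2
          fun _ _ => hf.integrableOn).symm
      _ ≤ ∫ x, f x := setIntegral_le_integral hf (Eventually.of_forall h0)
      _ ≤ E := hE
  obtain ⟨n, ⟨F, hF, rfl⟩, hn⟩ := Int.exists_greatest_of_bdd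
    (P := fun n : ℤ => ∃ F, P F ∧ (F.card : ℤ) = n)
    ⟨⌈E / h⌉, fun z ⟨F, hF, e⟩ => by
      rw [← e]
      exact_mod_cast (hb F hF).trans (Int.le_ceil _)⟩
    ⟨0, ∅, ⟨by simp, by simp⟩, rfl⟩
  refine ⟨F, hb F hF, hF.1, fun p hp => ?_⟩
  by_contra hc
  push Not at hc
  have hpF : p ∉ F := fun e => by
    have h1 := hG p hp
    rw [disjoint_self.1 (hc p e)] at h1
    simp at h1
    linarith
  have := hn _ ⟨insert p F, ⟨fun q hq => by
    rcases Finset.mem_insert.1 hq with rfl | hq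
    exacts [hp, hF.1 q hq], by
      rw [Finset.coe_insert]
      exact hF.2.insert fun q hq _ => ⟨hc q hq, (hc q hq).symm⟩⟩, rfl⟩
  rw [Finset.card_insert_of_notMem hpF] at this
  push_cast at this
  linarith

variable {m : ℂ → ℝ} {h e E : ℝ}

/-- The centres. -/
theorem exists_centres (hm : Continuous m) (h0 : ∀ x, 0 ≤ m x) (hi : Integrable fun x => m x ^ 2)
    (hh : 0 < h) (hE : ∫ x, m x ^ 2 ≤ E) (he : e ≤ 1 / 2)
    (hinf : Tendsto (fun z => ‖z‖ * m z) (cocompact ℂ) (𝓝 0)) (hq : Quantum h e m) :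
    ∃ X : Finset ℂ, X.Nonempty ∧ (X.card : ℝ) ≤ E / h + 1 ∧
      ∀ x r, (∀ a ∈ X, r ≤ ‖x - a‖) → r * m x ≤ 4 := by
  classical
  obtain ⟨F, hc, hF, hmax⟩ := exists_max_family hi (fun x => sq_nonneg _) hh hE
    {p | 0 < p.2 ∧ p.2 * m p.1 = 1 / 2 ∧ ∀ y ∈ ball p.1 (2 * p.2), p.2 * m y ≤ 1}
    fun p hp => hq _ _ hp.1 (fun y hy => (hp.2.2 y (ball_subset_ball (by linarith [hp.1]) hy)).trans
      one_le_two) (he.trans hp.2.1.ge)
  let X : Finset ℂ := insert 0 (F.image Prod.fst)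
  have hX : (X : Set ℂ).Nonempty := ⟨0, by simp [X]⟩
  refine ⟨X, hX, ?_, fun x r hr => ?_⟩
  · have h1 : X.card ≤ F.card + 1 :=
      (Finset.card_insert_le _ _).trans (Nat.add_le_add_right Finset.card_image_le 1)
    have : (X.card : ℝ) ≤ F.card + 1 := by exact_mod_cast h1
    linarith
  by_contra hx
  have hx' : 4 < infDist x X * m x := (not_le.1 hx).trans_le (mul_le_mul_of_nonneg_right
    ((le_infDist hX).2 fun a ha => by rw [dist_eq_norm]; exact hr a ha) (h0 x))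
  obtain ⟨z, hz⟩ := Continuous.exists_forall_ge' (f := fun y => infDist y X * m y)
    ((continuous_infDist_pt _).mul hm) x (by
      filter_upwards [hinf.eventually (gt_mem_nhds (show (0 : ℝ) < 4 by norm_num))] with y hy
      refine (le_trans (mul_le_mul_of_nonneg_right ?_ (h0 y)) hy.le).trans hx'.le
      simpa using infDist_le_dist_of_mem (x := y) (show (0 : ℂ) ∈ (X : Set ℂ) by simp [X]))
  have h4 : 4 < infDist z X * m z := hx'.trans_le (hz x)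
  have hd : 0 ≤ infDist z X := infDist_nonneg
  have hmz : 0 < m z := (h0 z).lt_of_ne fun e => by rw [← e] at h4; norm_num at h4
  have hρ : 0 < 1 / (2 * m z) := by positivity
  have hρ1 : 1 / (2 * m z) * m z = 1 / 2 := by field_simp
  have hρ2 : 8 * (1 / (2 * m z)) < infDist z X := by
    apply lt_of_mul_lt_mul_right _ hmz.le
    rw [mul_assoc, hρ1]; linarith
  generalize 1 / (2 * m z) = ρ at hρ hρ1 hρ2
  obtain ⟨q, hqF, hdis⟩ := hmax (z, ρ) ⟨hρ, hρ1, fun y hy => by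
    have h1 : infDist z X ≤ infDist y X + dist z y := infDist_le_infDist_add_dist
    have h2 : dist z y < 2 * ρ := by rw [dist_comm]; exact hy
    have h3 := hz y
    have h5 : infDist z X / 2 * m y ≤ infDist y X * m y :=
      mul_le_mul_of_nonneg_right (by linarith) (h0 y)
    have h6 : m y ≤ 2 * m z := by
      apply le_of_mul_le_mul_left _ (show 0 < infDist z X by linarith)
      linarith
    change ρ * m y ≤ 1
    nlinarith⟩
  obtain ⟨hq1, -, hq3⟩ := hF q hqF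
  have hqX : q.1 ∈ (X : Set ℂ) := by
    simp only [X, Finset.coe_insert, Finset.coe_image]
    exact Or.inr ⟨q, hqF, rfl⟩
  have h7 : infDist z X ≤ dist z q.1 := infDist_le_dist_of_mem hqX
  refine hdis (ball_disjoint_ball ?_)
  change ρ + q.2 ≤ dist z q.1
  have h8 : 2 * q.2 ≤ dist z q.1 := by
    by_contra hc
    have h9 := hq3 z (not_le.1 hc)
    have := mul_le_mul_of_nonneg_right (h7.trans (not_le.1 hc).le) hmz.le
    linarith
  linarith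

/-- The scales at one centre. -/
theorem exists_scales (hi : Integrable fun x => m x ^ 2)
    (hh : 0 < h) (hE : ∫ x, m x ^ 2 ≤ E) (he : 0 ≤ e) (hq : Quantum h e m) (X : Finset ℂ)
    (hX : ∀ x r, (∀ a ∈ X, r ≤ ‖x - a‖) → r * m x ≤ 4) (a : ℂ) :
    ∃ S : Finset ℝ, S.Nonempty ∧ (S.card : ℝ) ≤ E / h + X.card + 1 ∧ (∀ s ∈ S, 0 < s) ∧
      (∀ b ∈ X, b ≠ a → ‖b - a‖ ∈ S) ∧
      ∀ x, (∀ s ∈ S, 4 * ‖x - a‖ < s ∨ 4 * s < ‖x - a‖) → ‖x - a‖ * m x ≤ 4 * e := by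
  classical
  obtain ⟨F, hc, hF, hmax⟩ := exists_max_family hi (fun x => sq_nonneg _) hh hE
    {p | 0 < p.2 ∧ ‖p.1 - a‖ = 4 * p.2 ∧ e ≤ p.2 * m p.1 ∧ ∀ y ∈ ball p.1 p.2, p.2 * m y ≤ 2}
    fun p hp => hq _ _ hp.1 hp.2.2.2 hp.2.2.1
  let S : Finset ℝ := insert 1 (F.image (fun p => 4 * p.2) ∪ (X.erase a).image fun b => ‖b - a‖)
  have hS : ∀ b ∈ X, b ≠ a → ‖b - a‖ ∈ S := fun b hb hba => Finset.mem_insert_of_mem
    (Finset.mem_union_right _ (Finset.mem_image_of_mem _ (Finset.mem_erase.2 ⟨hba, hb⟩)))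
  refine ⟨S, Finset.insert_nonempty _ _, ?_, fun s hs => ?_, hS, fun x hx => ?_⟩
  · have h1 : S.card ≤ F.card + X.card + 1 :=
      (Finset.card_insert_le _ _).trans (Nat.add_le_add_right ((Finset.card_union_le _ _).trans
        (Nat.add_le_add Finset.card_image_le
          (Finset.card_image_le.trans Finset.card_erase_le))) 1)
    have : (S.card : ℝ) ≤ F.card + X.card + 1 := by exact_mod_cast h1
    linarith
  · simp only [S, Finset.mem_insert, Finset.mem_union, Finset.mem_image, Finset.mem_erase] at hs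
    rcases hs with rfl | ⟨p, hp, rfl⟩ | ⟨b, hb, rfl⟩
    · exact one_pos
    · linarith [(hF p hp).1]
    · exact norm_pos_iff.2 (sub_ne_zero.2 hb.1)
  by_contra hc'
  have ht : 0 < ‖x - a‖ := (norm_nonneg _).lt_of_ne fun e0 => hc' (by rw [← e0]; linarith)
  obtain ⟨q, hqF, hdis⟩ := hmax (x, ‖x - a‖ / 4) ⟨by positivity, by ring, by
    change e ≤ ‖x - a‖ / 4 * m x
    linarith [not_le.1 hc'], fun y hy => by
    have h1 : ‖y - x‖ < ‖x - a‖ / 4 := mem_ball_iff_norm.1 hy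
    have h2 : ‖x - a‖ ≤ ‖y - x‖ + ‖y - a‖ := by
      rw [norm_sub_rev y x]; exact norm_sub_le_norm_sub_add_norm_sub x y a
    have h3 : ‖y - a‖ ≤ ‖y - x‖ + ‖x - a‖ := norm_sub_le_norm_sub_add_norm_sub y x a
    have := hX y (‖x - a‖ / 2) fun b hb => by
      by_cases e1 : b = a
      · rw [e1]; linarith
      have h4 : ‖y - a‖ ≤ ‖y - b‖ + ‖b - a‖ := norm_sub_le_norm_sub_add_norm_sub y b a
      have h5 : ‖b - a‖ ≤ ‖y - b‖ + ‖y - a‖ := by
        rw [norm_sub_rev y b]; exact norm_sub_le_norm_sub_add_norm_sub b y a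
      rcases hx _ (hS b hb e1) with h6 | h6 <;> linarith
    change ‖x - a‖ / 4 * m y ≤ 2
    linarith⟩
  obtain ⟨hq1, hq2, -⟩ := hF q hqF
  refine hdis (ball_disjoint_ball ?_)
  change ‖x - a‖ / 4 + q.2 ≤ dist x q.1
  rw [dist_eq_norm]
  have h4 : ‖x - a‖ ≤ ‖x - q.1‖ + ‖q.1 - a‖ := norm_sub_le_norm_sub_add_norm_sub x q.1 a
  have h5 : ‖q.1 - a‖ ≤ ‖x - q.1‖ + ‖x - a‖ := by
    rw [norm_sub_rev x q.1]; exact norm_sub_le_norm_sub_add_norm_sub q.1 x a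
  rcases hx (4 * q.2) (Finset.mem_insert_of_mem (Finset.mem_union_left _
    (Finset.mem_image_of_mem _ hqF))) with h6 | h6 <;> linarith

/-- Centres and scales, indexed by a fixed finite type. -/
theorem exists_centres_scales {h e E : ℝ} (hh : 0 < h) (he0 : 0 ≤ e) (he : e ≤ 1 / 2) :
    ∃ N : ℕ, ∀ m : ℂ → ℝ, Continuous m → (∀ x, 0 ≤ m x) → Integrable (fun x => m x ^ 2) →
      ∫ x, m x ^ 2 ≤ E → Tendsto (fun z => ‖z‖ * m z) (cocompact ℂ) (𝓝 0) → Quantum h e m →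
      ∃ (a : Fin (N + 1) → ℂ) (s : Fin (N + 1) → ℝ), (∀ i, 0 < s i) ∧
        (∀ x r, (∀ i, r ≤ ‖x - a i‖) → r * m x ≤ 4) ∧
        (∀ i k, a k ≠ a i → ∃ j, a j = a i ∧ s j = ‖a k - a i‖) ∧
        ∀ i x, (∀ j, a j = a i → 4 * ‖x - a i‖ < s j ∨ 4 * s j < ‖x - a i‖) →
          ‖x - a i‖ * m x ≤ 4 * e := by
  classical
  refine ⟨⌈E / h + 1⌉₊ * ⌈E / h + (E / h + 1) + 1⌉₊, fun m hm h0 hi hE hinf hq => ?_⟩
  obtain ⟨X, hne, hc, hX⟩ := exists_centres hm h0 hi hh hE he hinf hq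
  choose S hS0 hSc hSp hSb hS using exists_scales hi hh hE he0 hq X hX
  let T : Finset (ℂ × ℝ) := X.biUnion fun a => (S a).image fun s => (a, s)
  have hT : ∀ p : ℂ × ℝ, p ∈ T ↔ p.1 ∈ X ∧ p.2 ∈ S p.1 := fun p => by
    simp only [T, Finset.mem_biUnion, Finset.mem_image]
    exact ⟨fun ⟨a, ha, s, hs, e⟩ => e ▸ ⟨ha, hs⟩, fun h => ⟨p.1, h.1, p.2, h.2, rfl⟩⟩
  have hcT : T.card ≤ ⌈E / h + 1⌉₊ * ⌈E / h + (E / h + 1) + 1⌉₊ := by
    refine (Finset.card_biUnion_le_card_mul _ _ ⌈E / h + (E / h + 1) + 1⌉₊ fun a _ =>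
      Finset.card_image_le.trans ?_).trans (Nat.mul_le_mul_right _ ?_)
    · exact_mod_cast ((hSc a).trans (by linarith)).trans (Nat.le_ceil (E / h + (E / h + 1) + 1))
    · exact_mod_cast hc.trans (Nat.le_ceil _)
  obtain ⟨a₀, ha₀⟩ := hne
  obtain ⟨s₀, hs₀⟩ := hS0 a₀
  have : Nonempty T := ⟨⟨(a₀, s₀), (hT _).2 ⟨ha₀, hs₀⟩⟩⟩
  obtain ⟨ι⟩ : Nonempty (T ↪ Fin (⌈E / h + 1⌉₊ * ⌈E / h + (E / h + 1) + 1⌉₊ + 1)) :=
    Function.Embedding.nonempty_of_card_le (by simpa using hcT.trans (Nat.le_succ _))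
  obtain ⟨g, hg⟩ := ι.injective.hasLeftInverse
  have hs : ∀ a ∈ X, ∀ s ∈ S a, ∃ j, (g j).1.1 = a ∧ (g j).1.2 = s := fun a ha s hs =>
    ⟨ι ⟨(a, s), (hT _).2 ⟨ha, hs⟩⟩, by rw [hg], by rw [hg]⟩
  have hm' : ∀ i, (g i).1.1 ∈ X ∧ (g i).1.2 ∈ S (g i).1.1 := fun i => (hT _).1 (g i).2
  refine ⟨fun i => (g i).1.1, fun i => (g i).1.2, fun i => hSp _ _ (hm' i).2,
    fun x r hr => hX x r fun b hb => ?_, fun i k hk => hs _ (hm' i).1 _ (hSb _ _ (hm' k).1 hk),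
    fun i x hx => hS _ x fun s hs' => ?_⟩
  · obtain ⟨s, hs'⟩ := hS0 b
    obtain ⟨j, e1, -⟩ := hs b hb s hs'
    exact e1 ▸ hr j
  · obtain ⟨j, e1, e2⟩ := hs _ (hm' i).1 s hs'
    exact e2 ▸ hx j e1

end Pool.Agent.Lib.MP_1c0d65_gt.C
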