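import Pool.Agent.Lib.MP_1c0d65_gt.C.TopA
import Pool.Agent.Lib.MP_1c0d65_gt.C.Gromov
import Pool.Agent.Lib.MP_1c0d65_gt.C.Inf
import Pool.Agent.Lib.MP_1c0d65_gt.C.LocA
import Pool.Agent.Lib.MP_1c0d65_gt.PW.OCi

/-! Gromov compactness for a degeneration, from the abstract theorem. -/

set_option autoImplicit false
set_option linter.unusedSectionVars false

open scoped Manifold ContDiff Topology
open Set MeasureTheory Filter Metric

noncomputable section

namespace Pool.Agent.Lib.MP_1c0d65_gt.PW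

variable {X : Type} [TopologicalSpace X] [ChartedSpace E X] [IsManifold 𝓘(ℝ, E) ∞ X]
  [T2Space X] [CompactSpace X] [MeasurableSpace X] [BorelSpace X] {c : Ctx X} {O : Orb c}
  {V : Type} [NormedAddCommGroup V] [NormedSpace ℝ V] [FiniteDimensional ℝ V]

theorem top_hol {J hJ} (S : OC (Orb.triv c J hJ)) : Hol J S.u univ := by
  have h : S.F = ∅ := Finset.eq_empty_of_forall_notMem fun a ha => (S.pu a ha).elim fun i _ => i.elim0
  have := S.hu
  rwa [h, Finset.coe_empty, compl_empty] at this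

theorem top_inf (S : OC O) : Tendsto S.u (cocompact ℂ) (𝓝 (S.v 0)) := by
  refine ((S.vpt.1.continuousAt.tendsto.mono_left nhdsWithin_le_nhds).comp oci_inv).congr' ?_
  filter_upwards [oci_inv.eventually self_mem_nhdsWithin] with s hs
  rw [Function.comp_apply, S.uv _ hs, inv_inv]

theorem top_img (S : OC O) {f : X → V} (hf : Continuous f) {x : X} (hx : x ∈ S.img) :
    f x ∈ closure (range (f ∘ S.u)) := by
  rcases hx with ⟨s, -, rfl⟩ | rfl
  · exact subset_closure ⟨s, rfl⟩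
  · exact mem_closure_of_tendsto ((hf.tendsto _).comp (top_inf S))
      (Eventually.of_forall fun s => ⟨s, rfl⟩)

theorem top_en {J hJ} (S : OC (Orb.triv c J hJ)) {w : ℂ → V} {K A : ℝ} (hA : S.c1 ≤ A)
    (h : ∀ z, ‖fderiv ℝ w z‖ ^ 2 ≤ K * pull2 S.u c.om z 1 .I) :
    C.em w univ ≤ ENNReal.ofReal (|K| * (A / c.κ)) := by
  have h0 : ∀ᵐ z : ℂ, 0 ≤ pull2 S.u c.om z 1 .I := S.ae_F.mono fun z hz => S.dens_nonneg hz
  have hi := (S.integrable c.hom.1 (Or.inr rfl)).const_mul |K|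
  rw [C.em, withDensity_apply _ MeasurableSet.univ, Measure.restrict_univ]
  refine (lintegral_mono_ae (g := fun z => ENNReal.ofReal (|K| * pull2 S.u c.om z 1 .I))
    (h0.mono fun z hz => ?_)).trans ?_
  · rw [← ofReal_norm, ← ENNReal.ofReal_pow (norm_nonneg _)]
    exact ENNReal.ofReal_le_ofReal ((h z).trans (mul_le_mul_of_nonneg_right (le_abs_self K) hz))
  · rw [← ofReal_integral_eq_lintegral_ofReal hi
      (h0.mono fun z hz => mul_nonneg (abs_nonneg K) hz), integral_const_mul]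
    refine ENNReal.ofReal_le_ofReal (mul_le_mul_of_nonneg_left ?_ (abs_nonneg K))
    rw [le_div_iff₀' c.hκ]
    exact hA

theorem DegV.gromov_of {J : ℕ → X → E →L[ℝ] E} (D : DegV V O J) (Φ : C.Fam Unit V)
    (hΦ : ∀ l w z, Φ.At l w z ↔ D.T.Hol w z) (tame : ∀ n, Tame univ c.om (J n))
    (𝒰 : Ultrafilter ℕ) (h𝒰 : (𝒰 : Filter ℕ) ≤ atTop) (S : ∀ n, OC (Orb.triv c (J n) (tame n)))
    (A : ℝ) (hA : ∀ n, (S n).c1 ≤ A) : ∃ (m : ℕ) (C : Fin m → OC O),
      (∀ α, Form univ α → O.Test α →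
        Tendsto (fun n => per (S n).u α) 𝒰 (𝓝 (∑ i, per (C i).u α))) ∧
      ∀ (x : ℕ → X) (y : X), (∀ᶠ n in 𝒰, x n ∈ (S n).img) → y ∈ O.W → Tendsto x 𝒰 (𝓝 y) →
        ∃ i, y ∈ (C i).img := by
  classical
  obtain ⟨K, hen⟩ := D.en
  set w : ℕ → ℂ → V := fun n => D.ι n ∘ (S n).u with hw
  have lim : ∀ (x : ℕ → X) (y : X), y ∈ O.W → Tendsto x 𝒰 (𝓝 y) →
      Tendsto (fun n => D.ι n (x n)) 𝒰 (𝓝 (D.ι0 y)) := fun x y hy hx =>
    (D.pts y hy).comp (Tendsto.prodMk h𝒰 hx)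
  have good : ∀ᶠ n in 𝒰, Continuous (D.ι n) ∧ (∀ z, D.T.Hol (w n) z) ∧
      C.em (w n) univ ≤ ENNReal.ofReal (|K| * (A / c.κ)) := by
    filter_upwards [h𝒰 D.cont, h𝒰 D.hol, h𝒰 hen] with n h1 h2 h3
    exact ⟨h1, fun z => h2 _ _ isOpen_univ (top_hol (S n)) z (mem_univ z),
      top_en (S n) (hA n) fun z => h3 _ _ isOpen_univ (top_hol (S n)) z (mem_univ z)⟩
  have perd : ∀ (α : X → Bil E ℝ) (a : V → Bil V ℝ), (∀ᶠ n in atTop, ∀ u S, IsOpen S →
      Hol (J n) u S → ∀ z ∈ S, dens a (D.ι n ∘ u) z = pull2 u α z 1 .I) →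
      ∀ᶠ n in 𝒰, per (S n).u α = ∫ z, dens a (w n) z := fun α a h => by
    filter_upwards [h𝒰 h] with n hn
    exact integral_congr_ae (Eventually.of_forall fun z =>
      (hn _ _ isOpen_univ (top_hol (S n)) z (mem_univ z)).symm)
  by_cases hc : ∀ᶠ n in 𝒰, ∃ z, w n z ≠ w n 0
  · obtain ⟨n0, g0⟩ := (good.and hc).exists
    let G : ℕ → Prop := fun n => (Continuous (D.ι n) ∧ (∀ z, D.T.Hol (w n) z) ∧
      C.em (w n) univ ≤ ENNReal.ofReal (|K| * (A / c.κ))) ∧ ∃ z, w n z ≠ w n 0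
    let r : ℕ → ℕ := fun n => if G n then n else n0
    have hr : ∀ n, G (r n) := fun n => by
      by_cases h : G n
      · simpa only [r, if_pos h] using h
      · simpa only [r, if_neg h] using g0
    have hr' : ∀ᶠ n in 𝒰, r n = n := (good.and hc).mono fun n hn => if_pos hn
    obtain ⟨ι, _, v, L, nc, -⟩ := C.gromov Φ 𝒰 h𝒰 (lam := fun _ => ()) (l := ()) tendsto_const_nhds
      (u := fun n => w (r n)) (fun n z => (hΦ _ _ _).2 ((hr n).1.2.1 z)) ENNReal.ofReal_ne_top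
      (fun n => (hr n).1.2.2) (fun n => (hr n).2)
      fun n => ⟨_, ((hr n).1.1.tendsto _).comp (top_inf (S (r n)))⟩
    have hm : ∀ a, closure (range (v a)) ⊆ D.ι0 '' O.W ∪ range D.P := fun a e he => by
      refine D.cl e fun N hN => ?_
      obtain ⟨_, h1, y, rfl⟩ := mem_closure_iff_nhds.1 he _ (interior_mem_nhds.2 hN)
      obtain ⟨η, hη, h2⟩ := Metric.mem_nhds_iff.1 (mem_interior_iff_mem_nhds.1 h1)
      refine (Eventually.frequently ?_).filter_mono h𝒰
      filter_upwards [L.hit a y η hη, hr'] with n ⟨z, _, h3⟩ h4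
      exact ⟨(S n).u z, h2 (by rwa [h4] at h3)⟩
    have ex := fun a => by
      have hv := fun z => (hΦ _ _ _).1 (L.sol a z)
      have hp := C.ext_inf Φ (fun {l u z} hz h => (hΦ _ _ _).2
        (D.T.comp (analyticAt_id.inv hz) ((hΦ _ _ _).1 h))) (L.sol a) (L.fin a)
      exact D.comp D.T.isolated D.T.comp hv ((hΦ _ _ _).1 (hp.choose_spec 0)) (nc a) (hm a)
    choose Cc h1 h2 using ex
    refine ⟨Fintype.card ι, fun i => Cc ((Fintype.equivFin ι).symm i), fun α hα ht => ?_,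
      fun x y hx hy hl => ?_⟩
    · obtain ⟨a, a1, a2, a3, a4⟩ := D.form α hα ht
      rw [(Fintype.equivFin ι).symm.sum_comp fun b => per (Cc b).u α,
        Finset.sum_congr rfl fun b _ => h1 b α a a2 a4]
      refine (L.int _ (C.Dens.form Φ.cK a1)).congr' ?_
      filter_upwards [perd α a a3, hr'] with n h3 h4
      rw [h3, h4, Measure.restrict_univ]
      rfl
    · have h3 : D.ι0 y ∈ closure (⋃ a, range (v a)) := by
        refine Metric.mem_closure_iff.2 fun η hη => ?_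
        have h4 : 0 < η / 3 := by positivity
        obtain ⟨n, ⟨⟨⟨h5, h6⟩, h7⟩, h8⟩, h9⟩ := (((((Metric.tendsto_nhds.1 (lim x y hy hl)
          _ h4).and (L.near _ h4)).and hx).and good).and hr').exists
        obtain ⟨_, ⟨z, rfl⟩, k1⟩ := Metric.mem_closure_iff.1 (top_img (S n) h8.1 h7) _ h4
        obtain ⟨a, t, k2⟩ := h6 z (mem_univ z)
        rw [h9] at k2
        refine ⟨v a t, mem_iUnion.2 ⟨a, t, rfl⟩, ?_⟩
        have := dist_triangle4 (D.ι0 y) (D.ι n (x n)) (w n z) (v a t)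
        rw [dist_comm] at h5
        have k3 : dist (D.ι n (x n)) (w n z) < η / 3 := k1
        linarith
      rw [closure_iUnion_of_finite] at h3
      obtain ⟨a, ha⟩ := mem_iUnion.1 h3
      exact ⟨Fintype.equivFin ι a, by simpa using h2 a y hy ha⟩
  · have hc' : ∀ᶠ n in 𝒰, ∀ z, w n z = w n 0 :=
      (Ultrafilter.eventually_not.2 hc).mono fun n hn => by simpa using hn
    refine ⟨0, Fin.elim0, fun α hα ht => ?_, fun x y hx hy hl => ?_⟩
    · obtain ⟨a, -, -, a3, -⟩ := D.form α hα ht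
      refine tendsto_const_nhds.congr' ?_
      filter_upwards [perd α a a3, hc'] with n h3 h4
      rw [h3, show w n = fun _ => w n 0 from funext h4]
      simp [dens]
    · exfalso
      obtain ⟨N, hN, hi⟩ := D.inj y hy
      obtain ⟨n, ⟨⟨⟨h1, h2⟩, h3⟩, h4⟩, h5⟩ := ((((((lim x y hy hl).eventually hN).and
        (h𝒰 hi)).and hx).and good).and hc').exists
      have h6 : D.ι n (x n) = w n 0 := isClosed_singleton.closure_subset_iff.2
        (by rintro _ ⟨z, rfl⟩; exact h5 z) (top_img (S n) h4.1 h3)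
      have h7 : (S n).u = fun _ => x n := funext fun z => (h2 _ _ h1 (h6.trans (h5 z).symm)).symm
      obtain ⟨s, -, hs⟩ := (S n).nc
      apply hs
      rw [h7, dif, mfderiv_const]
      rfl

end Pool.Agent.Lib.MP_1c0d65_gt.PW
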