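import Pool.Agent.Lib.MP_1c0d65_gt.PW.Deg
import Pool.Agent.Lib.MP_1c0d65_gt.PW.Reparam

/-! A holomorphic sphere in the target of a degeneration is an orbifold sphere. -/

set_option autoImplicit false
set_option linter.unusedSectionVars false

open scoped Manifold ContDiff Topology
open Set MeasureTheory Filter Metric

noncomputable section

namespace Pool.Agent.Lib.MP_1c0d65_gt.PW

variable {V : Type} [NormedAddCommGroup V] [NormedSpace ℝ V]

theorem top_congr {T : Tg V FF} {w w' : ℂ → V} {z : ℂ} (h : T.Hol w z) (e : w' =ᶠ[𝓝 z] w) :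
    T.Hol w' z := by
  refine ⟨e.eq_of_nhds ▸ h.1, h.2.1.congr_of_eventuallyEq e, fun k hk => ?_⟩
  have e' : T.g k ∘ w' =ᶠ[𝓝 z] T.g k ∘ w := e.fun_comp _
  have h1 := h.2.2 k (e.eq_of_nhds ▸ hk)
  unfold CR at h1 ⊢
  rw [e'.fderiv_eq, e'.eq_of_nhds]
  exact h1

/-- A map with isolated fibres or locally constant is constant or has isolated fibres. -/
theorem top_iso {w : ℂ → V} (hc : Continuous w) (hn : ∃ z z', w z ≠ w z')
    (h : ∀ z, (∀ᶠ y in 𝓝 z, w y = w z) ∨ ∀ᶠ y in 𝓝[≠] z, w y ≠ w z) (z : ℂ) :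
    ∀ᶠ y in 𝓝[≠] z, w y ≠ w z := by
  refine (h z).resolve_left fun h0 => ?_
  have ho : IsOpen {s | ∀ᶠ y in 𝓝 s, w y = w z} := isOpen_setOfPred_eventually_nhds
  have hcl : IsClosed {s | ∀ᶠ y in 𝓝 s, w y = w z} := by
    refine isClosed_of_closure_subset fun s hs => ?_
    have e : w s = w z := (isClosed_eq hc continuous_const).closure_subset_iff.2
      (fun t (ht : ∀ᶠ y in 𝓝 t, w y = w z) => ht.self_of_nhds) hs
    rcases h s with h1 | h1
    · exact h1.mono fun y hy => hy.trans e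
    · exfalso
      rw [eventually_nhdsWithin_iff] at h1
      obtain ⟨t, h2, h3⟩ := ((mem_closure_iff_frequently.1 hs).and_eventually
        h1.eventually_nhds).exists
      have h4 : ∀ᶠ y in 𝓝[≠] t, y ≠ s := by
        by_cases a : t = s
        · exact a ▸ self_mem_nhdsWithin
        · exact nhdsWithin_le_nhds (isOpen_ne.mem_nhds a)
      obtain ⟨y, ⟨h5, h6⟩, h7⟩ :=
        (((Eventually.and h2 h3).filter_mono nhdsWithin_le_nhds).and h4).exists
      exact h6 h7 (h5.trans e.symm)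
  have hu := IsClopen.eq_univ ⟨hcl, ho⟩ ⟨z, h0⟩
  obtain ⟨a, b, hab⟩ := hn
  have k : ∀ s, w s = w z := fun s =>
    Eventually.self_of_nhds (p := fun y => w y = w z)
      (show s ∈ {s | ∀ᶠ y in 𝓝 s, w y = w z} from hu ▸ mem_univ s)
  exact hab ((k a).trans (k b).symm)

theorem top_ev {w : ℂ → V} (hc : Continuous w) {P : Set V} (hP : P.Finite) {z : ℂ}
    (h : ∀ᶠ y in 𝓝[≠] z, w y ≠ w z) : ∀ᶠ y in 𝓝[≠] z, w y ∉ P := by
  have h1 : IsClosed (P \ {w z}) := (hP.subset sdiff_subset).isClosed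
  filter_upwards [h, nhdsWithin_le_nhds (hc.continuousAt.eventually (h1.isOpen_compl.mem_nhds
    (show w z ∈ (P \ {w z})ᶜ from fun e => e.2 rfl)))] with y h2 h3 h4
  exact h3 ⟨h4, h2⟩

theorem top_fin {w w' : ℂ → V} (hc : Continuous w) (hc' : ContinuousAt w' 0) {P : Set V}
    (hP : P.Finite) (h : ∀ z, ∀ᶠ y in 𝓝[≠] z, w y ≠ w z) (e : ∀ s ≠ 0, w' s = w s⁻¹)
    (h0 : w' 0 ∉ P) : (w ⁻¹' P).Finite := by
  obtain ⟨r, hr, hb⟩ := Metric.eventually_nhds_iff.1
    (hc'.eventually (hP.isClosed.isOpen_compl.mem_nhds h0))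
  refine IsCompact.finite ((isCompact_closedBall (0 : ℂ) r⁻¹).of_isClosed_subset
    (hP.isClosed.preimage hc) fun s hs => ?_) (isDiscrete_iff_nhdsNE.2 fun s _ => ?_)
  · by_contra a
    rw [mem_closedBall_zero_iff, not_le] at a
    have s0 : s ≠ 0 := norm_pos_iff.1 ((inv_pos.2 hr).trans a)
    refine hb (y := s⁻¹) ?_ (by rwa [e _ (inv_ne_zero s0), inv_inv])
    rw [dist_zero_right, norm_inv]
    exact inv_lt_of_inv_lt₀ hr a
  · exact inf_principal_eq_bot.2 (top_ev hc hP (h s))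

theorem top_dens {a : V → Bil V ℝ} (ha : ∀ e ξ, a e ξ ξ = 0) {w : ℂ → V} {φ : ℂ → ℂ} {s d : ℂ}
    (hw : DifferentiableAt ℝ w (φ s)) (h : HasDerivAt φ d s) :
    dens a (w ∘ φ) s = ‖d‖ ^ 2 * dens a w (φ s) := by
  have e := fderiv_comp s hw (h.differentiableAt.restrictScalars ℝ)
  unfold dens
  rw [e, ContinuousLinearMap.comp_apply, ContinuousLinearMap.comp_apply, brk_fderiv h,
    brk_fderiv h, mul_one]
  exact brk_alt ((a (w (φ s))).bilinearComp (fderiv ℝ w (φ s)) (fderiv ℝ w (φ s)))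
    (fun v => ha _ _) d

variable {X : Type} [TopologicalSpace X] [ChartedSpace E X] [IsManifold 𝓘(ℝ, E) ∞ X]
  [MeasurableSpace X] {c : Ctx X} {O : Orb c} {J : ℕ → X → E →L[ℝ] E}

theorem Orb.isOpen_W' (O : Orb c) : IsOpen O.W := (isClosed_iUnion_of_finite O.closed).isOpen_compl

/-- Two charts of a sphere in the target, infinity going to a smooth point. -/
theorem DegV.oc (D : DegV V O J) {w w' : ℂ → V} (hw : ∀ z, D.T.Hol w z) (hw' : ∀ z, D.T.Hol w' z)
    (e : ∀ s ≠ 0, w' s = w s⁻¹) (iso : ∀ z, ∀ᶠ y in 𝓝[≠] z, w y ≠ w z)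
    (hm : ∀ z, w z ∈ D.ι0 '' O.W ∪ range D.P) (hm' : ∀ z, w' z ∈ D.ι0 '' O.W ∪ range D.P)
    (h0 : w' 0 ∉ range D.P) : ∃ C : OC O, C.u = D.ρ ∘ w ∧ C.v = D.ρ ∘ w' ∧
      ∀ s, s ∈ C.F ↔ w s ∈ range D.P := by
  have hc : Continuous w := continuous_iff_continuousAt.2 fun z => (hw z).2.1.continuousAt
  have hc' : ContinuousAt w' 0 := (hw' 0).2.1.continuousAt
  have hP := finite_range D.P
  have hF := top_fin hc hc' hP iso e h0
  have ho : IsOpen (w ⁻¹' range D.P)ᶜ := hF.isClosed.isOpen_compl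
  have hu : Hol O.J (D.ρ ∘ w) (w ⁻¹' range D.P)ᶜ :=
    D.back w _ ho fun z hz => ⟨hw z, (hm z).resolve_right hz⟩
  have k : ∀ {y : V}, y ∈ D.ι0 '' O.W → D.ρ y ∈ O.W ∧ D.ι0 (D.ρ y) = y := by
    rintro _ ⟨x, hx, rfl⟩
    rw [D.left x hx]
    exact ⟨hx, rfl⟩
  refine ⟨⟨D.ρ ∘ w, D.ρ ∘ w', hF.toFinset, by simpa using hu, fun s hs => ?_, ?_,
    (k ((hm' 0).resolve_right h0)).1, fun s hs => congrArg D.ρ (e s hs), fun a ha => ?_, ?_⟩,
    rfl, rfl, fun s => hF.mem_toFinset⟩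
  · exact (k ((hm s).resolve_right (by simpa using hs))).1
  · obtain ⟨r, hr, hb⟩ := Metric.eventually_nhds_iff_ball.1
      (hc'.eventually (hP.isClosed.isOpen_compl.mem_nhds h0))
    exact ⟨r, hr, D.back w' _ isOpen_ball fun z hz => ⟨hw' z, (hm' z).resolve_right (hb z hz)⟩⟩
  · obtain ⟨i, hi⟩ := hF.mem_toFinset.1 ha
    refine ⟨i, (hasBasis_nhdsSet _).tendsto_right_iff.2 fun U hU => ?_⟩
    obtain ⟨N, hN, h1⟩ := D.sing i U hU.1 hU.2
    filter_upwards [top_ev hc hP (iso a),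
      nhdsWithin_le_nhds (hc.continuousAt.eventually (show N ∈ 𝓝 (w a) from hi ▸ hN))] with s h2 h3
    have h4 := k ((hm s).resolve_right h2)
    exact h1 _ h4.1 (h4.2.symm ▸ h3)
  · by_contra hn
    simp only [Finite.mem_toFinset, not_exists, not_and, not_not] at hn
    obtain ⟨s, hs⟩ := (top_ev hc hP (iso 0)).exists
    obtain ⟨r, hr, hb⟩ := Metric.isOpen_iff.1 ho s hs
    have h1 : ∀ t ∈ ball s r, fderiv ℝ w t = 0 := fun t ht => by
      have h2 := hu.pt (ho.mem_nhds (hb ht))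
      have h3 : w =ᶠ[𝓝 t] D.ι0 ∘ (D.ρ ∘ w) := by
        filter_upwards [ho.mem_nhds (hb ht)] with y hy using (k ((hm y).resolve_right hy)).2.symm
      have h4 : dif (D.ρ ∘ w) t = 0 := by
        ext1 b
        rw [brk_lin, h2.2, hn t (hb ht)]
        simp
      have h5 := (D.sm0.contMDiffAt (O.isOpen_W'.mem_nhds
        (k ((hm t).resolve_right (hb ht))).1)).mdifferentiableAt (by simp)
      have h6 := mfderiv_comp t h5 (brk_md h2.1)
      rw [mfderiv_eq_fderiv] at h6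
      rw [h3.fderiv_eq]
      refine h6.trans ?_
      exact (congrArg (ContinuousLinearMap.comp _) h4).trans (ContinuousLinearMap.comp_zero _)
    obtain ⟨t, h2, h3⟩ := ((iso s).and (nhdsWithin_le_nhds (ball_mem_nhds s hr))).exists
    exact h2 (isOpen_ball.is_const_of_fderiv_eq_zero (𝕜 := ℝ) (convex_ball s r).isPreconnected
      (fun y _ => ((hw y).2.1.differentiableAt one_ne_zero).differentiableWithinAt) h1 h3
      (mem_ball_self hr))

/-- A component of the limit is an orbifold sphere. -/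
theorem DegV.comp (D : DegV V O J)
    (iso : ∀ {w z}, (∀ᶠ y in 𝓝 z, D.T.Hol w y) →
      (∀ᶠ y in 𝓝 z, w y = w z) ∨ ∀ᶠ y in 𝓝[≠] z, w y ≠ w z)
    (cmp : ∀ {w φ z}, AnalyticAt ℂ φ z → D.T.Hol w (φ z) → D.T.Hol (w ∘ φ) z)
    {w : ℂ → V} (hw : ∀ z, D.T.Hol w z) {p : V}
    (hp : D.T.Hol (Function.update (fun y => w y⁻¹) 0 p) 0) (hn : ∃ z, w z ≠ w 0)
    (hm : closure (range w) ⊆ D.ι0 '' O.W ∪ range D.P) : ∃ C : OC O,
      (∀ (α : X → Bil E ℝ) (a : V → Bil V ℝ), (∀ e ξ, a e ξ ξ = 0) →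
        (∀ u S, IsOpen S → Hol O.J u S → MapsTo u S O.W → ∀ z ∈ S,
          dens a (D.ι0 ∘ u) z = pull2 u α z 1 .I) → per C.u α = ∫ z, dens a w z) ∧
      ∀ y ∈ O.W, D.ι0 y ∈ closure (range w) → y ∈ C.img := by
  have hc : Continuous w := continuous_iff_continuousAt.2 fun z => (hw z).2.1.continuousAt
  obtain ⟨z0, hz0⟩ := hn
  obtain ⟨z1, h1⟩ := (top_ev hc (finite_range D.P) (top_iso hc ⟨z0, 0, hz0⟩
    (fun z => iso (Eventually.of_forall hw)) 0)).exists
  set w1 : ℂ → V := Function.update (fun s => w (z1 + s⁻¹)) 0 p with hw1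
  have e1 : ∀ s ≠ 0, w1 s = w (z1 + s⁻¹) := fun s hs => Function.update_of_ne hs _ _
  have e2 : ∀ s ≠ 0, w1 =ᶠ[𝓝 s] w ∘ fun t => z1 + t⁻¹ := fun s hs => by
    filter_upwards [isOpen_ne.mem_nhds hs] with t ht using e1 t ht
  have e3 : ∀ z ≠ z1, w z = w1 (z - z1)⁻¹ := fun z hz => by
    rw [e1 _ (inv_ne_zero (sub_ne_zero.2 hz)), inv_inv, add_sub_cancel]
  have H1 : ∀ s, D.T.Hol w1 s := fun s => by
    by_cases a : s = 0
    · subst a
      refine top_congr (cmp (mob_zero z1).2.1 (w := Function.update (fun y => w y⁻¹) 0 p)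
        (by simpa using hp)) ?_
      filter_upwards [(mob_zero z1).2.2] with t ht
      by_cases b : t = 0
      · subst b
        simp [hw1]
      · rw [e1 t b, Function.comp_apply, Function.update_of_ne (ht b).1, (ht b).2]
    · exact top_congr (cmp (mob_an z1 a) (hw _)) (e2 s a)
  have H2 : ∀ s, D.T.Hol (w ∘ fun t => z1 + t) s := fun s =>
    cmp (analyticAt_const.add analyticAt_id) (hw _)
  have c1 : Continuous w1 := continuous_iff_continuousAt.2 fun z => (H1 z).2.1.continuousAt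
  have e4 : ∀ s ≠ 0, (w ∘ fun t => z1 + t) s = w1 s⁻¹ := fun s hs => by
    rw [e1 _ (inv_ne_zero hs), inv_inv, Function.comp_apply]
  have m1 : ∀ s, w1 s ∈ closure (range w) := fun s => by
    refine mem_closure_of_tendsto (b := 𝓝[≠] s)
      (c1.continuousAt.tendsto.mono_left nhdsWithin_le_nhds) ?_
    have : ∀ᶠ t in 𝓝[≠] s, t ≠ 0 := by
      by_cases a : s = 0
      · exact a ▸ self_mem_nhdsWithin
      · exact nhdsWithin_le_nhds (isOpen_ne.mem_nhds a)
    exact this.mono fun t ht => ⟨_, (e1 t ht).symm⟩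
  have n1 : ∃ z z', w1 z ≠ w1 z' := by
    by_contra hn
    simp only [not_exists, not_not] at hn
    have h2 : ∀ z, w z = p := fun z => by
      refine (isClosed_eq hc continuous_const).closure_subset_iff.2
        (fun t (ht : t ∈ ({z1}ᶜ : Set ℂ)) => ?_) (dense_compl_singleton z1 z)
      exact (e3 t ht).trans ((hn _ 0).trans (Function.update_self _ _ _))
    exact hz0 ((h2 z0).trans (h2 0).symm)
  obtain ⟨C, hu, hv, hF⟩ := D.oc H1 H2 e4 (top_iso c1 n1 fun z => iso (Eventually.of_forall H1))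
    (fun z => hm (m1 z)) (fun z => hm (subset_closure ⟨_, rfl⟩)) (by simpa using h1)
  refine ⟨C, fun α a ha h => ?_, fun y hy h => ?_⟩
  · rw [per, ← mob_int z1 fun z => dens a w z]
    refine integral_congr_ae ?_
    filter_upwards [C.ae_F, compl_mem_ae_iff.2 (measure_singleton (0 : ℂ))] with s hs b
    have h3 : D.ι0 ∘ C.u =ᶠ[𝓝 s] w ∘ fun t => z1 + t⁻¹ := by
      filter_upwards [C.isOpen_F.mem_nhds hs, e2 s b] with t h4 h5
      obtain ⟨x, hx, h6⟩ := (hm (m1 t)).resolve_right fun h7 => h4 ((hF t).2 h7)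
      rw [← h5, Function.comp_apply, hu, Function.comp_apply, ← h6, D.left x hx]
    rw [← h C.u _ C.isOpen_F C.hu C.mu s hs, ← top_dens (φ := fun t => z1 + t⁻¹) ha
      ((hw _).2.1.differentiableAt one_ne_zero) (mob_der z1 b)]
    unfold dens
    rw [h3.fderiv_eq, h3.eq_of_nhds]
  · have hK : IsCompact (w1 '' closedBall 0 1 ∪ (w ∘ fun t => z1 + t) '' closedBall 0 1) :=
      ((isCompact_closedBall 0 1).image c1).union
        ((isCompact_closedBall 0 1).image (hc.comp (by fun_prop)))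
    have k : ∀ s, w1 s = D.ι0 y → y ∈ C.img := fun s hs => by
      refine Or.inl ⟨s, fun h4 => ?_, by rw [hu, Function.comp_apply, hs, D.left y hy]⟩
      obtain ⟨i, hi⟩ := (hF s).1 h4
      exact D.ne y hy i (hs.symm.trans hi.symm)
    rcases hK.isClosed.closure_subset_iff.2 (by
      rintro _ ⟨z, rfl⟩
      by_cases b : ‖z - z1‖ ≤ 1
      · exact Or.inr ⟨z - z1, mem_closedBall_zero_iff.2 b, by simp⟩
      · refine Or.inl ⟨(z - z1)⁻¹, ?_, (e3 z ?_).symm⟩
        · rw [mem_closedBall_zero_iff, norm_inv]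
          exact inv_le_one_of_one_le₀ (not_le.1 b).le
        · rintro rfl
          simp at b) h with ⟨s, -, hs⟩ | ⟨s, -, hs⟩
    · exact k s hs
    · by_cases b : s = 0
      · subst b
        exact Or.inr (by rw [mem_singleton_iff, hv, Function.comp_apply, hs, D.left y hy])
      · exact k _ ((e4 s b).symm.trans hs)

end Pool.Agent.Lib.MP_1c0d65_gt.PW
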